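import Pool.Agent.TH268.NP.Neg

set_option autoImplicit false

/-! # Assembly in the strip -/

open MeasureTheory Set Filter Topology
open scoped ENNReal NNReal

namespace Pool.Agent.TH268.NP

/-- the statement of the abstract theorem -/
def AbsThm : Prop := ∀ (H : Type) [NormedAddCommGroup H] [InnerProductSpace ℝ H] [CompleteSpace H]
    (S B N C : H →L[ℝ] H) (_ : ∀ x y : H, inner ℝ x (S y) = inner ℝ (S x) y)
    (_ : ∀ x : H, x ≠ 0 → 0 < inner ℝ x (S x))
    (_ : ∀ x y : H, inner ℝ x (S (B y)) = inner ℝ (B x) (S y))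
    (_ : B = N + C) (_ : ∀ x : H, inner ℝ x (N x) ≤ 0) (_ : IsCompactOperator C)
    (W : Type) [AddCommGroup W] [Module ℝ W] (_ : ¬ FiniteDimensional ℝ W) (L : W →ₗ[ℝ] H)
    (_ : ∀ w : W, w ≠ 0 → 0 < inner ℝ (L w) (S (B (L w)))),
    {lam : ℝ | 0 < lam ∧ ∃ x : H, x ≠ 0 ∧ B x = lam • x}.Infinite

lemma fp_meas (p : Polynomial ℝ) : Measurable (fp p) := by
  unfold fp
  refine Measurable.ite ?_ ?_ measurable_const
  · exact measurableSet_le (by fun_prop) measurable_const
  · have : Continuous (fun t : ℝ => Real.exp t * p.eval (Real.exp (2 * t))) := by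
      have := p.continuous
      fun_prop
    exact this.measurable

lemma fp_memLp (p : Polynomial ℝ) : MemLp (fp p) 2 volume := by
  have hc : Continuous (fun t : ℝ => Real.exp t * p.eval (Real.exp (2 * t))) := by
    have := p.continuous
    fun_prop
  have h1 : fp p = (Icc (-(1/2) : ℝ) (1/2)).indicator (fun t : ℝ => Real.exp t * p.eval (Real.exp (2 * t))) := by
    ext t
    unfold fp
    by_cases ht : |t| ≤ 1 / 2
    · rw [if_pos ht, indicator_of_mem (show t ∈ Icc (-(1/2):ℝ) (1/2) from abs_le.1 ht)]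
    · rw [if_neg ht, indicator_of_notMem]
      intro hcon
      exact ht (abs_le.2 hcon)
  rw [h1, memLp_indicator_iff_restrict measurableSet_Icc]
  obtain ⟨C, hC⟩ := isCompact_Icc.exists_bound_of_continuousOn (s := Icc (-(1/2) : ℝ) (1/2)) hc.continuousOn
  refine MemLp.of_bound hc.aestronglyMeasurable C ?_
  refine (ae_restrict_iff' measurableSet_Icc).2 (Eventually.of_forall fun x hx => hC x hx)

/-- the densities as a linear map -/
noncomputable def Lfp : Polynomial ℝ →ₗ[ℝ] Lp ℝ 2 (volume : Measure ℝ) where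
  toFun p := (fp_memLp p).toLp (fp p)
  map_add' p q := by
    rw [← MemLp.toLp_add]
    congr 1
    ext t
    simp only [fp, Pi.add_apply, Polynomial.eval_add]
    split_ifs <;> ring
  map_smul' c p := by
    rw [RingHom.id_apply, ← MemLp.toLp_const_smul]
    congr 1
    ext t
    simp only [fp, Pi.smul_apply, Polynomial.eval_smul, smul_eq_mul]
    split_ifs <;> ring

/-- eigenvalues in the strip -/
def StripEig (ψ : ℝ → ℝ) : Set ℝ := {lam : ℝ | 0 < lam ∧ ∃ f g : ℝ → ℝ, MemLp f 2 volume ∧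
  (∀ t, g t = ∫ s, GS ψ t s * f s) ∧ Measurable g ∧ MemLp g 2 volume ∧ ¬ g =ᵐ[volume] 0 ∧
  ∀ᵐ t, ∫ s, kk ψ t s * g s = lam * g t}

theorem strip_infinite (habs : AbsThm) {ψ : ℝ → ℝ} (h : Prof ψ)
    (hpd : ∀ f : ℝ → ℝ, MemLp f 2 volume → ¬ f =ᵐ[volume] 0 → 0 < ∫ t, f t * ∫ s, GS ψ t s * f s)
    (hplem : ∀ t r : ℝ, t ≠ r → ∫ s, GS ψ t s * kk ψ r s = ∫ s, GS ψ r s * kk ψ t s)
    (hpos : ∀ p : Polynomial ℝ, p ≠ 0 →
      0 < ∫ s, (∫ t, kk ψ t s * fp p t) * ∫ r, GS ψ s r * fp p r) :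
    (StripEig ψ).Infinite := by
  obtain ⟨CK, hK⟩ := h.schur_K
  have hSs := h.schur_S
  obtain ⟨S, hS⟩ := hSs.op
  obtain ⟨K, hKr⟩ := hK.op
  obtain ⟨B, hB⟩ := hK.flip.op
  obtain ⟨N, hN⟩ := schur_nn.op
  obtain ⟨Cc, hCc0, hCc⟩ := h.cc_le
  have hcs : Ker.Schur volume (cc ψ) (∫ u : ℝ, Cc * (1 / Real.cosh u)) :=
    Ker.schur_conv h.cc_meas (fun u => Cc * (1 / Real.cosh u)) (integrable_inv_cosh.const_mul Cc)
      (fun u => by have := Real.cosh_pos u; positivity)
      (fun x y => (hCc x y).trans (le_of_eq (by ring)))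
  obtain ⟨C, hC⟩ := hcs.op
  have hSsymm : Ker.Rep volume (fun x y => GS ψ y x) S := by
    intro φ
    filter_upwards [hS φ] with x hx
    rw [hx]
    congr 1
    ext y
    rw [GS_symm]
  have hSadj : ∀ x y : Lp ℝ 2 (volume : Measure ℝ), inner ℝ x (S y) = inner ℝ (S x) y :=
    fun x y => hSs.adj S S hS hSsymm y x
  -- the form of the single layer
  have hform : ∀ x : Lp ℝ 2 (volume : Measure ℝ), inner ℝ x (S x) = ∫ t, x t * ∫ s, GS ψ t s * x s := by
    intro x
    rw [L2.inner_def]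
    refine integral_congr_ae ?_
    filter_upwards [hS x] with t ht
    rw [ht]
    simp [mul_comm]
  have hSpos : ∀ x : Lp ℝ 2 (volume : Measure ℝ), x ≠ 0 → 0 < inner ℝ x (S x) := by
    intro x hx
    rw [hform]
    refine hpd x (Lp.memLp x) ?_
    intro hcon
    exact hx ((Lp.eq_zero_iff_ae_eq_zero).2 hcon)
  -- `S B = K S`
  have hSB : ∀ x y : Lp ℝ 2 (volume : Measure ℝ), inner ℝ x (S (B y)) = inner ℝ (S (B x)) y := by
    intro x y
    refine Ker.comp_symm hSs hK.flip S B hS hB ?_ y x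
    intro r
    have : ∀ᵐ z : ℝ, z ≠ r := by
      rw [ae_iff]
      simp
    filter_upwards [this] with z hz
    unfold Ker.kcomp
    exact hplem r z (Ne.symm hz)
  have hBform : ∀ x y : Lp ℝ 2 (volume : Measure ℝ), inner ℝ x (S (B y)) = inner ℝ (B x) (S y) := by
    intro x y
    rw [hSB, ← hSadj (B x) y]
  have hdec : B = N + C := by
    ext1 φ
    apply Lp.ext
    rw [_root_.add_apply]
    filter_upwards [hB φ, hN φ, hC φ, Lp.coeFn_add (N φ) (C φ), schur_nn.integ φ, hcs.integ φ]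
      with x b1 b2 b3 b4 b5 b6
    rw [b1, b4, Pi.add_apply, b2, b3, ← integral_add b5 b6]
    congr 1
    ext y
    simp only [nn, cc]
    ring
  have hLpos : ∀ w : Polynomial ℝ, w ≠ 0 → 0 < inner ℝ (Lfp w) (S (B (Lfp w))) := by
    intro p hp
    have hfp : (Lfp p : ℝ → ℝ) =ᵐ[volume] fp p := (fp_memLp p).coeFn_toLp
    rw [hBform, L2.inner_def]
    have := hpos p hp
    convert this using 1
    refine integral_congr_ae ?_
    filter_upwards [hB (Lfp p), hS (Lfp p)] with s b1 b2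
    rw [b1, b2]
    have e1 : ∫ t, kk ψ t s * Lfp p t = ∫ t, kk ψ t s * fp p t := by
      refine integral_congr_ae ?_
      filter_upwards [hfp] with t ht
      rw [ht]
    have e2 : ∫ t, GS ψ s t * Lfp p t = ∫ t, GS ψ s t * fp p t := by
      refine integral_congr_ae ?_
      filter_upwards [hfp] with t ht
      rw [ht]
    rw [e1, e2]
    simp [mul_comm]
  have hinf := habs (Lp ℝ 2 (volume : Measure ℝ)) S B N C hSadj hSpos hBform hdec
    (fun x => nn_neg N hN x) (h.cc_compact C hC) (Polynomial ℝ) Polynomial.not_finite Lfp hLpos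
  refine hinf.mono ?_
  rintro lam ⟨hlam, x, hx0, hBx⟩
  refine ⟨hlam, x, fun t => ∫ s, GS ψ t s * x s, Lp.memLp x, fun t => rfl, ?_, ?_, ?_, ?_⟩
  · have hx : Measurable (x : ℝ → ℝ) := (Lp.stronglyMeasurable x).measurable
    have hm : Measurable (fun p : ℝ × ℝ => GS ψ p.1 p.2 * x p.2) :=
      Measurable.mul h.GS_meas (hx.comp measurable_snd)
    exact (hm.stronglyMeasurable.integral_prod_right).measurable
  · exact (memLp_congr_ae (hS x)).1 (Lp.memLp (S x))
  · intro hcon
    have h1 := hSpos x hx0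
    have h2' : (S x : ℝ → ℝ) =ᵐ[volume] fun t => ∫ s, GS ψ t s * x s := hS x
    have h2 : S x = 0 := (Lp.eq_zero_iff_ae_eq_zero).2 (h2'.trans hcon)
    rw [h2, inner_zero_right] at h1
    exact lt_irrefl _ h1
  · have hKS : K (S x) = lam • S x := by
      refine ext_inner_left ℝ fun y => ?_
      rw [hK.adj K B hKr hB (S x) y, ← hBform, hBx, map_smul]
    have h3 : (K (S x) : ℝ → ℝ) =ᵐ[volume] fun t => lam * (S x) t := by
      rw [hKS]
      filter_upwards [Lp.coeFn_smul lam (S x)] with t ht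
      rw [ht, Pi.smul_apply, smul_eq_mul]
    filter_upwards [h3, hKr (S x), hS x] with t b1 b2 b3
    rw [← b3, ← b1, b2]
    refine integral_congr_ae ?_
    filter_upwards [hS x] with s hs
    rw [hs]

end Pool.Agent.TH268.NP
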