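import Pool.Agent.TH268.NP.Defs

set_option autoImplicit false

/-! # Bounds for the kernels -/

open MeasureTheory Set Filter Topology
open scoped ENNReal NNReal RealInnerProductSpace

namespace Pool.Agent.TH268.NP

/-! ### the profile -/

section prof
variable {ψ : ℝ → ℝ}

lemma Prof.diff (h : Prof ψ) : Differentiable ℝ ψ := h.smooth.differentiable (by simp)

lemma Prof.contDeriv (h : Prof ψ) : ContDiff ℝ ((⊤ : ℕ∞) : WithTop ℕ∞) (deriv ψ) := by
  exact (contDiff_infty_iff_deriv.1 h.smooth).2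

lemma Prof.cont (h : Prof ψ) : Continuous ψ := h.smooth.continuous

lemma Prof.dcont (h : Prof ψ) : Continuous (deriv ψ) := h.contDeriv.continuous

lemma Prof.ddcont (h : Prof ψ) : Continuous (deriv (deriv ψ)) := by
  exact (contDiff_infty_iff_deriv.1 h.contDeriv).2.continuous

lemma Prof.deriv_far (h : Prof ψ) {t : ℝ} (ht : 2 < |t|) : deriv ψ t = 0 := by
  have h1 : ψ =ᶠ[𝓝 t] fun _ => Real.pi / 4 := by
    have : {x : ℝ | 2 < |x|} ∈ 𝓝 t := (isOpen_lt continuous_const continuous_abs).mem_nhds ht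
    filter_upwards [this] with x hx
    exact h.far x (le_of_lt hx)
  rw [h1.deriv_eq]
  simp

lemma Prof.deriv_mid' (h : Prof ψ) {t : ℝ} (ht : |t| < 1) : deriv ψ t = 0 := by
  have h1 : ψ =ᶠ[𝓝 t] fun _ => Real.pi / 2 := by
    have : {x : ℝ | |x| < 1} ∈ 𝓝 t := (isOpen_lt continuous_abs continuous_const).mem_nhds ht
    filter_upwards [this] with x hx
    exact h.mid x (le_of_lt hx)
  rw [h1.deriv_eq]
  simp

lemma Prof.deriv_mid (h : Prof ψ) {t : ℝ} (ht : |t| ≤ 1) : deriv ψ t = 0 := by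
  have h1 : Icc (-1 : ℝ) 1 ⊆ {t | deriv ψ t = 0} := by
    rw [← closure_Ioo (by norm_num : (-1 : ℝ) ≠ 1)]
    refine closure_minimal ?_ (isClosed_eq h.dcont continuous_const)
    intro x hx
    exact h.deriv_mid' (abs_lt.2 ⟨hx.1, hx.2⟩)
  exact h1 (abs_le.1 ht)

lemma Prof.deriv_far' (h : Prof ψ) {t : ℝ} (ht : 2 ≤ |t|) : deriv ψ t = 0 := by
  rcases ht.lt_or_eq with h1 | h1
  · exact h.deriv_far h1
  · have hcl : IsClosed {t | deriv ψ t = 0} := isClosed_eq h.dcont continuous_const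
    rcases le_or_gt 0 t with h0 | h0
    · rw [abs_of_nonneg h0] at h1
      have : Ici t ⊆ {t | deriv ψ t = 0} := by
        rw [← closure_Ioi t]
        refine closure_minimal ?_ hcl
        intro x hx
        have hx' : t < x := hx
        exact h.deriv_far (by rw [abs_of_pos (by linarith)]; linarith)
      exact this (mem_Ici.2 le_rfl)
    · rw [abs_of_neg h0] at h1
      have : Iic t ⊆ {t | deriv ψ t = 0} := by
        rw [← closure_Iio t]
        refine closure_minimal ?_ hcl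
        intro x hx
        have hx' : x < t := hx
        exact h.deriv_far (by rw [abs_of_neg (by linarith)]; linarith)
      exact this (mem_Iic.2 le_rfl)

lemma Prof.deriv_bdd (h : Prof ψ) : ∃ M : ℝ, 0 ≤ M ∧ ∀ t, |deriv ψ t| ≤ M := by
  have hc : HasCompactSupport (deriv ψ) := by
    refine HasCompactSupport.intro (isCompact_Icc (a := (-2 : ℝ)) (b := 2)) ?_
    intro x hx
    refine h.deriv_far' ?_
    by_contra hcon
    push Not at hcon
    exact hx ⟨(abs_lt.1 hcon).1.le, (abs_lt.1 hcon).2.le⟩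
  obtain ⟨M, hM⟩ := hc.exists_bound_of_continuous h.dcont
  exact ⟨M, (norm_nonneg _).trans (hM 0), fun t => hM t⟩

lemma Prof.dderiv_bdd (h : Prof ψ) : ∃ M : ℝ, 0 ≤ M ∧ ∀ t, |deriv (deriv ψ) t| ≤ M := by
  have hc : HasCompactSupport (deriv ψ) := by
    refine HasCompactSupport.intro (isCompact_Icc (a := (-2 : ℝ)) (b := 2)) ?_
    intro x hx
    refine h.deriv_far' ?_
    by_contra hcon
    push Not at hcon
    exact hx ⟨(abs_lt.1 hcon).1.le, (abs_lt.1 hcon).2.le⟩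
  obtain ⟨M, hM⟩ := hc.deriv.exists_bound_of_continuous h.ddcont
  exact ⟨M, (norm_nonneg _).trans (hM 0), fun t => hM t⟩

/-- a second order mean value inequality -/
lemma second_order {h h' h'' : ℝ → ℝ} {s C : ℝ} (h1 : ∀ x, HasDerivAt h (h' x) x)
    (h2 : ∀ x, HasDerivAt h' (h'' x) x) (h0 : h s = 0) (h0' : h' s = 0)
    (hb : ∀ x, |x - s| ≤ 1 → |h'' x| ≤ C) (t : ℝ) (ht : |t - s| ≤ 1) :
    |h t| ≤ C * (t - s) ^ 2 := by
  have hconv : Convex ℝ (Metric.closedBall s |t - s|) := convex_closedBall _ _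
  have hs : s ∈ Metric.closedBall s |t - s| := Metric.mem_closedBall_self (abs_nonneg _)
  have htm : t ∈ Metric.closedBall s |t - s| := by
    rw [Metric.mem_closedBall, Real.dist_eq]
  have hle : ∀ x ∈ Metric.closedBall s |t - s|, |x - s| ≤ 1 := by
    intro x hx
    rw [Metric.mem_closedBall, Real.dist_eq] at hx
    exact hx.trans ht
  have hb1 : ∀ x ∈ Metric.closedBall s |t - s|, ‖h' x‖ ≤ C * |t - s| := by
    intro x hx
    have := hconv.norm_image_sub_le_of_norm_hasDerivWithin_le (f := h') (f' := h'')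
      (fun y _ => (h2 y).hasDerivWithinAt) (fun y hy => hb y (hle y hy)) hs hx
    rw [h0', sub_zero] at this
    refine this.trans ?_
    have hC : 0 ≤ C := (abs_nonneg _).trans (hb s (by simp))
    rw [Metric.mem_closedBall, Real.dist_eq] at hx
    rw [Real.norm_eq_abs]
    gcongr
  have := hconv.norm_image_sub_le_of_norm_hasDerivWithin_le (f := h) (f' := h')
      (fun y _ => (h1 y).hasDerivWithinAt) hb1 hs htm
  rw [h0, sub_zero, Real.norm_eq_abs, Real.norm_eq_abs] at this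
  calc |h t| ≤ C * |t - s| * |t - s| := this
    _ = C * (t - s) ^ 2 := by rw [mul_assoc, ← sq, sq_abs]

end prof

/-! ### elementary inequalities -/

lemma cosh_ge (u : ℝ) : 1 + u ^ 2 / 2 ≤ Real.cosh u := by
  have h1 : Real.cosh u = 1 + 2 * Real.sinh (u / 2) ^ 2 := by
    have := Real.cosh_two_mul (u / 2)
    rw [show 2 * (u / 2) = u by ring, Real.cosh_sq] at this
    linarith
  have h2 : (u / 2) ^ 2 ≤ Real.sinh (u / 2) ^ 2 := by
    rw [← sq_abs (u / 2), ← sq_abs (Real.sinh (u / 2)), Real.abs_sinh]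
    have : |u / 2| ≤ Real.sinh |u / 2| := Real.self_le_sinh_iff.2 (abs_nonneg _)
    gcongr
  nlinarith

lemma cosh_sub_one_ge (u : ℝ) : u ^ 2 / 2 ≤ Real.cosh u - 1 := by linarith [cosh_ge u]

lemma cosh_sub_one_pos {u : ℝ} (hu : u ≠ 0) : 0 < Real.cosh u - 1 := by
  have := cosh_sub_one_ge u
  have : 0 < u ^ 2 / 2 := by positivity
  linarith

lemma cosh_third {u : ℝ} (hu : 1 ≤ |u|) : Real.cosh u / 3 ≤ Real.cosh u - 1 := by
  have h1 := cosh_ge u
  have h2 : 1 ≤ u ^ 2 := by rw [← sq_abs]; nlinarith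
  linarith

lemma abs_sinh_le_cosh (u : ℝ) : |Real.sinh u| ≤ Real.cosh u := by
  rw [abs_le]
  constructor
  · have := Real.sinh_lt_cosh (-u)
    rw [Real.sinh_neg, Real.cosh_neg] at this
    linarith
  · exact (Real.sinh_lt_cosh u).le

lemma cosh_one_le : Real.cosh 1 ≤ 2 := by
  rw [Real.cosh_eq]
  have h1 := Real.exp_one_lt_d9
  have h2 : Real.exp (-1) ≤ 1 := Real.exp_le_one_iff.2 (by norm_num)
  linarith

lemma cosh_le_two {u : ℝ} (hu : |u| ≤ 1) : Real.cosh u ≤ 2 := by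
  refine le_trans ?_ cosh_one_le
  rw [Real.cosh_le_cosh]
  simpa using hu

section ker
variable {ψ : ℝ → ℝ}

lemma Prof.cos_sum (h : Prof ψ) (t s : ℝ) : Real.cos (ψ t + ψ s) ≤ 0 := by
  apply Real.cos_nonpos_of_pi_div_two_le_of_le
  · linarith [h.lo t, h.lo s]
  · linarith [h.hi t, h.hi s, Real.pi_pos]

lemma Prof.cos_diff (h : Prof ψ) (t s : ℝ) : 0 ≤ Real.cos (ψ t - ψ s) := by
  apply Real.cos_nonneg_of_neg_pi_div_two_le_of_le
  · linarith [h.lo t, h.hi s, Real.pi_pos]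
  · linarith [h.hi t, h.lo s, Real.pi_pos]

/-- the first denominator -/
noncomputable def Dp (ψ : ℝ → ℝ) (t s : ℝ) : ℝ := Real.cosh (t - s) - Real.cos (ψ t + ψ s)
/-- the second denominator -/
noncomputable def Dm (ψ : ℝ → ℝ) (t s : ℝ) : ℝ := Real.cosh (t - s) - Real.cos (ψ t - ψ s)

lemma Prof.Dp_ge (h : Prof ψ) (t s : ℝ) : Real.cosh (t - s) ≤ Dp ψ t s := by
  unfold Dp; linarith [h.cos_sum t s]

lemma Prof.Dp_pos (h : Prof ψ) (t s : ℝ) : 0 < Dp ψ t s :=
  lt_of_lt_of_le (Real.cosh_pos _) (h.Dp_ge t s)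

lemma Dm_ge (ψ : ℝ → ℝ) (t s : ℝ) : Real.cosh (t - s) - 1 ≤ Dm ψ t s := by
  unfold Dm; linarith [Real.cos_le_one (ψ t - ψ s)]

lemma Dm_pos (ψ : ℝ → ℝ) {t s : ℝ} (hts : t ≠ s) : 0 < Dm ψ t s :=
  lt_of_lt_of_le (cosh_sub_one_pos (sub_ne_zero.2 hts)) (Dm_ge ψ t s)

lemma Dm_nonneg (ψ : ℝ → ℝ) (t s : ℝ) : 0 ≤ Dm ψ t s :=
  le_trans (by linarith [Real.one_le_cosh (t - s)]) (Dm_ge ψ t s)

lemma Dm_self (ψ : ℝ → ℝ) (t : ℝ) : Dm ψ t t = 0 := by simp [Dm]

lemma Dp_sub_Dm (ψ : ℝ → ℝ) (t s : ℝ) : Dp ψ t s - Dm ψ t s = 2 * Real.sin (ψ t) * Real.sin (ψ s) := by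
  unfold Dp Dm
  rw [Real.cos_add, Real.cos_sub]
  ring

lemma Prof.sin_pos (h : Prof ψ) (t : ℝ) : 0 < Real.sin (ψ t) :=
  Real.sin_pos_of_pos_of_lt_pi (by linarith [h.lo t, Real.pi_pos]) (by linarith [h.hi t, Real.pi_pos])

lemma Prof.diff_nonneg (h : Prof ψ) (t s : ℝ) : 0 ≤ Dp ψ t s - Dm ψ t s := by
  rw [Dp_sub_Dm]
  have := h.sin_pos t
  have := h.sin_pos s
  positivity

lemma Prof.diff_le (h : Prof ψ) (t s : ℝ) : Dp ψ t s - Dm ψ t s ≤ 2 := by
  rw [Dp_sub_Dm]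
  have h1 := h.sin_pos t
  have h2 := h.sin_pos s
  have h3 := Real.sin_le_one (ψ t)
  have h4 := Real.sin_le_one (ψ s)
  nlinarith

lemma GS_eq (ψ : ℝ → ℝ) (t s : ℝ) : GS ψ t s = 1 / (4 * Real.pi) * Real.log (Dp ψ t s / Dm ψ t s) := rfl

lemma kk_eq (ψ : ℝ → ℝ) (t s : ℝ) : kk ψ t s = -(1 / (4 * Real.pi)) *
    ((Real.sin (ψ t + ψ s) + deriv ψ s * Real.sinh (t - s)) / Dp ψ t s +
      (Real.sin (ψ t - ψ s) - deriv ψ s * Real.sinh (t - s)) / Dm ψ t s) := rfl

lemma GS_symm (ψ : ℝ → ℝ) (t s : ℝ) : GS ψ t s = GS ψ s t := by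
  have h1 : Dp ψ t s = Dp ψ s t := by
    unfold Dp
    rw [add_comm (ψ t), show t - s = -(s - t) by ring, Real.cosh_neg]
  have h2 : Dm ψ t s = Dm ψ s t := by
    unfold Dm
    rw [show ψ t - ψ s = -(ψ s - ψ t) by ring, Real.cos_neg, show t - s = -(s - t) by ring,
      Real.cosh_neg]
  rw [GS_eq, GS_eq, h1, h2]

lemma GS_self (ψ : ℝ → ℝ) (t : ℝ) : GS ψ t t = 0 := by
  rw [GS_eq, Dm_self]; simp

lemma log_one_add_le {x : ℝ} (hx : 0 ≤ x) : Real.log (1 + x) ≤ 8 * x ^ (1 / 8 : ℝ) := by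
  have h0 : 0 < 1 + x := by linarith
  have h1 : Real.log (1 + x) = 8 * Real.log ((1 + x) ^ (1 / 8 : ℝ)) := by
    rw [Real.log_rpow h0]; ring
  have h2 : Real.log ((1 + x) ^ (1 / 8 : ℝ)) ≤ (1 + x) ^ (1 / 8 : ℝ) - 1 :=
    Real.log_le_sub_one_of_pos (by positivity)
  have h3 : (1 + x) ^ (1 / 8 : ℝ) ≤ 1 ^ (1 / 8 : ℝ) + x ^ (1 / 8 : ℝ) :=
    Real.rpow_add_le_add_rpow (by norm_num) hx (by norm_num) (by norm_num)
  rw [Real.one_rpow] at h3
  linarith

lemma Prof.GS_nonneg (h : Prof ψ) (t s : ℝ) : 0 ≤ GS ψ t s := by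
  rcases eq_or_ne t s with rfl | hts
  · rw [GS_self]
  · rw [GS_eq]
    have h1 := Dm_pos ψ hts
    have h2 := h.diff_nonneg t s
    have : 1 ≤ Dp ψ t s / Dm ψ t s := by rw [one_le_div h1]; linarith
    have := Real.log_nonneg this
    positivity

/-- the singular majorant -/
noncomputable def rho (u : ℝ) : ℝ := (Real.cosh u - 1) ^ (-(1 / 8) : ℝ)

lemma rho_nonneg (u : ℝ) : 0 ≤ rho u := by
  unfold rho
  apply Real.rpow_nonneg
  linarith [Real.one_le_cosh u]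

lemma Prof.GS_le (h : Prof ψ) (t s : ℝ) : GS ψ t s ≤ 2 * rho (t - s) := by
  rcases eq_or_ne t s with rfl | hts
  · rw [GS_self]
    have := rho_nonneg (t - t)
    positivity
  · have h1 := Dm_pos ψ hts
    have h2 := h.diff_nonneg t s
    have h3 := h.diff_le t s
    have hc := cosh_sub_one_pos (sub_ne_zero.2 hts)
    have e1 : Dp ψ t s / Dm ψ t s = 1 + (Dp ψ t s - Dm ψ t s) / Dm ψ t s := by
      field_simp; ring
    have h4 : (Dp ψ t s - Dm ψ t s) / Dm ψ t s ≤ 2 / (Real.cosh (t - s) - 1) := by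
      have := Dm_ge ψ t s
      gcongr
    have h5 : Real.log (Dp ψ t s / Dm ψ t s) ≤ 8 * (2 / (Real.cosh (t - s) - 1)) ^ (1 / 8 : ℝ) := by
      rw [e1]
      refine (log_one_add_le (by positivity)).trans ?_
      gcongr
    have h6 : (2 / (Real.cosh (t - s) - 1)) ^ (1 / 8 : ℝ) = 2 ^ (1 / 8 : ℝ) * rho (t - s) := by
      rw [Real.div_rpow (by norm_num) hc.le, rho, Real.rpow_neg hc.le]
      rfl
    have h7 : (2 : ℝ) ^ (1 / 8 : ℝ) ≤ 2 := by
      calc (2 : ℝ) ^ (1 / 8 : ℝ) ≤ 2 ^ (1 : ℝ) :=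
            Real.rpow_le_rpow_of_exponent_le (by norm_num) (by norm_num)
        _ = 2 := by norm_num
    rw [GS_eq]
    have hpi : 3 < Real.pi := Real.pi_gt_three
    have h8 : 1 / (4 * Real.pi) ≤ 1 / 12 := by
      apply one_div_le_one_div_of_le <;> linarith
    have hr := rho_nonneg (t - s)
    have hlog : 0 ≤ Real.log (Dp ψ t s / Dm ψ t s) := by
      apply Real.log_nonneg
      rw [one_le_div h1]; linarith
    calc 1 / (4 * Real.pi) * Real.log (Dp ψ t s / Dm ψ t s)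
        ≤ 1 / 12 * (8 * (2 * rho (t - s))) := by
          rw [h6] at h5
          gcongr
          refine h5.trans ?_
          gcongr
      _ ≤ 2 * rho (t - s) := by linarith

lemma Prof.GS_le' (h : Prof ψ) {t s : ℝ} (hts : 1 ≤ |t - s|) : GS ψ t s ≤ 1 / Real.cosh (t - s) := by
  have hne : t ≠ s := by
    rintro rfl
    simp at hts
    linarith
  have h1 := Dm_pos ψ hne
  have h2 := h.diff_nonneg t s
  have h3 := h.diff_le t s
  have hc := cosh_third hts
  have hcp := Real.cosh_pos (t - s)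
  have e1 : Dp ψ t s / Dm ψ t s = 1 + (Dp ψ t s - Dm ψ t s) / Dm ψ t s := by
    field_simp; ring
  have h5 : Real.log (Dp ψ t s / Dm ψ t s) ≤ (Dp ψ t s - Dm ψ t s) / Dm ψ t s := by
    rw [e1]
    have := Real.log_le_sub_one_of_pos (x := 1 + (Dp ψ t s - Dm ψ t s) / Dm ψ t s) (by positivity)
    linarith
  have h6 : (Dp ψ t s - Dm ψ t s) / Dm ψ t s ≤ 2 / (Real.cosh (t - s) / 3) := by
    have := Dm_ge ψ t s
    have h7 : Real.cosh (t - s) / 3 ≤ Dm ψ t s := hc.trans this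
    gcongr
  rw [GS_eq]
  have hpi : 3 < Real.pi := Real.pi_gt_three
  have h8 : 1 / (4 * Real.pi) ≤ 1 / 12 := by
    apply one_div_le_one_div_of_le <;> linarith
  have hlog : 0 ≤ Real.log (Dp ψ t s / Dm ψ t s) := by
    apply Real.log_nonneg
    rw [one_le_div h1]; linarith
  calc 1 / (4 * Real.pi) * Real.log (Dp ψ t s / Dm ψ t s)
      ≤ 1 / 12 * (2 / (Real.cosh (t - s) / 3)) := by gcongr; exact h5.trans h6
    _ = 1 / 2 * (1 / Real.cosh (t - s)) := by field_simp; norm_num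
    _ ≤ 1 / Real.cosh (t - s) := by
        have : 0 < 1 / Real.cosh (t - s) := by positivity
        linarith

end ker

end Pool.Agent.TH268.NP
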