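import Pool.Agent.TH268.NP.Bd

set_option autoImplicit false

/-! # Bounds for the kernels, continued -/

open MeasureTheory Set Filter Topology
open scoped ENNReal NNReal RealInnerProductSpace

namespace Pool.Agent.TH268.NP

section ker
variable {ψ : ℝ → ℝ}

/-- quadratic bound of the singular numerator -/
lemma Prof.num_le (h : Prof ψ) : ∃ C : ℝ, 0 ≤ C ∧ ∀ t s : ℝ, |t - s| ≤ 1 →
    |Real.sin (ψ t - ψ s) - deriv ψ s * Real.sinh (t - s)| ≤ C * (t - s) ^ 2 := by
  obtain ⟨M, hM0, hM⟩ := h.deriv_bdd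
  obtain ⟨M2, hM20, hM2⟩ := h.dderiv_bdd
  refine ⟨M ^ 2 + M2 + M * 2, by positivity, fun t s hts => ?_⟩
  have hd : ∀ x, HasDerivAt ψ (deriv ψ x) x := fun x => (h.diff x).hasDerivAt
  have hd2 : ∀ x, HasDerivAt (deriv ψ) (deriv (deriv ψ) x) x := fun x =>
    ((h.contDeriv.differentiable (by simp)) x).hasDerivAt
  have e1 : ∀ x, HasDerivAt (fun x => Real.sin (ψ x - ψ s) - deriv ψ s * Real.sinh (x - s))
      (Real.cos (ψ x - ψ s) * deriv ψ x - deriv ψ s * Real.cosh (x - s)) x := by
    intro x
    have a1 := ((hd x).sub_const (ψ s)).sin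
    have a2 := (((hasDerivAt_id x).sub_const s).sinh).const_mul (deriv ψ s)
    exact (a1.sub a2).congr_deriv (by simp)
  have e2 : ∀ x, HasDerivAt (fun x => Real.cos (ψ x - ψ s) * deriv ψ x - deriv ψ s * Real.cosh (x - s))
      (-Real.sin (ψ x - ψ s) * deriv ψ x * deriv ψ x + Real.cos (ψ x - ψ s) * deriv (deriv ψ) x
        - deriv ψ s * Real.sinh (x - s)) x := by
    intro x
    have a1 := (((hd x).sub_const (ψ s)).cos).mul (hd2 x)
    have a2 := (((hasDerivAt_id x).sub_const s).cosh).const_mul (deriv ψ s)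
    exact (a1.sub a2).congr_deriv (by simp)
  refine second_order e1 e2 (by simp) (by simp) ?_ t hts
  intro x hx
  have hsinh : |Real.sinh (x - s)| ≤ 2 := (abs_sinh_le_cosh _).trans (cosh_le_two hx)
  have b1 : |-Real.sin (ψ x - ψ s) * deriv ψ x * deriv ψ x| ≤ M ^ 2 := by
    rw [abs_mul, abs_mul, abs_neg]
    have := Real.abs_sin_le_one (ψ x - ψ s)
    have := hM x
    calc |Real.sin (ψ x - ψ s)| * |deriv ψ x| * |deriv ψ x| ≤ 1 * M * M := by gcongr
      _ = M ^ 2 := by ring
  have b2 : |Real.cos (ψ x - ψ s) * deriv (deriv ψ) x| ≤ M2 := by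
    rw [abs_mul]
    have := Real.abs_cos_le_one (ψ x - ψ s)
    have := hM2 x
    calc |Real.cos (ψ x - ψ s)| * |deriv (deriv ψ) x| ≤ 1 * M2 := by gcongr
      _ = M2 := one_mul _
  have b3 : |deriv ψ s * Real.sinh (x - s)| ≤ M * 2 := by
    rw [abs_mul]
    have := hM s
    gcongr
  calc _ ≤ |-Real.sin (ψ x - ψ s) * deriv ψ x * deriv ψ x + Real.cos (ψ x - ψ s) * deriv (deriv ψ) x|
        + |deriv ψ s * Real.sinh (x - s)| := abs_sub _ _
    _ ≤ |-Real.sin (ψ x - ψ s) * deriv ψ x * deriv ψ x| + |Real.cos (ψ x - ψ s) * deriv (deriv ψ) x|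
        + |deriv ψ s * Real.sinh (x - s)| := by gcongr; exact abs_add_le _ _
    _ ≤ M ^ 2 + M2 + M * 2 := by gcongr

/-- the double layer kernel is bounded by a multiple of `1 / cosh (t - s)` -/
lemma Prof.kk_le (h : Prof ψ) : ∃ C : ℝ, 0 ≤ C ∧ ∀ t s : ℝ, |kk ψ t s| ≤ C / Real.cosh (t - s) := by
  obtain ⟨M, hM0, hM⟩ := h.deriv_bdd
  obtain ⟨C1, hC0, hC1⟩ := h.num_le
  refine ⟨4 + 6 * M + 2 * (1 + M + 2 * C1), by positivity, fun t s => ?_⟩
  have hpi : 3 < Real.pi := Real.pi_gt_three
  have h8 : 1 / (4 * Real.pi) ≤ 1 := by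
    rw [div_le_one (by positivity)]
    linarith
  have hcp := Real.cosh_pos (t - s)
  have hDp := h.Dp_ge t s
  have hDpp := h.Dp_pos t s
  have key : |(Real.sin (ψ t + ψ s) + deriv ψ s * Real.sinh (t - s)) / Dp ψ t s +
      (Real.sin (ψ t - ψ s) - deriv ψ s * Real.sinh (t - s)) / Dm ψ t s| ≤
      (4 + 6 * M + 2 * (1 + M + 2 * C1)) / Real.cosh (t - s) := by
    rcases le_total |t - s| 1 with hu | hu
    · have b1 : |(Real.sin (ψ t + ψ s) + deriv ψ s * Real.sinh (t - s)) / Dp ψ t s| ≤ 1 + M := by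
        rw [abs_div, abs_of_pos hDpp, div_le_iff₀ hDpp]
        calc |Real.sin (ψ t + ψ s) + deriv ψ s * Real.sinh (t - s)|
            ≤ |Real.sin (ψ t + ψ s)| + |deriv ψ s * Real.sinh (t - s)| := abs_add_le _ _
          _ ≤ 1 + M * Real.cosh (t - s) := by
              rw [abs_mul]
              gcongr
              · exact Real.abs_sin_le_one _
              · exact hM s
              · exact abs_sinh_le_cosh _
          _ ≤ (1 + M) * Real.cosh (t - s) := by
              have := Real.one_le_cosh (t - s)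
              nlinarith
          _ ≤ (1 + M) * Dp ψ t s := by gcongr
      have b2 : |(Real.sin (ψ t - ψ s) - deriv ψ s * Real.sinh (t - s)) / Dm ψ t s| ≤ 2 * C1 := by
        rcases eq_or_ne t s with rfl | hne
        · rw [Dm_self]; simp; positivity
        · have hd := Dm_pos ψ hne
          rw [abs_div, abs_of_pos hd, div_le_iff₀ hd]
          refine (hC1 t s hu).trans ?_
          have := (cosh_sub_one_ge (t - s)).trans (Dm_ge ψ t s)
          nlinarith
      have b3 : Real.cosh (t - s) ≤ 2 := cosh_le_two hu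
      calc _ ≤ (1 + M) + 2 * C1 := (abs_add_le _ _).trans (add_le_add b1 b2)
        _ ≤ (2 * (1 + M + 2 * C1)) / Real.cosh (t - s) := by
            rw [le_div_iff₀ hcp]
            nlinarith
        _ ≤ _ := by
            refine div_le_div_of_nonneg_right ?_ hcp.le
            linarith
    · have hne : t ≠ s := by
        rintro rfl
        simp at hu
        linarith
      have hd := Dm_pos ψ hne
      have hDm : Real.cosh (t - s) / 3 ≤ Dm ψ t s := (cosh_third hu).trans (Dm_ge ψ t s)
      have e1 : (Real.sin (ψ t + ψ s) + deriv ψ s * Real.sinh (t - s)) / Dp ψ t s +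
          (Real.sin (ψ t - ψ s) - deriv ψ s * Real.sinh (t - s)) / Dm ψ t s =
          Real.sin (ψ t + ψ s) / Dp ψ t s + Real.sin (ψ t - ψ s) / Dm ψ t s -
          deriv ψ s * Real.sinh (t - s) * (Dp ψ t s - Dm ψ t s) / (Dp ψ t s * Dm ψ t s) := by
        field_simp
        ring
      rw [e1]
      have b1 : |Real.sin (ψ t + ψ s) / Dp ψ t s| ≤ 1 / Real.cosh (t - s) := by
        rw [abs_div, abs_of_pos hDpp]
        have := Real.abs_sin_le_one (ψ t + ψ s)
        gcongr
      have b2 : |Real.sin (ψ t - ψ s) / Dm ψ t s| ≤ 3 / Real.cosh (t - s) := by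
        rw [abs_div, abs_of_pos hd]
        have := Real.abs_sin_le_one (ψ t - ψ s)
        calc |Real.sin (ψ t - ψ s)| / Dm ψ t s ≤ 1 / (Real.cosh (t - s) / 3) := by gcongr
          _ = 3 / Real.cosh (t - s) := by field_simp
      have b3 : |deriv ψ s * Real.sinh (t - s) * (Dp ψ t s - Dm ψ t s) / (Dp ψ t s * Dm ψ t s)| ≤
          6 * M / Real.cosh (t - s) := by
        rw [abs_div, abs_mul, abs_mul, abs_of_pos (mul_pos hDpp hd),
          abs_of_nonneg (h.diff_nonneg t s)]
        have := hM s
        have := abs_sinh_le_cosh (t - s)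
        have := h.diff_le t s
        have := h.diff_nonneg t s
        calc |deriv ψ s| * |Real.sinh (t - s)| * (Dp ψ t s - Dm ψ t s) / (Dp ψ t s * Dm ψ t s)
            ≤ M * Real.cosh (t - s) * 2 / (Real.cosh (t - s) * (Real.cosh (t - s) / 3)) := by
              gcongr
          _ = 6 * M / Real.cosh (t - s) := by field_simp; ring
      calc _ ≤ |Real.sin (ψ t + ψ s) / Dp ψ t s + Real.sin (ψ t - ψ s) / Dm ψ t s| +
            |deriv ψ s * Real.sinh (t - s) * (Dp ψ t s - Dm ψ t s) / (Dp ψ t s * Dm ψ t s)| :=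
            abs_sub _ _
        _ ≤ |Real.sin (ψ t + ψ s) / Dp ψ t s| + |Real.sin (ψ t - ψ s) / Dm ψ t s| +
            |deriv ψ s * Real.sinh (t - s) * (Dp ψ t s - Dm ψ t s) / (Dp ψ t s * Dm ψ t s)| := by
            gcongr; exact abs_add_le _ _
        _ ≤ 1 / Real.cosh (t - s) + 3 / Real.cosh (t - s) + 6 * M / Real.cosh (t - s) := by gcongr
        _ = (4 + 6 * M) / Real.cosh (t - s) := by ring
        _ ≤ _ := by
            refine div_le_div_of_nonneg_right ?_ hcp.le
            linarith
  rw [kk_eq, abs_mul, abs_neg, abs_of_pos (by positivity : 0 < 1 / (4 * Real.pi))]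
  calc 1 / (4 * Real.pi) * _ ≤ 1 * _ := by
        gcongr
    _ ≤ _ := by rw [one_mul]; exact key

/-! ### measurability -/

lemma Prof.meas (h : Prof ψ) : Measurable ψ := h.cont.measurable

lemma Prof.GS_meas (h : Prof ψ) : Measurable (Function.uncurry (GS ψ)) := by
  have := h.meas
  unfold Function.uncurry GS G
  fun_prop

lemma Prof.kk_meas (h : Prof ψ) : Measurable (Function.uncurry (kk ψ)) := by
  have := h.meas
  have := h.dcont.measurable
  unfold Function.uncurry kk
  fun_prop

/-! ### integrability of the majorants -/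

lemma cosh_ge_exp (u : ℝ) : Real.exp |u| / 2 ≤ Real.cosh u := by
  rw [← Real.cosh_abs, Real.cosh_eq]
  have := Real.exp_pos (-|u|)
  linarith

lemma integrable_exp_abs {a : ℝ} (ha : 0 < a) : Integrable (fun u : ℝ => Real.exp (-(a * |u|))) := by
  have h1 : IntegrableOn (fun u : ℝ => Real.exp (-(a * |u|))) (Ioi 0) := by
    refine (integrableOn_exp_mul_Ioi (a := -a) (by linarith) 0).congr_fun ?_ measurableSet_Ioi
    intro u hu
    simp only [abs_of_pos (mem_Ioi.1 hu)]
    congr 1; ring
  have h2 : IntegrableOn (fun u : ℝ => Real.exp (-(a * |u|))) (Iic 0) := by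
    refine (integrableOn_exp_mul_Iic (a := a) ha 0).congr_fun ?_ measurableSet_Iic
    intro u hu
    simp only [abs_of_nonpos (mem_Iic.1 hu)]
    congr 1; ring
  have := h2.union h1
  rwa [Iic_union_Ioi, integrableOn_univ] at this

lemma integrable_inv_cosh : Integrable (fun u : ℝ => 1 / Real.cosh u) := by
  refine ((integrable_exp_abs (a := 1) one_pos).const_mul 2).mono' ?_ ?_
  · exact (Real.continuous_cosh.measurable.const_div 1).aestronglyMeasurable
  · refine Eventually.of_forall fun u => ?_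
    have hp := Real.cosh_pos u
    rw [Real.norm_eq_abs, abs_of_pos (by positivity), div_le_iff₀ hp]
    have := cosh_ge_exp u
    calc (1 : ℝ) = 2 * Real.exp (-(1 * |u|)) * (Real.exp |u| / 2) := by
          rw [one_mul, Real.exp_neg]; field_simp
      _ ≤ 2 * Real.exp (-(1 * |u|)) * Real.cosh u := by gcongr

lemma rho_meas : Measurable rho := by
  unfold rho
  have := Real.continuous_cosh.measurable
  fun_prop

lemma cosh_ge_six {u : ℝ} (hu : 1 ≤ |u|) : Real.exp |u| / 6 ≤ Real.cosh u - 1 := by
  have := cosh_third hu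
  have := cosh_ge_exp u
  linarith

lemma integrable_rpow_neg {b : ℝ} (hb0 : 0 < b) (hb : b < 1 / 2) :
    Integrable (fun u : ℝ => (Real.cosh u - 1) ^ (-b)) := by
  have hmeas : Measurable (fun u : ℝ => (Real.cosh u - 1) ^ (-b)) := by
    have := Real.continuous_cosh.measurable
    fun_prop
  have hI : IntegrableOn (fun u : ℝ => |u| ^ (-(2 * b))) (Icc (-1) 1) := by
    have h1 : IntervalIntegrable (fun u : ℝ => u ^ (-(2 * b))) volume 0 1 :=
      intervalIntegral.intervalIntegrable_rpow' (by linarith)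
    have h3 : IntegrableOn (fun u : ℝ => |u| ^ (-(2 * b))) (Ioc 0 1) := by
      rw [intervalIntegrable_iff_integrableOn_Ioc_of_le zero_le_one] at h1
      refine h1.congr_fun ?_ measurableSet_Ioc
      intro u hu
      simp only [abs_of_pos hu.1]
    have h4 : IntegrableOn (fun u : ℝ => |u| ^ (-(2 * b))) (Ico (-1) 0) := by
      have h5 := h3.comp_neg
      simp only [abs_neg] at h5
      refine h5.mono_set ?_
      intro u hu
      rw [Set.mem_neg]
      exact ⟨by linarith [hu.2], by linarith [hu.1]⟩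
    have h6 : IntegrableOn (fun u : ℝ => |u| ^ (-(2 * b))) {0} := by
      exact integrableOn_singleton (hx := by simp)
    have h7 := (h4.union h6).union h3
    refine h7.mono_set ?_
    intro u hu
    rcases lt_trichotomy u 0 with h | h | h
    · exact Or.inl (Or.inl ⟨hu.1, h⟩)
    · exact Or.inl (Or.inr h)
    · exact Or.inr ⟨h, hu.2⟩
  have h1 : IntegrableOn (fun u : ℝ => (Real.cosh u - 1) ^ (-b)) (Icc (-1) 1) := by
    refine (hI.const_mul (2 ^ b)).mono' hmeas.aestronglyMeasurable ?_
    refine (ae_restrict_iff' measurableSet_Icc).2 (Eventually.of_forall fun u _ => ?_)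
    have hc := Real.one_le_cosh u
    rw [Real.norm_eq_abs, abs_of_nonneg (Real.rpow_nonneg (by linarith) _)]
    rcases eq_or_ne u 0 with rfl | hu
    · simp [Real.zero_rpow (by linarith : (-b) ≠ 0), Real.zero_rpow (by linarith : -(2 * b) ≠ 0)]
    · have hu2 : 0 < u ^ 2 / 2 := by positivity
      calc (Real.cosh u - 1) ^ (-b) ≤ (u ^ 2 / 2) ^ (-b) :=
            Real.rpow_le_rpow_of_nonpos hu2 (cosh_sub_one_ge u) (by linarith)
        _ = 2 ^ b * |u| ^ (-(2 * b)) := by
            rw [Real.div_rpow (by positivity) (by norm_num), Real.rpow_neg (by norm_num : (0:ℝ) ≤ 2),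
              div_inv_eq_mul, mul_comm]
            congr 1
            rw [← sq_abs, ← Real.rpow_natCast, ← Real.rpow_mul (abs_nonneg u)]
            congr 1
            push_cast
            ring
  have h2 : IntegrableOn (fun u : ℝ => (Real.cosh u - 1) ^ (-b)) (Icc (-1) 1)ᶜ := by
    refine (((integrable_exp_abs hb0).const_mul (6 ^ b)).integrableOn).mono'
      hmeas.aestronglyMeasurable ?_
    refine (ae_restrict_iff' measurableSet_Icc.compl).2 (Eventually.of_forall fun u hu => ?_)
    have hu1 : 1 ≤ |u| := by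
      by_contra hcon
      push Not at hcon
      exact hu ⟨(abs_lt.1 hcon).1.le, (abs_lt.1 hcon).2.le⟩
    have hc := Real.one_le_cosh u
    rw [Real.norm_eq_abs, abs_of_nonneg (Real.rpow_nonneg (by linarith) _)]
    calc (Real.cosh u - 1) ^ (-b) ≤ (Real.exp |u| / 6) ^ (-b) :=
          Real.rpow_le_rpow_of_nonpos (by positivity) (cosh_ge_six hu1) (by linarith)
      _ = 6 ^ b * Real.exp (-(b * |u|)) := by
          rw [Real.div_rpow (by positivity) (by norm_num), Real.rpow_neg (by norm_num : (0:ℝ) ≤ 6),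
            div_inv_eq_mul, mul_comm, ← Real.exp_mul]
          congr 2
          ring
  have := h1.union h2
  rwa [union_compl_self, integrableOn_univ] at this

lemma integrable_rho : Integrable rho := integrable_rpow_neg (by norm_num) (by norm_num)

lemma integrable_rho_sq : Integrable (fun u => rho u ^ 2) := by
  have h1 := integrable_rpow_neg (b := 1 / 4) (by norm_num) (by norm_num)
  refine h1.congr (Eventually.of_forall fun u => ?_)
  simp only [rho]
  have : 0 ≤ Real.cosh u - 1 := by linarith [Real.one_le_cosh u]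
  rw [← Real.rpow_natCast, ← Real.rpow_mul this]
  norm_num

end ker

end Pool.Agent.TH268.NP
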