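import Pool.Agent.TH268.NP.Ker

set_option autoImplicit false

/-!
# Hilbert-Schmidt integral operators on `L²(μ)` are compact

The bilinear map is adapted from Helper41/CE/CE03 of the starting files.
-/

open MeasureTheory Set Filter Topology
open scoped ENNReal NNReal

namespace Pool.Agent.TH268.NP.Ker

variable {α : Type*} [MeasurableSpace α]

/-- the bilinear map `(κ, g) ↦ ⟨g, κ(·)⟩` -/
noncomputable def kcPhi (m : Measure α) :
    Lp (Lp ℝ 2 m) 2 m →L[ℝ] Lp ℝ 2 m →L[ℝ] Lp ℝ 2 m :=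
  ((innerSL ℝ : Lp ℝ 2 m →L[ℝ] Lp ℝ 2 m →L[ℝ] ℝ).compLpL₂ 2 m).flip

theorem kcPhi_apply (m : Measure α) (κ : Lp (Lp ℝ 2 m) 2 m) (g : Lp ℝ 2 m) :
    kcPhi m κ g = (innerSL ℝ g).compLp κ := rfl

theorem kcPhi_compact (m : Measure α) (κ : Lp (Lp ℝ 2 m) 2 m) :
    IsCompactOperator (kcPhi m κ) := by
  refine Lp.induction (by norm_num : (2:ℝ≥0∞) ≠ (⊤:ℝ≥0∞))
    (motive := fun κ => IsCompactOperator (kcPhi m κ)) ?_ ?_ ?_ κ
  · intro c s hs hμs
    have h1 : kcPhi m (Lp.simpleFunc.indicatorConst 2 hs hμs.ne c)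
        = (ContinuousLinearMap.toSpanSingleton ℝ (indicatorConstLp 2 hs hμs.ne (1:ℝ))) ∘L
          (innerSL ℝ c) := by
      ext1 g
      rw [kcPhi_apply]
      ext1
      have h2 := (innerSL ℝ g).coeFn_compLp'
        (Lp.simpleFunc.indicatorConst 2 hs hμs.ne c : Lp (Lp ℝ 2 m) 2 m)
      rw [Lp.simpleFunc.coe_indicatorConst] at h2
      have h3 : (indicatorConstLp 2 hs hμs.ne c : Lp (Lp ℝ 2 m) 2 m) =ᵐ[m]
        s.indicator fun _ => c := indicatorConstLp_coeFn
      have h4 : (indicatorConstLp 2 hs hμs.ne (1:ℝ) : Lp ℝ 2 m) =ᵐ[m]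
        s.indicator fun _ => (1:ℝ) := indicatorConstLp_coeFn
      have h5 := Lp.coeFn_smul (inner ℝ c g) (indicatorConstLp 2 hs hμs.ne (1:ℝ) : Lp ℝ 2 m)
      rw [Lp.simpleFunc.coe_indicatorConst]
      filter_upwards [h2, h3, h4, h5] with x a2 a3 a4 a5
      rw [a2, a3]
      show _ = (((inner ℝ c g) • (indicatorConstLp 2 hs hμs.ne (1:ℝ) : Lp ℝ 2 m) : Lp ℝ 2 m)) x
      rw [a5, Pi.smul_apply, a4]
      by_cases hx : x ∈ s
      · rw [Set.indicator_of_mem hx, Set.indicator_of_mem hx, smul_eq_mul, mul_one]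
        exact real_inner_comm (F := Lp ℝ 2 m) c g
      · rw [Set.indicator_of_notMem hx, Set.indicator_of_notMem hx, map_zero, smul_zero]
    rw [h1]
    exact (isCompactOperator_of_locallyCompactSpace_dom (innerSL ℝ c)).clm_comp
      (ContinuousLinearMap.toSpanSingleton ℝ (indicatorConstLp 2 hs hμs.ne (1:ℝ) : Lp ℝ 2 m))
  · intro f g hf hg _ h1 h2
    rw [map_add]
    exact h1.add h2
  · exact isClosed_setOfPred_isCompactOperator.preimage (kcPhi m).continuous

/-- an integral operator whose kernel is a square integrable family of rows is compact -/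
theorem compact_of_rows (m : Measure α) (k : α → α → ℝ) (κ : α → Lp ℝ 2 m)
    (hκ : ∀ x, κ x =ᵐ[m] k x) (hκm : MemLp κ 2 m) (T : Lp ℝ 2 m →L[ℝ] Lp ℝ 2 m)
    (hT : Rep m k T) : IsCompactOperator T := by
  have hTΦ : T = kcPhi m (hκm.toLp κ) := by
    ext1 g
    ext1
    rw [kcPhi_apply]
    filter_upwards [hT g, (innerSL ℝ g).coeFn_compLp' (hκm.toLp κ), hκm.coeFn_toLp] with x h1 h2 h3
    rw [h1, h2, h3]
    show ∫ y, k x y * g y ∂m = inner ℝ g (κ x)
    rw [L2.inner_def]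
    apply integral_congr_ae
    filter_upwards [hκ x] with y hy
    rw [hy]
    simp
  rw [hTΦ]
  exact kcPhi_compact m _

/-- continuity of the rows in `L²` from dominated almost everywhere convergence (kernels on `ℝ`) -/
theorem rows_continuous (k : ℝ → ℝ → ℝ) (hm : ∀ x, AEStronglyMeasurable (k x) volume)
    (hk : ∀ x, MemLp (k x) 2 volume) (D : ℝ → ℝ → ℝ)
    (hD : ∀ x, MemLp (D x) 2 volume)
    (hb : ∀ x, ∀ᶠ z in 𝓝 x, ∀ᵐ y, |k z y| ≤ D x y)
    (hc : ∀ x, ∀ᵐ y, ContinuousAt (fun z => k z y) x) :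
    Continuous (fun x => (hk x).toLp (k x)) := by
  rw [continuous_iff_continuousAt]
  intro x
  show Tendsto (fun x => (hk x).toLp (k x)) (𝓝 x) (𝓝 ((hk x).toLp (k x)))
  rw [Lp.tendsto_Lp_iff_tendsto_eLpNorm'']
  have h1 : ∀ z, eLpNorm (k z - k x) 2 volume
      = (∫⁻ y, ‖(k z - k x) y‖ₑ ^ (2:ℝ)) ^ (1 / (2:ℝ)) := by
    intro z
    rw [eLpNorm_eq_lintegral_rpow_enorm_toReal (by norm_num) (by norm_num)]
    norm_num
  simp only [h1]
  have h2 : Tendsto (fun z => ∫⁻ y, ‖(k z - k x) y‖ₑ ^ (2:ℝ)) (𝓝 x)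
      (𝓝 (∫⁻ _y : ℝ, (0:ℝ≥0∞))) := by
    refine tendsto_lintegral_filter_of_dominated_convergence'
      (fun y => ‖2 * D x y‖ₑ ^ (2:ℝ)) ?_ ?_ ?_ ?_
    · refine Eventually.of_forall fun z => ?_
      exact ((hm z).sub (hm x)).enorm.pow_const _
    · filter_upwards [hb x] with z hz
      have hx : ∀ᵐ y, |k x y| ≤ D x y := (hb x).self_of_nhds
      filter_upwards [hz, hx] with y a1 a2
      apply ENNReal.rpow_le_rpow _ (by norm_num)
      rw [← ofReal_norm_eq_enorm, ← ofReal_norm_eq_enorm]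
      apply ENNReal.ofReal_le_ofReal
      calc ‖(k z - k x) y‖ = |k z y - k x y| := rfl
        _ ≤ |k z y| + |k x y| := abs_sub _ _
        _ ≤ 2 * D x y := by linarith
        _ ≤ ‖2 * D x y‖ := Real.le_norm_self _
    · have h3 : MemLp (fun y => 2 * D x y) 2 volume := (hD x).const_mul 2
      have h4 := h3.eLpNorm_lt_top
      rw [eLpNorm_eq_lintegral_rpow_enorm_toReal (by norm_num) (by norm_num)] at h4
      intro hcon
      simp only [ENNReal.toReal_ofNat] at h4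
      rw [hcon] at h4
      norm_num at h4
    · filter_upwards [hc x] with y hy
      have h3 : Tendsto (fun z => k z y - k x y) (𝓝 x) (𝓝 0) := by
        have := hy.tendsto.sub_const (k x y)
        simpa using this
      have h4 : Tendsto (fun z => ‖k z y - k x y‖ₑ ^ (2:ℝ)) (𝓝 x) (𝓝 (‖(0:ℝ)‖ₑ ^ (2:ℝ))) :=
        ((ENNReal.continuous_rpow_const.tendsto _).comp ((continuous_enorm.tendsto _).comp h3))
      simpa using h4
  rw [lintegral_zero] at h2
  have h5 := (ENNReal.continuous_rpow_const (y := 1 / (2:ℝ))).tendsto (0:ℝ≥0∞) |>.comp h2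
  rw [ENNReal.zero_rpow_of_pos (by norm_num)] at h5
  simp only [Function.comp_def] at h5
  exact h5

end Pool.Agent.TH268.NP.Ker
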