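import Mathlib

set_option autoImplicit false

/-!
# NP project (helper268): eigenvalues of the Neumann-Poincare operator of a curve with two corners

Definitions in the strip `0 < θ < π` (bipolar coordinates).  The curve is the graph `θ = ψ t`.
-/

open MeasureTheory Set Filter Topology
open scoped ENNReal NNReal RealInnerProductSpace

namespace Pool.Agent.TH268.NP

/-- the profile: `ψ = π/2` in the middle, `ψ = π/4` near both ends -/
structure Prof (ψ : ℝ → ℝ) : Prop where
  smooth : ContDiff ℝ ((⊤ : ℕ∞) : WithTop ℕ∞) ψ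
  lo : ∀ t, Real.pi / 4 ≤ ψ t
  hi : ∀ t, ψ t ≤ Real.pi / 2
  mid : ∀ t, |t| ≤ 1 → ψ t = Real.pi / 2
  far : ∀ t, 2 ≤ |t| → ψ t = Real.pi / 4

/-- the Green function of the strip at the points `(t, θ)` and `(s, φ)` -/
noncomputable def G (t θ s φ : ℝ) : ℝ :=
  1 / (4 * Real.pi) * Real.log ((Real.cosh (t - s) - Real.cos (θ + φ)) /
    (Real.cosh (t - s) - Real.cos (θ - φ)))

/-- the kernel of the single layer operator -/
noncomputable def GS (ψ : ℝ → ℝ) (t s : ℝ) : ℝ := G t (ψ t) s (ψ s)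

/-- the kernel of the double layer operator: `K F t = ∫ kk t s * F s ds`; for `t ≠ s` it is
`-(∂_φ G - ψ' s ∂_s G) (t, ψ t, s, ψ s)` -/
noncomputable def kk (ψ : ℝ → ℝ) (t s : ℝ) : ℝ :=
  -(1 / (4 * Real.pi)) *
    ((Real.sin (ψ t + ψ s) + deriv ψ s * Real.sinh (t - s)) /
        (Real.cosh (t - s) - Real.cos (ψ t + ψ s)) +
      (Real.sin (ψ t - ψ s) - deriv ψ s * Real.sinh (t - s)) /
        (Real.cosh (t - s) - Real.cos (ψ t - ψ s)))

/-- the test densities -/
noncomputable def fp (p : Polynomial ℝ) (t : ℝ) : ℝ :=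
  if |t| ≤ 1 / 2 then Real.exp t * p.eval (Real.exp (2 * t)) else 0

end Pool.Agent.TH268.NP
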