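import Pool.Agent.TH268.NP.Geo8
import Pool.Agent.TH304.J47
import Pool.Agent.TH304.J48
import Pool.Agent.TH304.J51

set_option autoImplicit false

/-!
# The final theorem, given the two kernel facts
-/

open MeasureTheory Set Filter Topology
open scoped ENNReal NNReal ContDiff

namespace Pool.Agent.TH268.NP

theorem absThm : AbsThm := by
  intro H _ _ _ S B N C hS hp hB hdec hN hC W _ _ hW L hL
  exact npabs S B N C hS hp hB hdec hN hC hW L hL

theorem final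
    (hplem : ∀ ψ : ℝ → ℝ, Prof ψ → ∀ t r : ℝ, t ≠ r →
      ∫ s, GS ψ t s * kk ψ r s = ∫ s, GS ψ r s * kk ψ t s)
    (hpos : ∀ ψ : ℝ → ℝ, Prof ψ → ∀ p : Polynomial ℝ, p ≠ 0 →
      0 < ∫ s, (∫ t, kk ψ t s * fp p t) * ∫ r, GS ψ s r * fp p r) :
    ∃ Γ : NPDefs.CurvPolygon, Γ.n = 2 ∧ (∀ i, ContDiffOn ℝ ∞ (Γ.arc i) (Icc 0 1)) ∧
      (∀ i, Γ.interiorAngle i = Real.pi / 2) ∧
      {lam : ℝ | 0 < lam ∧ (lam : ℂ) ∈ Γ.eigenvalues}.Infinite := by
  refine ⟨Gam, rfl, fun i => (arcs_smooth i).contDiffOn, Gam_angle, ?_⟩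
  have h1 := strip_infinite absThm prof0 (fun f hf h0 => nppd psi0 prof0 f hf h0)
    (hplem psi0 prof0) (hpos psi0 prof0)
  refine h1.mono ?_
  intro lam hlam
  exact ⟨hlam.1, eig_of_strip hlam (fun f hf => nph12 psi0 prof0 f hf)⟩

end Pool.Agent.TH268.NP
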