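import Pool.Agent.TH268.NP.Bd2

set_option autoImplicit false

/-!
# The curve in the plane, bipolar coordinates
-/

open MeasureTheory Set Filter Topology
open scoped ENNReal NNReal ComplexConjugate

namespace Pool.Agent.TH268.NP

/-- half of the complex bipolar coordinate -/
noncomputable def om (ψ : ℝ → ℝ) (t : ℝ) : ℂ := ((t / 2 : ℝ) : ℂ) + ((ψ t / 2 : ℝ) : ℂ) * Complex.I

/-- the point of the upper arc -/
noncomputable def zt (ψ : ℝ → ℝ) (t : ℝ) : ℂ := Complex.sinh (om ψ t) / Complex.cosh (om ψ t)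

/-- the derivative of `zt` -/
noncomputable def zd (ψ : ℝ → ℝ) (t : ℝ) : ℂ :=
  (1 + ((deriv ψ t : ℝ) : ℂ) * Complex.I) / (2 * Complex.cosh (om ψ t) ^ 2)

section gen

lemma cosh_re_im (x y : ℝ) : Complex.cosh ((x : ℂ) + (y : ℂ) * Complex.I) =
    ((Real.cosh x * Real.cos y : ℝ) : ℂ) + ((Real.sinh x * Real.sin y : ℝ) : ℂ) * Complex.I := by
  rw [Complex.cosh_add, Complex.cosh_mul_I, Complex.sinh_mul_I]
  push_cast
  ring

lemma sinh_re_im (x y : ℝ) : Complex.sinh ((x : ℂ) + (y : ℂ) * Complex.I) =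
    ((Real.sinh x * Real.cos y : ℝ) : ℂ) + ((Real.cosh x * Real.sin y : ℝ) : ℂ) * Complex.I := by
  rw [Complex.sinh_add, Complex.cosh_mul_I, Complex.sinh_mul_I]
  push_cast
  ring

lemma normSq_cosh (x y : ℝ) : Complex.normSq (Complex.cosh ((x : ℂ) + (y : ℂ) * Complex.I)) =
    (Real.cosh (2 * x) + Real.cos (2 * y)) / 2 := by
  rw [cosh_re_im, Complex.normSq_add_mul_I, Real.cosh_two_mul, Real.cos_two_mul]
  have h1 := Real.cosh_sq x
  have h2 := Real.sin_sq y
  rw [mul_pow, mul_pow, h2]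
  nlinarith

lemma normSq_sinh (x y : ℝ) : Complex.normSq (Complex.sinh ((x : ℂ) + (y : ℂ) * Complex.I)) =
    (Real.cosh (2 * x) - Real.cos (2 * y)) / 2 := by
  rw [sinh_re_im, Complex.normSq_add_mul_I, Real.cosh_two_mul, Real.cos_two_mul]
  have h1 := Real.cosh_sq x
  have h2 := Real.sin_sq y
  rw [mul_pow, mul_pow, h2]
  nlinarith

lemma coth_aux (C S c s : ℝ) (h1 : C ^ 2 = S ^ 2 + 1) (h2 : s ^ 2 = 1 - c ^ 2) :
    (((C * c : ℝ) : ℂ) + ((S * s : ℝ) : ℂ) * Complex.I) * ((2 * (S ^ 2 + s ^ 2) : ℝ) : ℂ) =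
    (((S * c : ℝ) : ℂ) + ((C * s : ℝ) : ℂ) * Complex.I) *
      (((2 * S * C : ℝ) : ℂ) - ((2 * s * c : ℝ) : ℂ) * Complex.I) := by
  apply Complex.ext
  · simp only [Complex.mul_re, Complex.add_re, Complex.add_im, Complex.mul_im, Complex.ofReal_re,
      Complex.ofReal_im, Complex.I_re, Complex.I_im, Complex.sub_re, Complex.sub_im]
    ring
  · simp only [Complex.mul_re, Complex.add_re, Complex.add_im, Complex.mul_im, Complex.ofReal_re,
      Complex.ofReal_im, Complex.I_re, Complex.I_im, Complex.sub_re, Complex.sub_im]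
    linear_combination (-2 * S * s) * h1 + (2 * S * s) * h2

/-- the hyperbolic cotangent -/
lemma coth_eq (x y : ℝ) (h : Real.cosh (2 * x) - Real.cos (2 * y) ≠ 0) :
    Complex.cosh ((x : ℂ) + (y : ℂ) * Complex.I) / Complex.sinh ((x : ℂ) + (y : ℂ) * Complex.I) =
    (((Real.sinh (2 * x) : ℝ) : ℂ) - ((Real.sin (2 * y) : ℝ) : ℂ) * Complex.I) /
      ((Real.cosh (2 * x) - Real.cos (2 * y) : ℝ) : ℂ) := by
  have hs : Complex.sinh ((x : ℂ) + (y : ℂ) * Complex.I) ≠ 0 := by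
    intro hcon
    have := normSq_sinh x y
    rw [hcon, map_zero] at this
    apply h
    linarith
  have hD : ((Real.cosh (2 * x) - Real.cos (2 * y) : ℝ) : ℂ) ≠ 0 := by exact_mod_cast h
  rw [div_eq_div_iff hs hD]
  have h1 := Real.cosh_sq x
  have h2 := Real.sin_sq y
  have e1 : Real.cosh (2 * x) - Real.cos (2 * y) = 2 * (Real.sinh x ^ 2 + Real.sin y ^ 2) := by
    rw [Real.cosh_two_mul, Real.cos_two_mul]
    linear_combination h1 - 2 * h2
  rw [cosh_re_im, sinh_re_im, e1, Real.sinh_two_mul, Real.sin_two_mul,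
    coth_aux _ _ _ _ h1 h2]
  ring

end gen

section curve
variable {ψ : ℝ → ℝ}

lemma Prof.normSq_cosh_om (_h : Prof ψ) (t : ℝ) :
    Complex.normSq (Complex.cosh (om ψ t)) = (Real.cosh t + Real.cos (ψ t)) / 2 := by
  rw [om, normSq_cosh]
  congr 3 <;> ring

lemma Prof.cos_nonneg (h : Prof ψ) (t : ℝ) : 0 ≤ Real.cos (ψ t) := by
  have h1 := h.lo t
  have h2 := h.hi t
  have := Real.pi_pos
  exact Real.cos_nonneg_of_mem_Icc ⟨by linarith, by linarith⟩

lemma Prof.normSq_cosh_ge (h : Prof ψ) (t : ℝ) :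
    Real.cosh t / 2 ≤ Complex.normSq (Complex.cosh (om ψ t)) := by
  rw [h.normSq_cosh_om]
  have := h.cos_nonneg t
  linarith

lemma Prof.cosh_om_ne (h : Prof ψ) (t : ℝ) : Complex.cosh (om ψ t) ≠ 0 := by
  intro hcon
  have h1 := h.normSq_cosh_ge t
  rw [hcon, map_zero] at h1
  have := Real.cosh_pos t
  linarith

lemma om_hasDeriv {t : ℝ} (hd : HasDerivAt ψ (deriv ψ t) t) :
    HasDerivAt (om ψ) ((1 + ((deriv ψ t : ℝ) : ℂ) * Complex.I) / 2) t := by
  unfold om
  have h1 : HasDerivAt (fun t : ℝ => ((t / 2 : ℝ) : ℂ)) (((1 / 2 : ℝ) : ℂ)) t :=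
    ((hasDerivAt_id t).div_const 2).ofReal_comp
  have h2 : HasDerivAt (fun t : ℝ => ((ψ t / 2 : ℝ) : ℂ)) (((deriv ψ t / 2 : ℝ) : ℂ)) t :=
    (hd.div_const 2).ofReal_comp
  refine (h1.add (h2.mul_const Complex.I)).congr_deriv ?_
  push_cast
  ring

lemma Prof.zt_hasDeriv (h : Prof ψ) (t : ℝ) : HasDerivAt (zt ψ) (zd ψ t) t := by
  have ho := om_hasDeriv (h.diff t).hasDerivAt
  have hne := h.cosh_om_ne t
  have h1 := (Complex.hasDerivAt_sinh (om ψ t)).scomp t ho
  have h2 := (Complex.hasDerivAt_cosh (om ψ t)).scomp t ho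
  refine (h1.div h2 hne).congr_deriv ?_
  unfold zd
  have h3 := Complex.cosh_sq (om ψ t)
  simp only [Function.comp, smul_eq_mul]
  field_simp
  linear_combination (1 + ((deriv ψ t : ℝ) : ℂ) * Complex.I) * h3

/-- imaginary part -/
lemma Prof.zt_im (h : Prof ψ) (t : ℝ) : (zt ψ t).im = Real.sin (ψ t) / (Real.cosh t + Real.cos (ψ t)) := by
  have hn := h.normSq_cosh_om t
  have hc := Real.cosh_pos t
  have hc2 := h.cos_nonneg t
  unfold zt
  rw [Complex.div_im, hn, om, cosh_re_im, sinh_re_im]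
  simp only [Complex.add_re, Complex.add_im, Complex.mul_im, Complex.mul_re, Complex.ofReal_re,
      Complex.ofReal_im, Complex.I_re, Complex.I_im]
  have e : Real.sin (ψ t) = 2 * Real.sin (ψ t / 2) * Real.cos (ψ t / 2) := by
    rw [← Real.sin_two_mul]; congr 1; ring
  have h1 := Real.cosh_sq (t / 2)
  have : Real.cosh t + Real.cos (ψ t) ≠ 0 := by linarith
  rw [e]
  field_simp
  linear_combination (Real.sin (ψ t / 2) * Real.cos (ψ t / 2)) * h1

lemma Prof.zt_im_pos (h : Prof ψ) (t : ℝ) : 0 < (zt ψ t).im := by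
  rw [h.zt_im]
  have := h.sin_pos t
  have := h.cos_nonneg t
  have := Real.cosh_pos t
  positivity

/-- real part of the bipolar coordinate -/
lemma Prof.zt_log (h : Prof ψ) (t : ℝ) : Real.log ‖(1 + zt ψ t) / (1 - zt ψ t)‖ = t := by
  have hne := h.cosh_om_ne t
  have e1 : (1 + zt ψ t) / (1 - zt ψ t) = Complex.exp (2 * om ψ t) := by
    have a1 : 1 + zt ψ t = Complex.exp (om ψ t) / Complex.cosh (om ψ t) := by
      unfold zt
      rw [← Complex.cosh_add_sinh]
      field_simp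
    have a2 : 1 - zt ψ t = Complex.exp (-om ψ t) / Complex.cosh (om ψ t) := by
      unfold zt
      rw [← Complex.cosh_sub_sinh]
      field_simp
    rw [a1, a2, div_div_div_cancel_right₀ hne, Complex.exp_neg, div_inv_eq_mul, ← Complex.exp_add]
    congr 1
    ring
  rw [e1, Complex.norm_exp, Real.log_exp]
  unfold om
  simp only [Complex.mul_re, Complex.add_re, Complex.add_im, Complex.mul_im, Complex.ofReal_re,
      Complex.ofReal_im, Complex.I_re, Complex.I_im, Complex.re_ofNat, Complex.im_ofNat]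
  ring

lemma Prof.zt_log_conj (h : Prof ψ) (t : ℝ) :
    Real.log ‖(1 + conj (zt ψ t)) / (1 - conj (zt ψ t))‖ = t := by
  have : (1 + conj (zt ψ t)) / (1 - conj (zt ψ t)) = conj ((1 + zt ψ t) / (1 - zt ψ t)) := by
    simp
  rw [this, Complex.norm_conj, h.zt_log]

lemma Prof.zt_inj (h : Prof ψ) : Function.Injective (zt ψ) := by
  intro t s hts
  rw [← h.zt_log t, ← h.zt_log s, hts]

/-- bound of the speed -/
lemma Prof.zd_le (h : Prof ψ) : ∃ M : ℝ, 0 ≤ M ∧ ∀ t, ‖zd ψ t‖ ≤ M / Real.cosh t := by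
  obtain ⟨M, hM0, hM⟩ := h.deriv_bdd
  refine ⟨1 + M, by positivity, fun t => ?_⟩
  have h1 := h.normSq_cosh_ge t
  have hc := Real.cosh_pos t
  unfold zd
  rw [norm_div, norm_mul, norm_pow, Complex.norm_ofNat, ← Complex.normSq_eq_norm_sq]
  have h2 : ‖(1 + ((deriv ψ t : ℝ) : ℂ) * Complex.I)‖ ≤ 1 + M := by
    refine (norm_add_le _ _).trans ?_
    rw [norm_one, norm_mul, Complex.norm_I, mul_one, Complex.norm_real, Real.norm_eq_abs]
    have := hM t
    linarith
  have : Real.cosh t ≤ 2 * Complex.normSq (Complex.cosh (om ψ t)) := by linarith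
  gcongr

lemma Prof.zt_sub (h : Prof ψ) (s t : ℝ) : zt ψ s - zt ψ t =
    Complex.sinh (om ψ s - om ψ t) / (Complex.cosh (om ψ s) * Complex.cosh (om ψ t)) := by
  have h1 := h.cosh_om_ne s
  have h2 := h.cosh_om_ne t
  unfold zt
  rw [Complex.sinh_sub]
  field_simp

lemma conj_zt (t : ℝ) : conj (zt ψ t) = Complex.sinh (conj (om ψ t)) / Complex.cosh (conj (om ψ t)) := by
  unfold zt
  rw [map_div₀, Complex.sinh_conj, Complex.cosh_conj]

lemma Prof.cosh_conj_om_ne (h : Prof ψ) (t : ℝ) : Complex.cosh (conj (om ψ t)) ≠ 0 := by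
  rw [Complex.cosh_conj]
  exact (map_ne_zero _).2 (h.cosh_om_ne t)

lemma Prof.zt_sub_conj (h : Prof ψ) (s t : ℝ) : conj (zt ψ s) - zt ψ t =
    Complex.sinh (conj (om ψ s) - om ψ t) / (Complex.cosh (conj (om ψ s)) * Complex.cosh (om ψ t)) := by
  have h1 := h.cosh_conj_om_ne s
  have h2 := h.cosh_om_ne t
  rw [conj_zt, Complex.sinh_sub]
  unfold zt
  field_simp

lemma om_sub (s t : ℝ) : om ψ s - om ψ t =
    (((s - t) / 2 : ℝ) : ℂ) + (((ψ s - ψ t) / 2 : ℝ) : ℂ) * Complex.I := by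
  unfold om; push_cast; ring

lemma om_sub_conj (s t : ℝ) : conj (om ψ s) - om ψ t =
    (((s - t) / 2 : ℝ) : ℂ) + ((-(ψ s + ψ t) / 2 : ℝ) : ℂ) * Complex.I := by
  unfold om
  rw [map_add, map_mul, Complex.conj_ofReal, Complex.conj_ofReal, Complex.conj_I]
  push_cast; ring

lemma normSq_sinh_sub (s t : ℝ) : Complex.normSq (Complex.sinh (om ψ s - om ψ t)) = Dm ψ s t / 2 := by
  rw [om_sub, normSq_sinh, Dm]
  congr 3 <;> ring

lemma normSq_sinh_sub_conj (s t : ℝ) :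
    Complex.normSq (Complex.sinh (conj (om ψ s) - om ψ t)) = Dp ψ s t / 2 := by
  rw [om_sub_conj, normSq_sinh, Dp]
  have e1 : 2 * (-(ψ s + ψ t) / 2) = -(ψ s + ψ t) := by ring
  have e2 : 2 * ((s - t) / 2) = s - t := by ring
  rw [e1, e2, Real.cos_neg]

end curve

end Pool.Agent.TH268.NP
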