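import Pool.Agent.TH268.NP.Geo1

set_option autoImplicit false

/-!
# The kernel identity, distances and densities
-/

open MeasureTheory Set Filter Topology
open scoped ENNReal NNReal ComplexConjugate

namespace Pool.Agent.TH268.NP

section curve
variable {ψ : ℝ → ℝ}

lemma Dm_symm (ψ : ℝ → ℝ) (t s : ℝ) : Dm ψ t s = Dm ψ s t := by
  unfold Dm
  rw [← Real.cosh_neg, ← Real.cos_neg]
  congr 2 <;> ring

lemma Dp_symm (ψ : ℝ → ℝ) (t s : ℝ) : Dp ψ t s = Dp ψ s t := by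
  unfold Dp
  rw [← Real.cosh_neg]
  congr 2 <;> ring

lemma Prof.quot1 (h : Prof ψ) {s t : ℝ} (hst : s ≠ t) : zd ψ s / (zt ψ s - zt ψ t) =
    (1 + ((deriv ψ s : ℝ) : ℂ) * Complex.I) / 2 *
      ((((Real.sinh (s - t) : ℝ) : ℂ) - ((Real.sin (ψ s - ψ t) : ℝ) : ℂ) * Complex.I) /
        ((Dm ψ s t : ℝ) : ℂ) - zt ψ s) := by
  have h1 := h.cosh_om_ne s
  have h2 := h.cosh_om_ne t
  have hD : Dm ψ s t ≠ 0 := (Dm_pos ψ hst).ne'
  have hc := coth_eq ((s - t) / 2) ((ψ s - ψ t) / 2) (by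
    have e1 : 2 * ((s - t) / 2) = s - t := by ring
    have e2 : 2 * ((ψ s - ψ t) / 2) = ψ s - ψ t := by ring
    rw [e1, e2]; exact hD)
  have e1 : 2 * ((s - t) / 2) = s - t := by ring
  have e2 : 2 * ((ψ s - ψ t) / 2) = ψ s - ψ t := by ring
  rw [e1, e2, ← om_sub] at hc
  have hσ : Complex.sinh (om ψ s - om ψ t) ≠ 0 := by
    intro hcon
    have := normSq_sinh_sub (ψ := ψ) s t
    rw [hcon, map_zero] at this
    apply hD
    linarith
  have hadd : Complex.cosh (om ψ t) = Complex.cosh (om ψ s) * Complex.cosh (om ψ s - om ψ t) -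
      Complex.sinh (om ψ s) * Complex.sinh (om ψ s - om ψ t) := by
    rw [← Complex.cosh_sub]; congr 1; ring
  have hDm : ((Dm ψ s t : ℝ) : ℂ) = ((Real.cosh (s - t) - Real.cos (ψ s - ψ t) : ℝ) : ℂ) := rfl
  rw [hDm, ← hc, h.zt_sub]
  unfold zd zt
  rw [div_div_eq_mul_div, div_mul_eq_mul_div, div_div]
  rw [div_eq_iff (by
    refine mul_ne_zero ?_ hσ
    exact mul_ne_zero two_ne_zero (pow_ne_zero 2 h1))]
  have e3 : (1 + ((deriv ψ s : ℝ) : ℂ) * Complex.I) / 2 *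
        (Complex.cosh (om ψ s - om ψ t) / Complex.sinh (om ψ s - om ψ t) -
          Complex.sinh (om ψ s) / Complex.cosh (om ψ s)) *
      (2 * Complex.cosh (om ψ s) ^ 2 * Complex.sinh (om ψ s - om ψ t)) =
      (1 + ((deriv ψ s : ℝ) : ℂ) * Complex.I) * (Complex.cosh (om ψ s) *
        (Complex.cosh (om ψ s) * Complex.cosh (om ψ s - om ψ t) -
          Complex.sinh (om ψ s) * Complex.sinh (om ψ s - om ψ t))) := by
    field_simp
  rw [e3, ← hadd]

lemma Prof.quot2 (h : Prof ψ) (s t : ℝ) : conj (zd ψ s) / (conj (zt ψ s) - zt ψ t) =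
    (1 - ((deriv ψ s : ℝ) : ℂ) * Complex.I) / 2 *
      ((((Real.sinh (s - t) : ℝ) : ℂ) + ((Real.sin (ψ s + ψ t) : ℝ) : ℂ) * Complex.I) /
        ((Dp ψ s t : ℝ) : ℂ) - conj (zt ψ s)) := by
  have h1 := h.cosh_conj_om_ne s
  have h2 := h.cosh_om_ne t
  have hD : Dp ψ s t ≠ 0 := (h.Dp_pos s t).ne'
  have e1 : 2 * ((s - t) / 2) = s - t := by ring
  have e2 : 2 * (-(ψ s + ψ t) / 2) = -(ψ s + ψ t) := by ring
  have hc := coth_eq ((s - t) / 2) (-(ψ s + ψ t) / 2) (by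
    rw [e1, e2, Real.cos_neg]; exact hD)
  rw [e1, e2, ← om_sub_conj, Real.cos_neg, Real.sin_neg] at hc
  have hσ : Complex.sinh (conj (om ψ s) - om ψ t) ≠ 0 := by
    intro hcon
    have := normSq_sinh_sub_conj (ψ := ψ) s t
    rw [hcon, map_zero] at this
    apply hD
    linarith
  have hadd : Complex.cosh (om ψ t) = Complex.cosh (conj (om ψ s)) * Complex.cosh (conj (om ψ s) - om ψ t) -
      Complex.sinh (conj (om ψ s)) * Complex.sinh (conj (om ψ s) - om ψ t) := by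
    rw [← Complex.cosh_sub]; congr 1; ring
  have hDp : ((Dp ψ s t : ℝ) : ℂ) = ((Real.cosh (s - t) - Real.cos (ψ s + ψ t) : ℝ) : ℂ) := rfl
  have hc' : (((Real.sinh (s - t) : ℝ) : ℂ) + ((Real.sin (ψ s + ψ t) : ℝ) : ℂ) * Complex.I) /
      ((Real.cosh (s - t) - Real.cos (ψ s + ψ t) : ℝ) : ℂ) =
      Complex.cosh (conj (om ψ s) - om ψ t) / Complex.sinh (conj (om ψ s) - om ψ t) := by
    rw [hc]
    congr 1
    push_cast
    ring
  have hzd : conj (zd ψ s) = (1 - ((deriv ψ s : ℝ) : ℂ) * Complex.I) /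
      (2 * Complex.cosh (conj (om ψ s)) ^ 2) := by
    unfold zd
    rw [map_div₀, map_add, map_mul, map_mul, map_pow, map_one, Complex.conj_ofReal, Complex.conj_I,
      Complex.cosh_conj, map_ofNat]
    congr 1
    ring
  rw [hDp, hc', h.zt_sub_conj, conj_zt, hzd]
  rw [div_div_eq_mul_div, div_mul_eq_mul_div, div_div]
  rw [div_eq_iff (by
    refine mul_ne_zero ?_ hσ
    exact mul_ne_zero two_ne_zero (pow_ne_zero 2 h1))]
  have e3 : (1 - ((deriv ψ s : ℝ) : ℂ) * Complex.I) / 2 *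
        (Complex.cosh (conj (om ψ s) - om ψ t) / Complex.sinh (conj (om ψ s) - om ψ t) -
          Complex.sinh (conj (om ψ s)) / Complex.cosh (conj (om ψ s))) *
      (2 * Complex.cosh (conj (om ψ s)) ^ 2 * Complex.sinh (conj (om ψ s) - om ψ t)) =
      (1 - ((deriv ψ s : ℝ) : ℂ) * Complex.I) * (Complex.cosh (conj (om ψ s)) *
        (Complex.cosh (conj (om ψ s)) * Complex.cosh (conj (om ψ s) - om ψ t) -
          Complex.sinh (conj (om ψ s)) * Complex.sinh (conj (om ψ s) - om ψ t))) := by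
    field_simp
  rw [e3, ← hadd]

/-- the kernel of the double layer in bipolar coordinates -/
theorem Prof.kernel_eq (h : Prof ψ) {s t : ℝ} (hst : s ≠ t) :
    -(1 / (2 * Real.pi)) * ((zd ψ s / (zt ψ s - zt ψ t)).im +
      (conj (zd ψ s) / (conj (zt ψ s) - zt ψ t)).im) = kk ψ t s := by
  have hDm : Dm ψ s t ≠ 0 := (Dm_pos ψ hst).ne'
  have hDp : Dp ψ s t ≠ 0 := (h.Dp_pos s t).ne'
  have i1 : (zd ψ s / (zt ψ s - zt ψ t)).im =
      (deriv ψ s * Real.sinh (s - t) - Real.sin (ψ s - ψ t)) / (2 * Dm ψ s t) -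
        (((1 + ((deriv ψ s : ℝ) : ℂ) * Complex.I) / 2) * zt ψ s).im := by
    rw [h.quot1 hst, mul_sub, Complex.sub_im]
    congr 1
    rw [← mul_div_assoc, Complex.div_ofReal_im]
    have : ((1 + ((deriv ψ s : ℝ) : ℂ) * Complex.I) / 2 *
      (((Real.sinh (s - t) : ℝ) : ℂ) - ((Real.sin (ψ s - ψ t) : ℝ) : ℂ) * Complex.I)).im =
      (deriv ψ s * Real.sinh (s - t) - Real.sin (ψ s - ψ t)) / 2 := by
      have e : (1 + ((deriv ψ s : ℝ) : ℂ) * Complex.I) / 2 *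
      (((Real.sinh (s - t) : ℝ) : ℂ) - ((Real.sin (ψ s - ψ t) : ℝ) : ℂ) * Complex.I) =
        (((Real.sinh (s - t) + deriv ψ s * Real.sin (ψ s - ψ t)) / 2 : ℝ) : ℂ) +
        (((deriv ψ s * Real.sinh (s - t) - Real.sin (ψ s - ψ t)) / 2 : ℝ) : ℂ) * Complex.I := by
        push_cast
        linear_combination (-((deriv ψ s : ℝ) : ℂ) * (Complex.sin (ψ s - ψ t)) / 2) * Complex.I_sq
      rw [e]
      simp only [Complex.add_im, Complex.mul_im, Complex.ofReal_re,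
      Complex.ofReal_im, Complex.I_re, Complex.I_im]
      ring
    rw [this, div_div]
  have i2 : (conj (zd ψ s) / (conj (zt ψ s) - zt ψ t)).im =
      (-(deriv ψ s * Real.sinh (s - t)) + Real.sin (ψ s + ψ t)) / (2 * Dp ψ s t) +
        (((1 + ((deriv ψ s : ℝ) : ℂ) * Complex.I) / 2) * zt ψ s).im := by
    rw [h.quot2, mul_sub, Complex.sub_im]
    have a1 : ((1 - ((deriv ψ s : ℝ) : ℂ) * Complex.I) / 2 * conj (zt ψ s)).im =
        -(((1 + ((deriv ψ s : ℝ) : ℂ) * Complex.I) / 2) * zt ψ s).im := by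
      rw [← Complex.conj_im]
      congr 1
      rw [map_mul, map_div₀, map_add, map_mul, map_one, Complex.conj_ofReal, Complex.conj_I, map_ofNat]
      ring
    rw [a1, sub_neg_eq_add]
    congr 1
    rw [← mul_div_assoc, Complex.div_ofReal_im]
    have : ((1 - ((deriv ψ s : ℝ) : ℂ) * Complex.I) / 2 *
      (((Real.sinh (s - t) : ℝ) : ℂ) + ((Real.sin (ψ s + ψ t) : ℝ) : ℂ) * Complex.I)).im =
      (-(deriv ψ s * Real.sinh (s - t)) + Real.sin (ψ s + ψ t)) / 2 := by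
      have e : (1 - ((deriv ψ s : ℝ) : ℂ) * Complex.I) / 2 *
      (((Real.sinh (s - t) : ℝ) : ℂ) + ((Real.sin (ψ s + ψ t) : ℝ) : ℂ) * Complex.I) =
        (((Real.sinh (s - t) + deriv ψ s * Real.sin (ψ s + ψ t)) / 2 : ℝ) : ℂ) +
        (((-(deriv ψ s * Real.sinh (s - t)) + Real.sin (ψ s + ψ t)) / 2 : ℝ) : ℂ) * Complex.I := by
        push_cast
        linear_combination (((deriv ψ s : ℝ) : ℂ) * (Complex.sin (ψ s + ψ t)) / 2) * (-1) * Complex.I_sq
      rw [e]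
      simp only [Complex.add_im, Complex.mul_im, Complex.ofReal_re,
      Complex.ofReal_im, Complex.I_re, Complex.I_im]
      ring
    rw [this, div_div]
  rw [i1, i2, kk_eq, Dm_symm ψ t s, Dp_symm ψ t s]
  have hpi := Real.pi_pos.ne'
  have e1 : Real.sinh (t - s) = -Real.sinh (s - t) := by rw [← Real.sinh_neg]; congr 1; ring
  have e2 : Real.sin (ψ t - ψ s) = -Real.sin (ψ s - ψ t) := by rw [← Real.sin_neg]; congr 1; ring
  rw [e1, e2, add_comm (ψ t) (ψ s)]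
  field_simp
  ring

/-- distances on the same arc -/
lemma Prof.dist_same (h : Prof ψ) (s t : ℝ) : ‖zd ψ s‖ * ‖zd ψ t‖ * (2 * Dm ψ s t) =
    ‖zt ψ s - zt ψ t‖ ^ 2 * (‖(1 + ((deriv ψ s : ℝ) : ℂ) * Complex.I)‖ *
      ‖(1 + ((deriv ψ t : ℝ) : ℂ) * Complex.I)‖) := by
  have h1 := h.cosh_om_ne s
  have h2 := h.cosh_om_ne t
  have e := normSq_sinh_sub (ψ := ψ) s t
  rw [Complex.normSq_eq_norm_sq] at e
  have h3 : ‖Complex.cosh (om ψ s)‖ ≠ 0 := norm_ne_zero_iff.2 h1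
  have h4 : ‖Complex.cosh (om ψ t)‖ ≠ 0 := norm_ne_zero_iff.2 h2
  rw [h.zt_sub, norm_div, norm_mul, div_pow, e]
  unfold zd
  rw [norm_div, norm_div, norm_mul, norm_mul, norm_pow, norm_pow, Complex.norm_ofNat]
  field_simp

/-- distances between the arcs -/
lemma Prof.dist_conj (h : Prof ψ) (s t : ℝ) : ‖zd ψ s‖ * ‖zd ψ t‖ * (2 * Dp ψ s t) =
    ‖conj (zt ψ s) - zt ψ t‖ ^ 2 * (‖(1 + ((deriv ψ s : ℝ) : ℂ) * Complex.I)‖ *
      ‖(1 + ((deriv ψ t : ℝ) : ℂ) * Complex.I)‖) := by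
  have h1 := h.cosh_om_ne s
  have h2 := h.cosh_om_ne t
  have e := normSq_sinh_sub_conj (ψ := ψ) s t
  rw [Complex.normSq_eq_norm_sq] at e
  have h3 : ‖Complex.cosh (om ψ s)‖ ≠ 0 := norm_ne_zero_iff.2 h1
  have h4 : ‖Complex.cosh (om ψ t)‖ ≠ 0 := norm_ne_zero_iff.2 h2
  rw [h.zt_sub_conj, norm_div, norm_mul, div_pow, e, Complex.cosh_conj, Complex.norm_conj]
  unfold zd
  rw [norm_div, norm_div, norm_mul, norm_mul, norm_pow, norm_pow, Complex.norm_ofNat]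
  field_simp

end curve

end Pool.Agent.TH268.NP
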