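import Pool.Agent.TH268.NP.Geo2
import Pool.Agent.TH268.NPDefs.Poly

set_option autoImplicit false

/-!
# The explicit curve
-/

open MeasureTheory Set Filter Topology
open scoped ENNReal NNReal ComplexConjugate ContDiff

namespace Pool.Agent.TH268.NP

/-- the profile in the variable `T = tanh (t / 2)` -/
noncomputable def Psi (T : ℝ) : ℝ :=
  Real.pi / 2 - Real.pi / 4 * Real.smoothTransition (4 * T ^ 2 - 1)

/-- half of the profile -/
noncomputable def hP (T : ℝ) : ℝ := Psi T / 2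

lemma Psi_smooth : ContDiff ℝ ∞ Psi := by
  unfold Psi
  have h1 : ContDiff ℝ ∞ (fun T : ℝ => Real.smoothTransition (4 * T ^ 2 - 1)) :=
    (Real.smoothTransition.contDiff (n := ⊤)).comp (by fun_prop)
  fun_prop

lemma hP_smooth : ContDiff ℝ ∞ hP := by
  unfold hP
  exact Psi_smooth.div_const 2

lemma Psi_lo (T : ℝ) : Real.pi / 4 ≤ Psi T := by
  unfold Psi
  have := Real.smoothTransition.le_one (4 * T ^ 2 - 1)
  have := Real.pi_pos
  nlinarith

lemma Psi_hi (T : ℝ) : Psi T ≤ Real.pi / 2 := by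
  unfold Psi
  have := Real.smoothTransition.nonneg (4 * T ^ 2 - 1)
  have := Real.pi_pos
  nlinarith

lemma Psi_even (T : ℝ) : Psi (-T) = Psi T := by
  unfold Psi; congr 3; ring

lemma Psi_far {T : ℝ} (h : 1 ≤ 2 * T ^ 2) : Psi T = Real.pi / 4 := by
  unfold Psi
  rw [Real.smoothTransition.one_of_one_le (by linarith)]
  ring

lemma Psi_mid {T : ℝ} (h : 4 * T ^ 2 ≤ 1) : Psi T = Real.pi / 2 := by
  unfold Psi
  rw [Real.smoothTransition.zero_of_nonpos (by linarith)]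
  ring

lemma hP_pos (T : ℝ) : 0 < hP T := by
  have := Psi_lo T
  have := Real.pi_pos
  unfold hP
  linarith

lemma hP_lt (T : ℝ) : hP T < Real.pi / 2 := by
  have := Psi_hi T
  have := Real.pi_pos
  unfold hP
  linarith

lemma cos_hP_pos (T : ℝ) : 0 < Real.cos (hP T) := by
  have := hP_pos T
  have := hP_lt T
  exact Real.cos_pos_of_mem_Ioo ⟨by linarith, by linarith⟩

lemma sin_hP_pos (T : ℝ) : 0 < Real.sin (hP T) := by
  have := hP_pos T
  have := hP_lt T
  have := Real.pi_pos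
  exact Real.sin_pos_of_pos_of_lt_pi (by linarith) (by linarith)

/-- numerator -/
noncomputable def ZN (T : ℝ) : ℂ := ((T * Real.cos (hP T) : ℝ) : ℂ) + ((Real.sin (hP T) : ℝ) : ℂ) * Complex.I

/-- denominator -/
noncomputable def ZD (T : ℝ) : ℂ := ((Real.cos (hP T) : ℝ) : ℂ) + ((T * Real.sin (hP T) : ℝ) : ℂ) * Complex.I

/-- the upper arc -/
noncomputable def Z (T : ℝ) : ℂ := ZN T / ZD T

lemma ZD_ne (T : ℝ) : ZD T ≠ 0 := by
  intro hcon
  have h1 := congrArg Complex.re hcon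
  unfold ZD at h1
  simp only [Complex.add_re, Complex.mul_re, Complex.ofReal_re, Complex.ofReal_im, Complex.I_re,
    Complex.I_im, Complex.zero_re] at h1
  have := cos_hP_pos T
  linarith

lemma ZN_ne (T : ℝ) : ZN T ≠ 0 := by
  intro hcon
  have h1 := congrArg Complex.im hcon
  unfold ZN at h1
  simp only [Complex.add_im, Complex.mul_im, Complex.ofReal_re, Complex.ofReal_im, Complex.I_re,
    Complex.I_im, Complex.zero_im] at h1
  have := sin_hP_pos T
  linarith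

lemma ofReal_smooth {f : ℝ → ℝ} (hf : ContDiff ℝ ∞ f) : ContDiff ℝ ∞ (fun T => ((f T : ℝ) : ℂ)) :=
  Complex.ofRealCLM.contDiff.comp hf

lemma ZN_smooth : ContDiff ℝ ∞ ZN := by
  have h0 := hP_smooth
  have h1 : ContDiff ℝ ∞ (fun T : ℝ => T * Real.cos (hP T)) := contDiff_id.mul h0.cos
  have h2 : ContDiff ℝ ∞ (fun T : ℝ => Real.sin (hP T)) := h0.sin
  exact (ofReal_smooth h1).add ((ofReal_smooth h2).mul contDiff_const)

lemma ZD_smooth : ContDiff ℝ ∞ ZD := by
  have h0 := hP_smooth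
  have h1 : ContDiff ℝ ∞ (fun T : ℝ => T * Real.sin (hP T)) := contDiff_id.mul h0.sin
  have h2 : ContDiff ℝ ∞ (fun T : ℝ => Real.cos (hP T)) := h0.cos
  exact (ofReal_smooth h2).add ((ofReal_smooth h1).mul contDiff_const)

lemma Z_smooth : ContDiff ℝ ∞ Z := by
  have h1 := ZN_smooth.mul (ZD_smooth.inv ZD_ne)
  have h2 : Z = fun T => ZN T * (ZD T)⁻¹ := by
    ext T
    exact div_eq_mul_inv _ _
  rw [h2]
  exact h1

lemma Z_diff (T : ℝ) : DifferentiableAt ℝ Z T := Z_smooth.differentiable (by simp) T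

lemma normSq_ZD (T : ℝ) : Complex.normSq (ZD T) = Real.cos (hP T) ^ 2 + T ^ 2 * Real.sin (hP T) ^ 2 := by
  unfold ZD
  rw [Complex.normSq_add_mul_I]
  ring

lemma normSq_ZD_pos (T : ℝ) : 0 < Real.cos (hP T) ^ 2 + T ^ 2 * Real.sin (hP T) ^ 2 := by
  rw [← normSq_ZD]
  exact Complex.normSq_pos.2 (ZD_ne T)

lemma Z_im (T : ℝ) : (Z T).im = Real.sin (hP T) * Real.cos (hP T) * (1 - T ^ 2) /
    (Real.cos (hP T) ^ 2 + T ^ 2 * Real.sin (hP T) ^ 2) := by
  unfold Z
  rw [Complex.div_im, normSq_ZD]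
  unfold ZN ZD
  simp only [Complex.add_re, Complex.add_im, Complex.mul_im, Complex.mul_re, Complex.ofReal_re,
      Complex.ofReal_im, Complex.I_re, Complex.I_im]
  have := (normSq_ZD_pos T).ne'
  field_simp
  ring

lemma Z_re (T : ℝ) : (Z T).re = T / (Real.cos (hP T) ^ 2 + T ^ 2 * Real.sin (hP T) ^ 2) := by
  unfold Z
  rw [Complex.div_re, normSq_ZD]
  unfold ZN ZD
  simp only [Complex.add_re, Complex.add_im, Complex.mul_im, Complex.mul_re, Complex.ofReal_re,
      Complex.ofReal_im, Complex.I_re, Complex.I_im]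
  have := (normSq_ZD_pos T).ne'
  have h2 := Real.sin_sq_add_cos_sq (hP T)
  field_simp
  linear_combination T * h2

lemma one_add_Z (T : ℝ) : 1 + Z T = ((1 + T : ℝ) : ℂ) * Complex.exp ((hP T : ℝ) * Complex.I) / ZD T := by
  have hne := ZD_ne T
  have e : Z T = ZN T / ZD T := rfl
  rw [e, eq_div_iff hne, add_mul, div_mul_cancel₀ _ hne, one_mul, Complex.exp_mul_I,
    ← Complex.ofReal_cos, ← Complex.ofReal_sin]
  unfold ZN ZD
  push_cast
  ring

lemma one_sub_Z (T : ℝ) : 1 - Z T = ((1 - T : ℝ) : ℂ) * Complex.exp (((-hP T : ℝ)) * Complex.I) / ZD T := by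
  have hne := ZD_ne T
  have e : Z T = ZN T / ZD T := rfl
  rw [e, eq_div_iff hne, sub_mul, div_mul_cancel₀ _ hne, one_mul, Complex.exp_mul_I,
    ← Complex.ofReal_cos, ← Complex.ofReal_sin, Real.cos_neg, Real.sin_neg]
  unfold ZN ZD
  push_cast
  ring

lemma norm_one_add_Z {T : ℝ} (hT : T ∈ Icc (-1 : ℝ) 1) : ‖1 + Z T‖ = (1 + T) / ‖ZD T‖ := by
  rw [one_add_Z, norm_div, norm_mul, Complex.norm_exp_ofReal_mul_I, mul_one, Complex.norm_real,
    Real.norm_eq_abs, abs_of_nonneg (by linarith [hT.1])]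

lemma norm_one_sub_Z {T : ℝ} (hT : T ∈ Icc (-1 : ℝ) 1) : ‖1 - Z T‖ = (1 - T) / ‖ZD T‖ := by
  rw [one_sub_Z, norm_div, norm_mul, Complex.norm_exp_ofReal_mul_I, mul_one, Complex.norm_real,
    Real.norm_eq_abs, abs_of_nonneg (by linarith [hT.2])]

/-- recover the parameter -/
noncomputable def Tof (z : ℂ) : ℝ := (‖1 + z‖ - ‖1 - z‖) / (‖1 + z‖ + ‖1 - z‖)

lemma Tof_Z {T : ℝ} (hT : T ∈ Icc (-1 : ℝ) 1) : Tof (Z T) = T := by
  unfold Tof
  rw [norm_one_add_Z hT, norm_one_sub_Z hT]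
  have h1 : ‖ZD T‖ ≠ 0 := norm_ne_zero_iff.2 (ZD_ne T)
  field_simp
  ring

lemma Tof_conj (z : ℂ) : Tof (conj z) = Tof z := by
  unfold Tof
  have h1 : 1 + conj z = conj (1 + z) := by simp
  have h2 : 1 - conj z = conj (1 - z) := by simp
  rw [h1, h2, Complex.norm_conj, Complex.norm_conj]

lemma Z_one : Z 1 = 1 := by
  have h : 1 - Z 1 = 0 := by
    rw [one_sub_Z]; simp
  linear_combination -h

lemma Z_neg_one : Z (-1) = -1 := by
  have h : 1 + Z (-1) = 0 := by
    rw [one_add_Z]; simp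
  linear_combination h

lemma hP_one : hP 1 = Real.pi / 8 := by
  unfold hP
  rw [Psi_far (by norm_num)]
  ring

lemma hP_neg_one : hP (-1) = Real.pi / 8 := by
  unfold hP
  rw [Psi_far (by norm_num)]
  ring

/-- the derivative of the upper arc -/
lemma Z_hasDeriv (T : ℝ) : HasDerivAt Z
    ((1 + ((deriv hP T : ℝ) : ℂ) * Complex.I * (1 - (T : ℂ) ^ 2)) / ZD T ^ 2) T := by
  have h0 : HasDerivAt hP (deriv hP T) T := (hP_smooth.differentiable (by simp) T).hasDerivAt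
  have hc : HasDerivAt (fun T => Real.cos (hP T)) (-Real.sin (hP T) * deriv hP T) T := h0.cos
  have hs : HasDerivAt (fun T => Real.sin (hP T)) (Real.cos (hP T) * deriv hP T) T := h0.sin
  have hN : HasDerivAt ZN ((((1 * Real.cos (hP T) + T * (-Real.sin (hP T) * deriv hP T) : ℝ)) : ℂ) +
      ((Real.cos (hP T) * deriv hP T : ℝ) : ℂ) * Complex.I) T := by
    have a1 := ((hasDerivAt_id T).mul hc).ofReal_comp
    have a2 := hs.ofReal_comp
    exact a1.add (a2.mul_const Complex.I)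
  have hD : HasDerivAt ZD ((((-Real.sin (hP T) * deriv hP T : ℝ)) : ℂ) +
      ((1 * Real.sin (hP T) + T * (Real.cos (hP T) * deriv hP T) : ℝ) : ℂ) * Complex.I) T := by
    have a1 := ((hasDerivAt_id T).mul hs).ofReal_comp
    have a2 := hc.ofReal_comp
    exact a2.add (a1.mul_const Complex.I)
  refine (hN.div hD (ZD_ne T)).congr_deriv ?_
  have h2 : ((Real.sin (hP T) : ℝ) : ℂ) ^ 2 + ((Real.cos (hP T) : ℝ) : ℂ) ^ 2 = 1 := by
    exact_mod_cast Real.sin_sq_add_cos_sq (hP T)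
  congr 1
  unfold ZN ZD
  push_cast at h2 ⊢
  linear_combination (1 + ((deriv hP T : ℝ) : ℂ) * Complex.I * (1 - (T : ℂ) ^ 2)) * h2 -
    (Complex.sin (hP T)) ^ 2 * Complex.I_sq

end Pool.Agent.TH268.NP
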