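import Pool.Agent.TH268.NP.Geo3

set_option autoImplicit false

/-!
# The polygon
-/

open MeasureTheory Set Filter Topology
open scoped ENNReal NNReal ComplexConjugate ContDiff

namespace Pool.Agent.TH268.NP

/-- the velocity of the upper arc in the variable `T` -/
noncomputable def ZV (T : ℝ) : ℂ :=
  (1 + ((deriv hP T : ℝ) : ℂ) * Complex.I * (1 - (T : ℂ) ^ 2)) / ZD T ^ 2

lemma ZV_ne {T : ℝ} : ZV T ≠ 0 := by
  unfold ZV
  refine div_ne_zero ?_ (pow_ne_zero 2 (ZD_ne T))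
  intro hcon
  have e : (1 + ((deriv hP T : ℝ) : ℂ) * Complex.I * (1 - (T : ℂ) ^ 2)) =
      1 + ((deriv hP T * (1 - T ^ 2) : ℝ) : ℂ) * Complex.I := by push_cast; ring
  rw [e] at hcon
  have := congrArg Complex.re hcon
  simp only [Complex.add_re, Complex.mul_re, Complex.ofReal_re, Complex.ofReal_im, Complex.I_re,
    Complex.I_im, Complex.zero_re, Complex.one_re] at this
  norm_num at this

/-- the two arcs -/
noncomputable def arcs (i : ZMod 2) (τ : ℝ) : ℂ :=
  if i = 0 then Z (1 - 2 * τ) else conj (Z (2 * τ - 1))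

lemma zmod2 (i : ZMod 2) : i = 0 ∨ i = 1 := by
  revert i; decide

lemma arcs_zero : arcs 0 = fun τ => Z (1 - 2 * τ) := by
  ext τ; simp [arcs]

lemma arcs_one : arcs 1 = fun τ => conj (Z (2 * τ - 1)) := by
  ext τ
  have : (1 : ZMod 2) ≠ 0 := by decide
  simp [arcs, this]

lemma conj_smooth {f : ℝ → ℂ} (hf : ContDiff ℝ ∞ f) : ContDiff ℝ ∞ (fun T => conj (f T)) :=
  Complex.conjCLE.contDiff.comp hf

lemma arcs_smooth (i : ZMod 2) : ContDiff ℝ ∞ (arcs i) := by
  rcases zmod2 i with rfl | rfl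
  · rw [arcs_zero]
    exact Z_smooth.comp (by fun_prop)
  · rw [arcs_one]
    exact conj_smooth (Z_smooth.comp (by fun_prop))

lemma arcs_zero_deriv (τ : ℝ) : HasDerivAt (arcs 0) (-2 * ZV (1 - 2 * τ)) τ := by
  rw [arcs_zero]
  have h1 : HasDerivAt (fun τ : ℝ => 1 - 2 * τ) (-2) τ := by
    simpa using ((hasDerivAt_id τ).const_mul 2).const_sub 1
  have h2 := (Z_hasDeriv (1 - 2 * τ)).scomp τ h1
  refine h2.congr_deriv ?_
  simp [ZV, Complex.real_smul]

lemma arcs_one_deriv (τ : ℝ) : HasDerivAt (arcs 1) (2 * conj (ZV (2 * τ - 1))) τ := by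
  rw [arcs_one]
  have h1 : HasDerivAt (fun τ : ℝ => 2 * τ - 1) 2 τ := by
    simpa using ((hasDerivAt_id τ).const_mul 2).sub_const 1
  have h2 := (Z_hasDeriv (2 * τ - 1)).scomp τ h1
  have h3 := (Complex.conjCLE.hasFDerivAt (x := Z (2 * τ - 1))).comp_hasDerivAt τ h2
  refine h3.congr_deriv ?_
  simp only [ContinuousLinearEquiv.coe_coe, Complex.conjCLE_apply, Complex.real_smul]
  rw [map_mul, Complex.conj_ofReal]
  rfl

lemma arcs_velW_zero {τ : ℝ} (hτ : τ ∈ Icc (0 : ℝ) 1) :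
    derivWithin (arcs 0) (Icc 0 1) τ = -2 * ZV (1 - 2 * τ) :=
  (arcs_zero_deriv τ).hasDerivWithinAt.derivWithin (uniqueDiffOn_Icc zero_lt_one τ hτ)

lemma arcs_velW_one {τ : ℝ} (hτ : τ ∈ Icc (0 : ℝ) 1) :
    derivWithin (arcs 1) (Icc 0 1) τ = 2 * conj (ZV (2 * τ - 1)) :=
  (arcs_one_deriv τ).hasDerivWithinAt.derivWithin (uniqueDiffOn_Icc zero_lt_one τ hτ)

lemma arcs_closed (i : ZMod 2) : arcs i 1 = arcs (i + 1) 0 := by
  rcases zmod2 i with rfl | rfl
  · rw [show (0 : ZMod 2) + 1 = 1 by decide, arcs_zero, arcs_one]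
    norm_num
    rw [Z_neg_one]
    simp
  · rw [show (1 : ZMod 2) + 1 = 0 by decide, arcs_zero, arcs_one]
    norm_num
    rw [Z_one]
    simp

lemma Z_im_nonneg {T : ℝ} (hT : T ∈ Icc (-1 : ℝ) 1) : 0 ≤ (Z T).im := by
  rw [Z_im]
  have h1 := normSq_ZD_pos T
  have h2 := cos_hP_pos T
  have h3 := sin_hP_pos T
  have h4 : 0 ≤ 1 - T ^ 2 := by nlinarith [hT.1, hT.2]
  positivity

lemma Z_im_eq_zero {T : ℝ} (h : (Z T).im = 0) : T = 1 ∨ T = -1 := by
  rw [Z_im] at h
  have h1 := normSq_ZD_pos T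
  have h2 := cos_hP_pos T
  have h3 := sin_hP_pos T
  rw [div_eq_zero_iff] at h
  rcases h with h | h
  · rcases mul_eq_zero.1 h with h | h
    · have : 0 < Real.sin (hP T) * Real.cos (hP T) := by positivity
      linarith
    · have h5 : (1 - T) * (1 + T) = 0 := by linear_combination h
      rcases mul_eq_zero.1 h5 with h | h
      · left; linarith
      · right; linarith
  · linarith

lemma arcs_simple (i j : ZMod 2) (s : ℝ) (hs : s ∈ Ico (0 : ℝ) 1) (t : ℝ) (ht : t ∈ Ico (0 : ℝ) 1)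
    (h : arcs i s = arcs j t) : i = j ∧ s = t := by
  have a1 : 1 - 2 * s ∈ Icc (-1 : ℝ) 1 := ⟨by linarith [hs.2], by linarith [hs.1]⟩
  have a2 : 1 - 2 * t ∈ Icc (-1 : ℝ) 1 := ⟨by linarith [ht.2], by linarith [ht.1]⟩
  have a3 : 2 * s - 1 ∈ Icc (-1 : ℝ) 1 := ⟨by linarith [hs.1], by linarith [hs.2]⟩
  have a4 : 2 * t - 1 ∈ Icc (-1 : ℝ) 1 := ⟨by linarith [ht.1], by linarith [ht.2]⟩
  have key : ∀ a b : ℝ, a ∈ Ico (0 : ℝ) 1 → b ∈ Ico (0 : ℝ) 1 → arcs 0 a ≠ arcs 1 b := by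
    intro a b ha hb hab
    have b1 : 1 - 2 * a ∈ Icc (-1 : ℝ) 1 := ⟨by linarith [ha.2], by linarith [ha.1]⟩
    have b2 : 2 * b - 1 ∈ Icc (-1 : ℝ) 1 := ⟨by linarith [hb.1], by linarith [hb.2]⟩
    simp only [arcs_zero, arcs_one] at hab
    have h1 := Z_im_nonneg b1
    have h2 := Z_im_nonneg b2
    have h3 := congrArg Complex.im hab
    rw [Complex.conj_im] at h3
    have h4 : (Z (1 - 2 * a)).im = 0 := by linarith
    have h5 : (Z (2 * b - 1)).im = 0 := by linarith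
    have h6 : 1 - 2 * a = 1 := by
      rcases Z_im_eq_zero h4 with h | h
      · exact h
      · linarith [ha.2]
    have h7 : 2 * b - 1 = -1 := by
      rcases Z_im_eq_zero h5 with h | h
      · linarith [hb.2]
      · exact h
    rw [h6, h7, Z_one, Z_neg_one] at hab
    have := congrArg Complex.re hab
    simp at this
    norm_num at this
  rcases zmod2 i with rfl | rfl <;> rcases zmod2 j with rfl | rfl
  · refine ⟨rfl, ?_⟩
    simp only [arcs_zero] at h
    have := congrArg Tof h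
    rw [Tof_Z a1, Tof_Z a2] at this
    linarith
  · exact absurd h (key s t hs ht)
  · exact absurd h.symm (key t s ht hs)
  · refine ⟨rfl, ?_⟩
    simp only [arcs_one] at h
    have := congrArg Tof h
    rw [Tof_conj, Tof_conj, Tof_Z a3, Tof_Z a4] at this
    linarith

lemma Z_ne (T : ℝ) : Z T ≠ 0 := div_ne_zero (ZN_ne T) (ZD_ne T)

lemma Z_slit {T : ℝ} (hT : T ∈ Icc (-1 : ℝ) 1) : -Complex.I * Z T ∈ Complex.slitPlane := by
  rw [Complex.mem_slitPlane_iff]
  have e1 : (-Complex.I * Z T).re = (Z T).im := by simp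
  have e2 : (-Complex.I * Z T).im = -(Z T).re := by simp
  rw [e1, e2]
  rcases (Z_im_nonneg hT).lt_or_eq with h | h
  · exact Or.inl h
  · right
    rcases Z_im_eq_zero h.symm with rfl | rfl
    · rw [Z_one]; norm_num
    · rw [Z_neg_one]; norm_num

lemma Z_slit' {T : ℝ} (hT : T ∈ Icc (-1 : ℝ) 1) : Complex.I * conj (Z T) ∈ Complex.slitPlane := by
  rw [Complex.mem_slitPlane_iff]
  have e1 : (Complex.I * conj (Z T)).re = (Z T).im := by simp
  have e2 : (Complex.I * conj (Z T)).im = (Z T).re := by simp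
  rw [e1, e2]
  rcases (Z_im_nonneg hT).lt_or_eq with h | h
  · exact Or.inl h
  · right
    rcases Z_im_eq_zero h.symm with rfl | rfl
    · rw [Z_one]; norm_num
    · rw [Z_neg_one]; norm_num

lemma log_ftc (γ : ℝ → ℂ) (γ' : ℝ → ℂ) (c : ℂ) (hc : c ≠ 0) (hγ : ∀ t ∈ Icc (0:ℝ) 1, HasDerivAt γ (γ' t) t)
    (hγc : ContinuousOn γ' (Icc 0 1)) (hs : ∀ t ∈ Icc (0:ℝ) 1, c * γ t ∈ Complex.slitPlane) :
    ∫ t in (0:ℝ)..1, γ' t / γ t = Complex.log (c * γ 1) - Complex.log (c * γ 0) := by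
  have h01 : uIcc (0:ℝ) 1 = Icc 0 1 := uIcc_of_le zero_le_one
  have hne : ∀ t ∈ Icc (0:ℝ) 1, γ t ≠ 0 := by
    intro t ht hcon
    have := hs t ht
    rw [hcon, mul_zero] at this
    exact Complex.zero_notMem_slitPlane this
  have hcont : ContinuousOn γ (Icc 0 1) := fun t ht => (hγ t ht).continuousAt.continuousWithinAt
  have h1 : ∀ t ∈ uIcc (0:ℝ) 1, HasDerivAt (fun t => Complex.log (c * γ t)) (γ' t / γ t) t := by
    intro t ht
    rw [h01] at ht
    have h2 := (Complex.hasDerivAt_log (hs t ht)).scomp t ((hγ t ht).const_mul c)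
    refine h2.congr_deriv ?_
    have := hne t ht
    rw [smul_eq_mul]
    field_simp
  have h2 : IntervalIntegrable (fun t => γ' t / γ t) volume 0 1 := by
    refine ContinuousOn.intervalIntegrable ?_
    rw [h01]
    exact hγc.div hcont hne
  exact intervalIntegral.integral_eq_sub_of_hasDerivAt h1 h2

lemma ZV_cont : Continuous ZV := by
  unfold ZV
  have h1 : Continuous (deriv hP) := hP_smooth.continuous_deriv (by simp)
  have h2 := ZD_smooth.continuous
  refine Continuous.div ?_ (h2.pow 2) (fun T => pow_ne_zero 2 (ZD_ne T))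
  have h3 : Continuous (fun T => ((deriv hP T : ℝ) : ℂ)) := Complex.continuous_ofReal.comp h1
  fun_prop

lemma arcs_oriented : ∑ i : ZMod 2, ∫ t in (0 : ℝ)..1, derivWithin (arcs i) (Icc 0 1) t / (arcs i t - 0) =
      2 * Real.pi * Complex.I := by
  have hsum : ∀ F : ZMod 2 → ℂ, ∑ i : ZMod 2, F i = F 0 + F 1 := fun F => Fin.sum_univ_two F
  rw [hsum]
  have e0 : ∫ t in (0 : ℝ)..1, derivWithin (arcs 0) (Icc 0 1) t / (arcs 0 t - 0) =
      ∫ t in (0 : ℝ)..1, (-2 * ZV (1 - 2 * t)) / arcs 0 t := by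
    refine intervalIntegral.integral_congr fun t ht => ?_
    rw [uIcc_of_le zero_le_one] at ht
    simp only [sub_zero, arcs_velW_zero ht]
  have e1 : ∫ t in (0 : ℝ)..1, derivWithin (arcs 1) (Icc 0 1) t / (arcs 1 t - 0) =
      ∫ t in (0 : ℝ)..1, (2 * conj (ZV (2 * t - 1))) / arcs 1 t := by
    refine intervalIntegral.integral_congr fun t ht => ?_
    rw [uIcc_of_le zero_le_one] at ht
    simp only [sub_zero, arcs_velW_one ht]
  have hc := ZV_cont
  rw [e0, e1, log_ftc (arcs 0) (fun t => -2 * ZV (1 - 2 * t)) (-Complex.I) (by simp)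
      (fun t _ => arcs_zero_deriv t) (by fun_prop) ?_,
    log_ftc (arcs 1) (fun t => 2 * conj (ZV (2 * t - 1))) (Complex.I) (by simp)
      (fun t _ => arcs_one_deriv t) ?_ ?_]
  · rw [arcs_zero, arcs_one]
    norm_num
    rw [Z_one, Z_neg_one]
    simp only [map_neg, map_one, mul_neg, mul_one, neg_neg, Complex.log_I, Complex.log_neg_I]
    ring
  · exact (Continuous.mul continuous_const (Complex.continuous_conj.comp (by fun_prop))).continuousOn
  · intro t ht
    rw [arcs_one]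
    exact Z_slit' ⟨by linarith [ht.1], by linarith [ht.2]⟩
  · intro t ht
    rw [arcs_zero]
    exact Z_slit ⟨by linarith [ht.2], by linarith [ht.1]⟩

/-- the curve with two right-angled corners -/
noncomputable def Gam : NPDefs.CurvPolygon where
  n := 2
  pos := inferInstance
  arc := arcs
  smooth := fun i => ((arcs_smooth i).of_le (by norm_cast)).contDiffOn
  regular := by
    intro i t ht
    rcases zmod2 i with rfl | rfl
    · rw [arcs_velW_zero ht]
      exact mul_ne_zero (by norm_num) ZV_ne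
    · rw [arcs_velW_one ht]
      exact mul_ne_zero (by norm_num) ((map_ne_zero _).2 ZV_ne)
  closed := arcs_closed
  simple := arcs_simple
  oriented := by
    refine ⟨0, ?_, arcs_oriented⟩
    intro i t _
    rcases zmod2 i with rfl | rfl
    · rw [arcs_zero]
      exact Z_ne _
    · rw [arcs_one]
      exact (map_ne_zero _).2 (Z_ne _)

lemma Gam_vel_zero {τ : ℝ} (hτ : τ ∈ Icc (0 : ℝ) 1) : Gam.vel (0 : ZMod 2) τ = -2 * ZV (1 - 2 * τ) :=
  arcs_velW_zero hτ

lemma Gam_vel_one {τ : ℝ} (hτ : τ ∈ Icc (0 : ℝ) 1) : Gam.vel (1 : ZMod 2) τ = 2 * conj (ZV (2 * τ - 1)) :=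
  arcs_velW_one hτ

lemma ZD_one : ZD 1 = Complex.exp ((Real.pi / 8 : ℝ) * Complex.I) := by
  unfold ZD
  rw [hP_one, Complex.exp_mul_I, ← Complex.ofReal_cos, ← Complex.ofReal_sin, one_mul]

lemma ZD_neg_one : ZD (-1) = Complex.exp ((-(Real.pi / 8) : ℝ) * Complex.I) := by
  unfold ZD
  rw [hP_neg_one, Complex.exp_mul_I, ← Complex.ofReal_cos, ← Complex.ofReal_sin, Real.cos_neg,
    Real.sin_neg]
  push_cast
  ring

lemma ZV_one : ZV 1 = Complex.exp ((-(Real.pi / 4) : ℝ) * Complex.I) := by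
  unfold ZV
  rw [ZD_one, ← Complex.exp_nat_mul]
  have : (1 + ((deriv hP 1 : ℝ) : ℂ) * Complex.I * (1 - ((1 : ℝ) : ℂ) ^ 2)) = 1 := by
    push_cast; ring
  rw [this, one_div, ← Complex.exp_neg]
  congr 1
  push_cast
  ring

lemma ZV_neg_one : ZV (-1) = Complex.exp (((Real.pi / 4) : ℝ) * Complex.I) := by
  unfold ZV
  rw [ZD_neg_one, ← Complex.exp_nat_mul]
  have : (1 + ((deriv hP (-1) : ℝ) : ℂ) * Complex.I * (1 - ((-1 : ℝ) : ℂ) ^ 2)) = 1 := by
    push_cast; ring
  rw [this, one_div, ← Complex.exp_neg]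
  congr 1
  push_cast
  ring

lemma exp_half_pi : Complex.exp (((Real.pi / 2) : ℝ) * Complex.I) = Complex.I := by
  rw [Complex.exp_mul_I, ← Complex.ofReal_cos, ← Complex.ofReal_sin, Real.cos_pi_div_two,
    Real.sin_pi_div_two]
  simp

/-- both corners are right angles -/
theorem Gam_angle (i : ZMod 2) : Gam.interiorAngle i = Real.pi / 2 := by
  have m0 : (0 : ℝ) ∈ Icc (0 : ℝ) 1 := ⟨le_rfl, zero_le_one⟩
  have m1 : (1 : ℝ) ∈ Icc (0 : ℝ) 1 := ⟨zero_le_one, le_rfl⟩
  have key : Gam.vel (i + 1 : ZMod 2) 0 / Gam.vel (i : ZMod 2) 1 = Complex.I := by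
    rcases zmod2 i with rfl | rfl
    · rw [show (0 : ZMod 2) + 1 = 1 by decide, Gam_vel_one m0, Gam_vel_zero m1]
      have e1 : (2 * 0 - 1 : ℝ) = -1 := by norm_num
      have e2 : (1 - 2 * 1 : ℝ) = -1 := by norm_num
      rw [e1, e2, ZV_neg_one, ← Complex.exp_conj, map_mul, Complex.conj_I, Complex.conj_ofReal,
        mul_div_mul_comm, ← Complex.exp_sub]
      have e3 : ((Real.pi / 4 : ℝ) : ℂ) * -Complex.I - ((Real.pi / 4 : ℝ) : ℂ) * Complex.I =
        -(((Real.pi / 2 : ℝ) : ℂ) * Complex.I) := by push_cast; ring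
      rw [e3, Complex.exp_neg, exp_half_pi, Complex.inv_I]
      norm_num
    · rw [show (1 : ZMod 2) + 1 = 0 by decide, Gam_vel_one m1, Gam_vel_zero m0]
      have e1 : (2 * 1 - 1 : ℝ) = 1 := by norm_num
      have e2 : (1 - 2 * 0 : ℝ) = 1 := by norm_num
      rw [e1, e2, ZV_one, ← Complex.exp_conj, map_mul, Complex.conj_I, Complex.conj_ofReal,
        mul_div_mul_comm, ← Complex.exp_sub]
      have e3 : ((-(Real.pi / 4) : ℝ) : ℂ) * Complex.I - ((-(Real.pi / 4) : ℝ) : ℂ) * -Complex.I =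
        -(((Real.pi / 2 : ℝ) : ℂ) * Complex.I) := by push_cast; ring
      rw [e3, Complex.exp_neg, exp_half_pi, Complex.inv_I]
      norm_num
  show Real.pi - Complex.arg (Gam.vel (i + 1 : ZMod 2) 0 / Gam.vel (i : ZMod 2) 1) = Real.pi / 2
  rw [key, Complex.arg_I]
  ring

end Pool.Agent.TH268.NP
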