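import Pool.Agent.TH268.NP.Geo4

set_option autoImplicit false

/-!
# From the arcs to the strip
-/

open MeasureTheory Set Filter Topology
open scoped ENNReal NNReal ComplexConjugate ContDiff

namespace Pool.Agent.TH268.NP

/-- the explicit profile -/
noncomputable def psi0 (t : ℝ) : ℝ := Psi (Real.tanh (t / 2))

lemma tanh_sq (t : ℝ) : Real.tanh (t / 2) ^ 2 = (Real.cosh t - 1) / (Real.cosh t + 1) := by
  have h1 : Real.cosh t = 2 * Real.cosh (t / 2) ^ 2 - 1 := by
    have h := Real.cosh_two_mul (t / 2)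
    have h2 := Real.cosh_sq (t / 2)
    rw [show 2 * (t / 2) = t by ring] at h
    rw [h]
    linarith
  have h2 := Real.cosh_sq (t / 2)
  have h3 := (Real.cosh_pos (t / 2)).ne'
  rw [Real.tanh_eq_sinh_div_cosh, div_pow, h1]
  have h4 : (2 * Real.cosh (t / 2) ^ 2 - 1 + 1) ≠ 0 := by
    have := pow_pos (Real.cosh_pos (t / 2)) 2
    exact ne_of_gt (by linarith)
  field_simp
  linear_combination (-2 * Real.cosh (t / 2) ^ 2) * h2

lemma cosh_one_le' : Real.cosh 1 ≤ 5 / 3 := by
  rw [Real.cosh_eq]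
  have h1 := Real.exp_one_lt_d9
  have h2 : Real.exp (-1) < 0.4 := by
    rw [Real.exp_neg]
    have := Real.exp_one_gt_d9
    rw [inv_lt_comm₀ (by positivity) (by norm_num)]
    norm_num
    linarith
  norm_num at h2
  linarith

lemma tanh_smooth : ContDiff ℝ ∞ (fun t : ℝ => Real.tanh (t / 2)) := by
  have h1 : (fun t : ℝ => Real.tanh (t / 2)) = fun t => Real.sinh (t / 2) / Real.cosh (t / 2) := by
    ext t
    exact Real.tanh_eq_sinh_div_cosh _
  rw [h1]
  have h2 : ContDiff ℝ ∞ (fun t : ℝ => t / 2) := contDiff_id.div_const 2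
  exact h2.sinh.div h2.cosh (fun t => (Real.cosh_pos _).ne')

theorem prof0 : Prof psi0 where
  smooth := Psi_smooth.comp tanh_smooth
  lo := fun t => Psi_lo _
  hi := fun t => Psi_hi _
  mid := by
    intro t ht
    refine Psi_mid ?_
    rw [tanh_sq]
    have h1 : Real.cosh t ≤ 5 / 3 := by
      refine le_trans ?_ cosh_one_le'
      rw [Real.cosh_le_cosh, abs_one]
      exact ht
    have h2 := Real.one_le_cosh t
    rw [← mul_div_assoc, div_le_one (by linarith)]
    linarith
  far := by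
    intro t ht
    refine Psi_far ?_
    rw [tanh_sq]
    have h1 := cosh_ge t
    have h2 : (2 : ℝ) ^ 2 ≤ t ^ 2 := by
      rw [← sq_abs t]
      gcongr
    rw [← mul_div_assoc, le_div_iff₀ (by linarith)]
    linarith

lemma tanh_hasDeriv (s : ℝ) :
    HasDerivAt (fun t : ℝ => Real.tanh (t / 2)) (1 / (2 * Real.cosh (s / 2) ^ 2)) s := by
  have h1 : (fun t : ℝ => Real.tanh (t / 2)) = fun t => Real.sinh (t / 2) / Real.cosh (t / 2) := by
    ext t
    exact Real.tanh_eq_sinh_div_cosh _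
  rw [h1]
  have h2 : HasDerivAt (fun t : ℝ => t / 2) (1 / 2) s := (hasDerivAt_id s).div_const 2
  have h3 := (Real.cosh_pos (s / 2)).ne'
  refine (h2.sinh.div h2.cosh h3).congr_deriv ?_
  have h4 := Real.cosh_sq (s / 2)
  field_simp
  linear_combination h4

lemma Z_tanh (s : ℝ) : Z (Real.tanh (s / 2)) = zt psi0 s := by
  have h1 := (Real.cosh_pos (s / 2)).ne'
  have h1' : ((Real.cosh (s / 2) : ℝ) : ℂ) ≠ 0 := by exact_mod_cast h1
  have h2 : ((Real.cosh (s / 2) : ℝ) : ℂ) * ((Real.tanh (s / 2) : ℝ) : ℂ) = ((Real.sinh (s / 2) : ℝ) : ℂ) := by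
    have : Real.cosh (s / 2) * Real.tanh (s / 2) = Real.sinh (s / 2) := by
      rw [Real.tanh_eq_sinh_div_cosh]
      field_simp
    exact_mod_cast this
  have hP0 : hP (Real.tanh (s / 2)) = psi0 s / 2 := rfl
  have e1 : Complex.sinh (om psi0 s) = ((Real.cosh (s / 2) : ℝ) : ℂ) * ZN (Real.tanh (s / 2)) := by
    unfold om ZN
    rw [sinh_re_im, hP0]
    push_cast at h2 ⊢
    linear_combination -(Complex.cos ((psi0 s : ℂ) / 2)) * h2
  have e2 : Complex.cosh (om psi0 s) = ((Real.cosh (s / 2) : ℝ) : ℂ) * ZD (Real.tanh (s / 2)) := by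
    unfold om ZD
    rw [cosh_re_im, hP0]
    push_cast at h2 ⊢
    linear_combination -(Complex.sin ((psi0 s : ℂ) / 2)) * Complex.I * h2
  unfold Z zt
  rw [e1, e2, mul_div_mul_left _ _ h1']

/-- the reparametrisations -/
noncomputable def th (σ : ℝ) (s : ℝ) : ℝ := (1 + σ * Real.tanh (s / 2)) / 2

/-- the derivatives of the reparametrisations -/
noncomputable def thd (σ : ℝ) (s : ℝ) : ℝ := σ / (4 * Real.cosh (s / 2) ^ 2)

lemma th_hasDeriv (σ s : ℝ) : HasDerivAt (th σ) (thd σ s) s := by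
  have h1 := (((tanh_hasDeriv s).const_mul σ).const_add 1).div_const 2
  refine h1.congr_deriv ?_
  unfold thd
  have h3 := (Real.cosh_pos (s / 2)).ne'
  field_simp
  norm_num

lemma th_range {σ : ℝ} (hσ : σ = 1 ∨ σ = -1) : th σ '' univ = Ioo (0 : ℝ) 1 := by
  ext x
  simp only [image_univ, mem_range, mem_Ioo]
  constructor
  · rintro ⟨s, rfl⟩
    have h1 := Real.tanh_lt_one (s / 2)
    have h2 := Real.neg_one_lt_tanh (s / 2)
    unfold th
    rcases hσ with rfl | rfl
    · constructor <;> linarith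
    · constructor <;> linarith
  · rintro ⟨h0, h1⟩
    have hm : σ * (2 * x - 1) ∈ Ioo (-1 : ℝ) 1 := by
      rcases hσ with rfl | rfl
      · constructor <;> linarith
      · constructor <;> linarith
    refine ⟨2 * Real.artanh (σ * (2 * x - 1)), ?_⟩
    unfold th
    rw [show 2 * Real.artanh (σ * (2 * x - 1)) / 2 = Real.artanh (σ * (2 * x - 1)) by ring,
      Real.tanh_artanh hm]
    rcases hσ with rfl | rfl <;> ring

lemma th_inj {σ : ℝ} (hσ : σ = 1 ∨ σ = -1) : Function.Injective (th σ) := by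
  intro a b hab
  unfold th at hab
  have h1 : Real.tanh (a / 2) = Real.tanh (b / 2) := by
    rcases hσ with rfl | rfl <;> linarith
  have h2 := Real.tanh_injective h1
  linarith

lemma abs_thd {σ : ℝ} (hσ : σ = 1 ∨ σ = -1) (s : ℝ) : |thd σ s| = σ * thd σ s := by
  have h3 := Real.cosh_pos (s / 2)
  unfold thd
  rw [abs_div, abs_of_pos (by positivity : 0 < 4 * Real.cosh (s / 2) ^ 2)]
  rcases hσ with rfl | rfl
  · simp
  · simp; ring

/-- change of variables, lintegral -/
lemma lint_cov {σ : ℝ} (hσ : σ = 1 ∨ σ = -1) (F : ℝ → ℝ≥0∞) :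
    ∫⁻ t in Icc (0 : ℝ) 1, F t = ∫⁻ s, ENNReal.ofReal |thd σ s| * F (th σ s) := by
  have h1 := lintegral_image_eq_lintegral_abs_deriv_mul (s := univ) (f := th σ) (f' := thd σ)
    MeasurableSet.univ (fun s _ => (th_hasDeriv σ s).hasDerivWithinAt) (th_inj hσ).injOn F
  rw [th_range hσ, Measure.restrict_univ] at h1
  rw [← h1]
  exact setLIntegral_congr Ioo_ae_eq_Icc.symm

/-- change of variables, integral -/
lemma int_cov {σ : ℝ} (hσ : σ = 1 ∨ σ = -1) (F : ℝ → ℂ) :
    ∫ t in Icc (0 : ℝ) 1, F t = ∫ s, ((|thd σ s| : ℝ) : ℂ) * F (th σ s) := by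
  have h1 := integral_image_eq_integral_abs_deriv_smul (s := univ) (f := th σ) (f' := thd σ)
    MeasurableSet.univ (fun s _ => (th_hasDeriv σ s).hasDerivWithinAt) (th_inj hσ).injOn F
  rw [th_range hσ, Measure.restrict_univ] at h1
  rw [integral_Icc_eq_integral_Ioo, h1]
  simp only [Complex.real_smul]

/-- the arcs in the strip variable -/
noncomputable def ar (i : ZMod 2) (s : ℝ) : ℂ := if i = 0 then zt psi0 s else conj (zt psi0 s)

/-- the velocities in the strip variable -/
noncomputable def ard (i : ZMod 2) (s : ℝ) : ℂ := if i = 0 then zd psi0 s else conj (zd psi0 s)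

/-- the orientations -/
noncomputable def sg (i : ZMod 2) : ℝ := if i = 0 then -1 else 1

lemma sg_or (i : ZMod 2) : sg i = 1 ∨ sg i = -1 := by
  unfold sg; split_ifs <;> simp

lemma ar_eq (i : ZMod 2) (s : ℝ) : ar i s = arcs i (th (sg i) s) := by
  rcases zmod2 i with rfl | rfl
  · rw [arcs_zero]
    simp only [ar, sg, if_true, th]
    rw [← Z_tanh]
    congr 1; ring
  · rw [arcs_one]
    have : (1 : ZMod 2) ≠ 0 := by decide
    simp only [ar, sg, this, if_false, th]
    rw [← Z_tanh]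
    congr 2; ring

lemma arcs_hasDeriv (i : ZMod 2) {τ : ℝ} (hτ : τ ∈ Icc (0:ℝ) 1) :
    HasDerivAt (arcs i) (Gam.vel (i : ZMod 2) τ) τ := by
  rcases zmod2 i with rfl | rfl
  · rw [Gam_vel_zero hτ]; exact arcs_zero_deriv τ
  · rw [Gam_vel_one hτ]; exact arcs_one_deriv τ

lemma th_mem (i : ZMod 2) (s : ℝ) : th (sg i) s ∈ Icc (0:ℝ) 1 := by
  have h1 : th (sg i) s ∈ th (sg i) '' univ := mem_image_of_mem _ (mem_univ s)
  rw [th_range (sg_or i)] at h1
  exact Ioo_subset_Icc_self h1

lemma ar_hasDeriv (i : ZMod 2) (s : ℝ) : HasDerivAt (ar i) (ard i s) s := by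
  rcases zmod2 i with rfl | rfl
  · have h1 : ar 0 = zt psi0 := by ext s; simp [ar]
    have h2 : ard 0 = zd psi0 := by ext s; simp [ard]
    rw [h1, h2]
    exact prof0.zt_hasDeriv s
  · have h0 : (1 : ZMod 2) ≠ 0 := by decide
    have h1 : ar 1 = fun s => conj (zt psi0 s) := by ext s; simp [ar, h0]
    have h2 : ard 1 = fun s => conj (zd psi0 s) := by ext s; simp [ard, h0]
    rw [h1, h2]
    exact (Complex.conjCLE.hasFDerivAt (x := zt psi0 s)).comp_hasDerivAt s (prof0.zt_hasDeriv s)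

lemma ard_eq (i : ZMod 2) (s : ℝ) : ard i s = ((thd (sg i) s : ℝ) : ℂ) * Gam.vel (i : ZMod 2) (th (sg i) s) := by
  have h1 := (arcs_hasDeriv i (th_mem i s)).scomp s (th_hasDeriv (sg i) s)
  have h2 := ar_hasDeriv i s
  have h3 : ar i = arcs i ∘ th (sg i) := by
    ext s; exact ar_eq i s
  rw [h3] at h2
  have := h2.unique h1
  rw [this, Complex.real_smul]

lemma ar_inj (i : ZMod 2) : Function.Injective (ar i) := by
  rcases zmod2 i with rfl | rfl
  · intro a b hab
    simp only [ar, if_true] at hab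
    exact prof0.zt_inj hab
  · intro a b hab
    have h0 : (1 : ZMod 2) ≠ 0 := by decide
    simp only [ar, h0, if_false] at hab
    exact prof0.zt_inj ((starRingEnd ℂ).injective hab)

lemma ar_cont (i : ZMod 2) : Continuous (ar i) :=
  continuous_iff_continuousAt.2 fun s => (ar_hasDeriv i s).continuousAt

lemma ar_emb (i : ZMod 2) : MeasurableEmbedding (ar i) := (ar_cont i).measurableEmbedding (ar_inj i)

/-- the weight -/
noncomputable def wt (s : ℝ) : ℝ≥0∞ := ‖zd psi0 s‖ₑ

lemma norm_ard (i : ZMod 2) (s : ℝ) : ‖ard i s‖ = ‖zd psi0 s‖ := by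
  unfold ard
  split_ifs
  · rfl
  · exact Complex.norm_conj _

lemma enorm_ard (i : ZMod 2) (s : ℝ) : ‖ard i s‖ₑ = wt s := by
  rw [wt, ← ofReal_norm, ← ofReal_norm, norm_ard]

lemma zd_cont : Continuous (zd psi0) := by
  have h1 := prof0.dcont
  have h2 := prof0.cont
  unfold zd om
  refine Continuous.div ?_ ?_ ?_
  · have h3 : Continuous (fun T => ((deriv psi0 T : ℝ) : ℂ)) := Complex.continuous_ofReal.comp h1
    fun_prop
  · have h3 : Continuous (fun T => ((psi0 T / 2 : ℝ) : ℂ)) := Complex.continuous_ofReal.comp (by fun_prop)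
    have h4 : Continuous (fun T : ℝ => ((T / 2 : ℝ) : ℂ)) := Complex.continuous_ofReal.comp (by fun_prop)
    have h5 := Complex.continuous_cosh
    fun_prop
  · intro s
    exact mul_ne_zero two_ne_zero (pow_ne_zero 2 (prof0.cosh_om_ne s))

lemma wt_meas : Measurable wt := zd_cont.measurable.enorm

/-- the weighted measure on the strip variable -/
noncomputable def mu : Measure ℝ := volume.withDensity wt

lemma wt_eq (i : ZMod 2) (s : ℝ) : ENNReal.ofReal |thd (sg i) s| * ‖Gam.vel (i : ZMod 2) (th (sg i) s)‖ₑ = wt s := by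
  rw [← enorm_ard i s, ard_eq, enorm_mul]
  congr 1
  rw [← ofReal_norm, Complex.norm_real, Real.norm_eq_abs]

lemma vel_meas_aux (i : ZMod 2) : Measurable (Gam.vel (i : ZMod 2)) := by
  have hm : Measurable (fun t : ℝ => deriv (arcs i) t) := by
    have := (arcs_smooth i).continuous_deriv (by simp)
    exact this.measurable
  have h1 : Gam.vel (i : ZMod 2) = (Icc (0:ℝ) 1).piecewise (fun t => deriv (arcs i) t) (fun t => Gam.vel (i : ZMod 2) t) := by
    ext t
    by_cases ht : t ∈ Icc (0:ℝ) 1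
    · rw [piecewise_eq_of_mem _ _ _ ht, (arcs_hasDeriv i ht).deriv]
    · rw [piecewise_eq_of_notMem _ _ _ ht]
  have h2 : (fun t => Gam.vel (i : ZMod 2) t) = (Icc (0:ℝ) 1).piecewise (fun t => deriv (arcs i) t) 0 := by
    ext t
    by_cases ht : t ∈ Icc (0:ℝ) 1
    · rw [piecewise_eq_of_mem _ _ _ ht, (arcs_hasDeriv i ht).deriv]
    · rw [piecewise_eq_of_notMem _ _ _ ht]
      exact derivWithin_zero_of_notMem_closure (by rw [closure_Icc]; exact ht)
  have h3 : Gam.vel (i : ZMod 2) = (Icc (0:ℝ) 1).piecewise (fun t => deriv (arcs i) t) 0 := h2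
  rw [h3]
  exact hm.piecewise measurableSet_Icc measurable_zero

/-- the arc length of one arc -/
lemma map_arc (i : ZMod 2) : Measure.map (arcs i) ((volume.restrict (Icc (0 : ℝ) 1)).withDensity
    (fun t => ‖Gam.vel (i : ZMod 2) t‖ₑ)) = Measure.map (ar i) mu := by
  have hm : Measurable (arcs i) := (arcs_smooth i).continuous.measurable
  have hm2 : Measurable (ar i) := (ar_cont i).measurable
  ext A hA
  rw [Measure.map_apply hm hA, Measure.map_apply hm2 hA, mu, withDensity_apply _ (hm hA),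
    withDensity_apply _ (hm2 hA), ← lintegral_indicator (hm hA), ← lintegral_indicator (hm2 hA),
    lint_cov (sg_or i)]
  refine lintegral_congr fun s => ?_
  by_cases hs : ar i s ∈ A
  · have hs' : th (sg i) s ∈ arcs i ⁻¹' A := by
      rw [mem_preimage, ← ar_eq]; exact hs
    rw [indicator_of_mem hs', indicator_of_mem (show s ∈ ar i ⁻¹' A from hs), wt_eq]
  · have hs' : th (sg i) s ∉ arcs i ⁻¹' A := by
      rw [mem_preimage, ← ar_eq]; exact hs
    rw [indicator_of_notMem hs', indicator_of_notMem (show s ∉ ar i ⁻¹' A from hs), mul_zero]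

/-- the arc length measure of the curve -/
theorem arcLength_eq : Gam.arcLength = Measure.map (ar 0) mu + Measure.map (ar 1) mu := by
  have h : Gam.arcLength = ∑ i : ZMod 2, Measure.map (arcs i) ((volume.restrict (Icc (0 : ℝ) 1)).withDensity
    (fun t => ‖Gam.vel (i : ZMod 2) t‖ₑ)) := rfl
  rw [h, ← map_arc, ← map_arc]
  exact Fin.sum_univ_two _

end Pool.Agent.TH268.NP
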