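import Pool.Agent.TH268.NP.Geo5
import Pool.Agent.TH268.NP.Asm

set_option autoImplicit false

/-!
# The double layer operator on odd functions
-/

open MeasureTheory Set Filter Topology
open scoped ENNReal NNReal ComplexConjugate ContDiff

namespace Pool.Agent.TH268.NP

/-- odd extension of a function of the strip variable -/
noncomputable def oddExt (g : ℝ → ℝ) (z : ℂ) : ℂ :=
  if 0 < z.im then ((g (Real.log ‖(1 + z) / (1 - z)‖) : ℝ) : ℂ)
  else if z.im < 0 then -((g (Real.log ‖(1 + z) / (1 - z)‖) : ℝ) : ℂ) else 0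

lemma oddExt_ar (g : ℝ → ℝ) (i : ZMod 2) (s : ℝ) : oddExt g (ar i s) = -((sg i : ℝ) : ℂ) * ((g s : ℝ) : ℂ) := by
  have h1 := prof0.zt_im_pos s
  rcases zmod2 i with rfl | rfl
  · simp only [ar, sg, if_true, oddExt, h1, prof0.zt_log]
    push_cast; ring
  · have h0 : (1 : ZMod 2) ≠ 0 := by decide
    simp only [ar, sg, h0, if_false, oddExt, Complex.conj_im]
    rw [if_neg (by linarith), if_pos (by linarith), prof0.zt_log_conj]
    push_cast; ring

lemma oddExt_meas {g : ℝ → ℝ} (hg : Measurable g) : Measurable (oddExt g) := by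
  have h1 : Measurable (fun z : ℂ => ((g (Real.log ‖(1 + z) / (1 - z)‖) : ℝ) : ℂ)) := by
    refine Complex.measurable_ofReal.comp (hg.comp (Real.measurable_log.comp ?_))
    fun_prop
  unfold oddExt
  refine Measurable.ite (measurableSet_lt measurable_const Complex.measurable_im) h1 ?_
  exact Measurable.ite (measurableSet_lt Complex.measurable_im measurable_const) h1.neg measurable_const

/-- truncated integrals converge to the full integral -/
lemma pv_lim {h : ℝ → ℂ} (hh : Integrable h) {d : ℝ → ℝ} (hd : Measurable d)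
    (hd0 : ∀ᵐ s : ℝ, 0 < d s) :
    Tendsto (fun ε : ℝ => ∫ s in {s | ε < d s}, h s) (𝓝[>] 0) (𝓝 (∫ s, h s)) := by
  have h1 : ∀ ε : ℝ, ∫ s in {s | ε < d s}, h s = ∫ s, {s | ε < d s}.indicator h s := by
    intro ε
    rw [integral_indicator (measurableSet_lt measurable_const hd)]
  simp only [h1]
  refine tendsto_integral_filter_of_dominated_convergence (fun s => ‖h s‖) ?_ ?_ hh.norm ?_
  · refine Eventually.of_forall fun ε => ?_
    exact hh.aestronglyMeasurable.indicator (measurableSet_lt measurable_const hd)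
  · refine Eventually.of_forall fun ε => Eventually.of_forall fun s => ?_
    exact norm_indicator_le_norm_self _ _
  · filter_upwards [hd0] with s hs
    refine tendsto_const_nhds.congr' ?_
    have : ∀ᶠ ε : ℝ in 𝓝[>] 0, ε < d s := nhdsWithin_le_nhds (Iio_mem_nhds hs)
    filter_upwards [this] with ε hε
    rw [indicator_of_mem (show s ∈ {s | ε < d s} from hε)]

lemma inner_eq (w v : ℂ) : inner ℝ w (-Complex.I * v) / ‖w‖ ^ 2 = (v / w).im := by
  rw [← Complex.normSq_eq_norm_sq, Complex.div_im, Complex.inner]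
  simp only [Complex.mul_re, Complex.neg_re, Complex.neg_im, Complex.I_re, Complex.I_im,
    Complex.conj_re, Complex.conj_im, Complex.mul_im]
  ring

/-- the contribution of one arc to the truncated operator -/
lemma arc_trunc (g : ℝ → ℝ) (j : ZMod 2) (ε : ℝ) (x : ℂ) :
    ∫ t in {t | t ∈ Icc (0 : ℝ) 1 ∧ ε < ‖arcs j t - x‖},
      ((inner ℝ (arcs j t - x) (-Complex.I * Gam.vel (j : ZMod 2) t) / ‖arcs j t - x‖ ^ 2 : ℝ) : ℂ) *
        oddExt g (arcs j t) =
    ∫ s in {s | ε < ‖ar j s - x‖}, ((-((ard j s / (ar j s - x)).im * g s) : ℝ) : ℂ) := by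
  have hm : Measurable (arcs j) := (arcs_smooth j).continuous.measurable
  have hm2 : Measurable (ar j) := (ar_cont j).measurable
  have hS : MeasurableSet {t : ℝ | ε < ‖arcs j t - x‖} :=
    measurableSet_lt measurable_const (hm.sub measurable_const).norm
  have hS2 : MeasurableSet {t : ℝ | ε < ‖ar j t - x‖} :=
    measurableSet_lt measurable_const (hm2.sub measurable_const).norm
  have e1 : {t | t ∈ Icc (0 : ℝ) 1 ∧ ε < ‖arcs j t - x‖} = {t : ℝ | ε < ‖arcs j t - x‖} ∩ Icc (0:ℝ) 1 := by
    ext t; simp only [mem_ofPred_eq, mem_inter_iff]; tauto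
  rw [e1, ← Measure.restrict_restrict hS, ← integral_indicator hS, int_cov (sg_or j),
    ← integral_indicator hS2]
  refine integral_congr_ae (Eventually.of_forall fun s => ?_)
  simp only
  by_cases hs : ε < ‖ar j s - x‖
  · have hs' : th (sg j) s ∈ {t : ℝ | ε < ‖arcs j t - x‖} := by
      rw [mem_ofPred_eq, ← ar_eq]; exact hs
    rw [indicator_of_mem hs', indicator_of_mem (show s ∈ {s | ε < ‖ar j s - x‖} from hs), ← ar_eq,
      oddExt_ar, inner_eq, abs_thd (sg_or j)]
    have h1 : (ard j s / (ar j s - x)).im = thd (sg j) s * (Gam.vel (j : ZMod 2) (th (sg j) s) / (ar j s - x)).im := by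
      rw [ard_eq, mul_div_assoc, Complex.im_ofReal_mul]
    have h2 : sg j * sg j = 1 := by
      rcases sg_or j with h | h <;> rw [h] <;> norm_num
    have h3 : ((sg j : ℝ) : ℂ) * ((sg j : ℝ) : ℂ) = 1 := by exact_mod_cast h2
    rw [h1]
    push_cast
    linear_combination -((thd (sg j) s : ℝ) : ℂ) *
      (((Gam.vel (j : ZMod 2) (th (sg j) s) / (ar j s - x)).im : ℝ) : ℂ) * ((g s : ℝ) : ℂ) * h3
  · have hs' : th (sg j) s ∉ {t : ℝ | ε < ‖arcs j t - x‖} := by
      rw [mem_ofPred_eq, ← ar_eq]; exact hs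
    rw [indicator_of_notMem hs', indicator_of_notMem (show s ∉ {s | ε < ‖ar j s - x‖} from hs), mul_zero]

/-- the truncated operator in the strip variable -/
lemma trunc_eq (g : ℝ → ℝ) (ε : ℝ) (x : ℂ) : Gam.trunc ε (oddExt g) x =
    1 / (2 * Real.pi) * ((∫ s in {s | ε < ‖ar 0 s - x‖}, ((-((ard 0 s / (ar 0 s - x)).im * g s) : ℝ) : ℂ)) +
      ∫ s in {s | ε < ‖ar 1 s - x‖}, ((-((ard 1 s / (ar 1 s - x)).im * g s) : ℝ) : ℂ)) := by
  rw [← arc_trunc, ← arc_trunc]
  unfold NPDefs.CurvPolygon.trunc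
  congr 1
  exact Fin.sum_univ_two _

lemma ae_ne (t : ℝ) : ∀ᵐ s : ℝ, s ≠ t := by
  rw [ae_iff]
  simp

lemma ar_im (i : ZMod 2) (s : ℝ) : (ar i s).im = -(sg i) * (zt psi0 s).im := by
  rcases zmod2 i with rfl | rfl
  · simp only [ar, sg, if_true]; ring
  · have h0 : (1 : ZMod 2) ≠ 0 := by decide
    simp only [ar, sg, h0, if_false, Complex.conj_im]; ring

/-- the distance to the other arc -/
lemma ar_far {i j : ZMod 2} (hij : i ≠ j) (s t : ℝ) : (zt psi0 t).im ≤ ‖ar j s - ar i t‖ := by
  have h1 : |(ar j s - ar i t).im| ≤ ‖ar j s - ar i t‖ := Complex.abs_im_le_norm _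
  refine le_trans ?_ h1
  rw [Complex.sub_im, ar_im, ar_im]
  have h2 := prof0.zt_im_pos s
  have h3 := prof0.zt_im_pos t
  rcases zmod2 i with rfl | rfl <;> rcases zmod2 j with rfl | rfl
  · exact absurd rfl hij
  · have h0 : (1 : ZMod 2) ≠ 0 := by decide
    simp only [sg, h0, if_false, if_true]
    rw [abs_of_neg (by linarith)]
    linarith
  · have h0 : (1 : ZMod 2) ≠ 0 := by decide
    simp only [sg, h0, if_false, if_true]
    rw [abs_of_pos (by linarith)]
    linarith
  · exact absurd rfl hij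

lemma memLp_inv_cosh (t C : ℝ) : MemLp (fun s : ℝ => C / Real.cosh (s - t)) 2 volume := by
  have hc : Continuous (fun s : ℝ => C / Real.cosh (s - t)) := by
    have := Real.continuous_cosh
    have h0 : ∀ s, Real.cosh (s - t) ≠ 0 := fun s => (Real.cosh_pos _).ne'
    fun_prop (disch := exact h0 _)
  refine MemLp.mono (memLp_exp_abs (2 * C) t) hc.aestronglyMeasurable ?_
  refine Eventually.of_forall fun s => ?_
  have hp := Real.cosh_pos (s - t)
  have hle := inv_cosh_le (s - t)
  rw [Real.norm_eq_abs, Real.norm_eq_abs, abs_div, abs_of_pos hp, abs_mul, abs_mul,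
    abs_of_pos (Real.exp_pos _), abs_of_pos (by norm_num : (0:ℝ) < 2), abs_sub_comm t s]
  calc |C| / Real.cosh (s - t) = |C| * (1 / Real.cosh (s - t)) := by ring
    _ ≤ |C| * (2 * Real.exp (-|s - t|)) := by gcongr
    _ = _ := by ring

lemma im_meas (j : ZMod 2) (x : ℂ) : Measurable (fun s => (ard j s / (ar j s - x)).im) := by
  have h1 : Measurable (ard j) := by
    rcases zmod2 j with rfl | rfl
    · have : ard 0 = zd psi0 := by ext s; simp [ard]
      rw [this]; exact zd_cont.measurable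
    · have h0 : (1 : ZMod 2) ≠ 0 := by decide
      have : ard 1 = fun s => conj (zd psi0 s) := by ext s; simp [ard, h0]
      rw [this]; exact (Complex.continuous_conj.comp zd_cont).measurable
  have h2 : Measurable (ar j) := (ar_cont j).measurable
  exact Complex.measurable_im.comp (h1.div (h2.sub measurable_const))

/-- the part of the other arc is integrable -/
lemma far_integrable {g : ℝ → ℝ} (hg : Measurable g) (hg2 : MemLp g 2 volume) {i j : ZMod 2}
    (hij : i ≠ j) (t : ℝ) : Integrable (fun s => (ard j s / (ar j s - ar i t)).im * g s) := by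
  obtain ⟨M, hM0, hM⟩ := prof0.zd_le
  have hd := prof0.zt_im_pos t
  have h1 : MemLp (fun s : ℝ => (M / (zt psi0 t).im) / Real.cosh (s - 0)) 2 volume := memLp_inv_cosh 0 _
  have h2 : Integrable (fun s => ((M / (zt psi0 t).im) / Real.cosh (s - 0)) * g s) := h1.integrable_mul hg2
  refine h2.norm.mono' (((im_meas j _).mul hg).aestronglyMeasurable) ?_
  refine Eventually.of_forall fun s => ?_
  rw [norm_mul, norm_mul]
  refine mul_le_mul_of_nonneg_right ?_ (norm_nonneg _)
  rw [Real.norm_eq_abs, Real.norm_eq_abs, sub_zero]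
  refine le_trans (Complex.abs_im_le_norm _) ?_
  rw [norm_div, norm_ard]
  have h3 := hM s
  have h4 := ar_far hij s t
  have hc := Real.cosh_pos s
  rw [abs_of_nonneg (by positivity)]
  calc ‖zd psi0 s‖ / ‖ar j s - ar i t‖ ≤ (M / Real.cosh s) / (zt psi0 t).im := by gcongr
    _ = _ := by ring

/-- the kernel identity -/
lemma sum_kernel (i : ZMod 2) {s t : ℝ} (hst : s ≠ t) :
    (ard 0 s / (ar 0 s - ar i t)).im + (ard 1 s / (ar 1 s - ar i t)).im =
      (2 * Real.pi) * (sg i) * kk psi0 t s := by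
  have hk := prof0.kernel_eq hst
  have hpi := Real.pi_pos.ne'
  have hk' : (zd psi0 s / (zt psi0 s - zt psi0 t)).im +
      (conj (zd psi0 s) / (conj (zt psi0 s) - zt psi0 t)).im = -(2 * Real.pi) * kk psi0 t s := by
    rw [← hk]
    field_simp
  have h0 : (1 : ZMod 2) ≠ 0 := by decide
  rcases zmod2 i with rfl | rfl
  · simp only [ar, ard, sg, h0, if_true, if_false]
    rw [hk']; ring
  · simp only [ar, ard, sg, h0, if_true, if_false]
    have e1 : (zd psi0 s / (zt psi0 s - conj (zt psi0 t))).im =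
        -(conj (zd psi0 s) / (conj (zt psi0 s) - zt psi0 t)).im := by
      rw [← Complex.conj_im]
      congr 1
      simp
    have e2 : (conj (zd psi0 s) / (conj (zt psi0 s) - conj (zt psi0 t))).im =
        -(zd psi0 s / (zt psi0 s - zt psi0 t)).im := by
      rw [← Complex.conj_im]
      congr 1
      simp
    rw [e1, e2]
    linear_combination -hk'

lemma kk_integrable {g : ℝ → ℝ} (hg : Measurable g) (hg2 : MemLp g 2 volume) (t : ℝ) :
    Integrable (fun s => kk psi0 t s * g s) := by
  obtain ⟨C, hC0, hC⟩ := prof0.kk_le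
  have h1 : MemLp (fun s : ℝ => C / Real.cosh (s - t)) 2 volume := memLp_inv_cosh t _
  have h2 : Integrable (fun s => (C / Real.cosh (s - t)) * g s) := h1.integrable_mul hg2
  refine h2.norm.mono' (((Ker.meas_left prof0.kk_meas t).mul hg).aestronglyMeasurable) ?_
  refine Eventually.of_forall fun s => ?_
  rw [norm_mul, norm_mul]
  refine mul_le_mul_of_nonneg_right ?_ (norm_nonneg _)
  have hc := Real.cosh_pos (s - t)
  have e : Real.cosh (t - s) = Real.cosh (s - t) := by
    rw [← Real.cosh_neg]; congr 1; ring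
  have := hC t s
  rw [e] at this
  rw [Real.norm_eq_abs, Real.norm_eq_abs, abs_of_nonneg (by positivity : 0 ≤ C / Real.cosh (s - t))]
  exact this

/-- both parts are integrable -/
lemma part_integrable {g : ℝ → ℝ} (hg : Measurable g) (hg2 : MemLp g 2 volume) (i j : ZMod 2) (t : ℝ) :
    Integrable (fun s => (ard j s / (ar j s - ar i t)).im * g s) := by
  by_cases hij : i = j
  · subst hij
    have h1 := (kk_integrable hg hg2 t).const_mul ((2 * Real.pi) * (sg i))
    have hother : ∃ j : ZMod 2, i ≠ j ∧ ∀ s, s ≠ t → (ard i s / (ar i s - ar i t)).im =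
        (2 * Real.pi) * (sg i) * kk psi0 t s - (ard j s / (ar j s - ar i t)).im := by
      rcases zmod2 i with rfl | rfl
      · exact ⟨1, by decide, fun s hs => by rw [← sum_kernel 0 hs]; ring⟩
      · exact ⟨0, by decide, fun s hs => by rw [← sum_kernel 1 hs]; ring⟩
    obtain ⟨j, hj, hjs⟩ := hother
    refine (h1.sub (far_integrable hg hg2 hj t)).congr ?_
    filter_upwards [ae_ne t] with s hs
    simp only [Pi.sub_apply]
    rw [hjs s hs]
    ring
  · exact far_integrable hg hg2 hij t

lemma ar_dist_pos (i j : ZMod 2) (t : ℝ) : ∀ᵐ s : ℝ, 0 < ‖ar j s - ar i t‖ := by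
  by_cases hij : i = j
  · subst hij
    filter_upwards [ae_ne t] with s hs
    rw [norm_pos_iff, sub_ne_zero]
    exact fun h => hs (ar_inj i h)
  · exact Eventually.of_forall fun s => lt_of_lt_of_le (prof0.zt_im_pos t) (ar_far hij s t)

/-- the principal value -/
theorem trunc_tendsto {g : ℝ → ℝ} (hg : Measurable g) (hg2 : MemLp g 2 volume) (i : ZMod 2) (t : ℝ) :
    Tendsto (fun ε => Gam.trunc ε (oddExt g) (ar i t)) (𝓝[>] 0)
      (𝓝 (((-(sg i) * ∫ s, kk psi0 t s * g s : ℝ)) : ℂ)) := by
  have hI : ∀ j : ZMod 2, Integrable (fun s => ((-((ard j s / (ar j s - ar i t)).im * g s) : ℝ) : ℂ)) :=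
    fun j => ((part_integrable hg hg2 i j t).neg).ofReal
  have hL : ∀ j : ZMod 2, Tendsto (fun ε : ℝ => ∫ s in {s | ε < ‖ar j s - ar i t‖},
      ((-((ard j s / (ar j s - ar i t)).im * g s) : ℝ) : ℂ)) (𝓝[>] 0)
      (𝓝 (∫ s, ((-((ard j s / (ar j s - ar i t)).im * g s) : ℝ) : ℂ))) := by
    intro j
    exact pv_lim (hI j) (((ar_cont j).measurable.sub measurable_const).norm) (ar_dist_pos i j t)
  simp only [trunc_eq]
  have h1 := ((hL 0).add (hL 1)).const_mul (1 / (2 * Real.pi) : ℂ)
  refine (tendsto_congr (fun ε => rfl)).1 ?_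
  convert h1 using 2
  rw [← integral_add (hI 0) (hI 1)]
  have h2 : ∫ s, (((-((ard 0 s / (ar 0 s - ar i t)).im * g s) : ℝ) : ℂ) +
      ((-((ard 1 s / (ar 1 s - ar i t)).im * g s) : ℝ) : ℂ)) =
      ∫ s, (((-(2 * Real.pi) * sg i) * (kk psi0 t s * g s) : ℝ) : ℂ) := by
    refine integral_congr_ae ?_
    filter_upwards [ae_ne t] with s hs
    rw [← Complex.ofReal_add]
    congr 1
    linear_combination -(g s) * sum_kernel i hs
  rw [h2, integral_complex_ofReal, integral_const_mul]
  have hpi : (Real.pi : ℂ) ≠ 0 := by exact_mod_cast Real.pi_pos.ne'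
  push_cast
  field_simp

end Pool.Agent.TH268.NP
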