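import Pool.Agent.TH268.NP.Geo6

set_option autoImplicit false

/-!
# Membership in `H^{1/2}`
-/

open MeasureTheory Set Filter Topology
open scoped ENNReal NNReal ComplexConjugate ContDiff

namespace Pool.Agent.TH268.NP

lemma lint_sigma (G : ℂ → ℝ≥0∞) : ∫⁻ x, G x ∂Gam.arcLength =
    ∫⁻ s, G (ar 0 s) ∂mu + ∫⁻ s, G (ar 1 s) ∂mu := by
  rw [arcLength_eq, lintegral_add_measure, (ar_emb 0).lintegral_map, (ar_emb 1).lintegral_map]

instance : SFinite mu := by unfold mu; infer_instance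

lemma lint_mu_le (G : ℝ → ℝ≥0∞) : ∫⁻ s, G s ∂mu ≤ ∫⁻ s, wt s * G s :=
  lintegral_withDensity_le_lintegral_mul volume wt_meas G

/-- the bound of the speeds -/
lemma one_add_le : ∃ M : ℝ, 0 ≤ M ∧ ∀ s, ‖(1 + ((deriv psi0 s : ℝ) : ℂ) * Complex.I)‖ ≤ M := by
  obtain ⟨M, hM0, hM⟩ := prof0.deriv_bdd
  refine ⟨1 + M, by positivity, fun t => ?_⟩
  refine (norm_add_le _ _).trans ?_
  rw [norm_one, norm_mul, Complex.norm_I, mul_one, Complex.norm_real, Real.norm_eq_abs]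
  have := hM t
  linarith

lemma enorm_sq (x : ℂ) : ‖x‖ₑ ^ 2 = ENNReal.ofReal (‖x‖ ^ 2) := by
  rw [← ofReal_norm, ENNReal.ofReal_pow (norm_nonneg _)]

lemma enorm_sq' (x : ℝ) : ‖x‖ₑ ^ 2 = ENNReal.ofReal (x ^ 2) := by
  rw [← ofReal_norm, ← ENNReal.ofReal_pow (norm_nonneg _), Real.norm_eq_abs, sq_abs]

/-- the near part -/
noncomputable def Pn (g : ℝ → ℝ) (s t : ℝ) : ℝ≥0∞ :=
  (Icc (-1 : ℝ) 1).indicator (fun δ => ‖g (s + δ) - g s‖ₑ ^ 2 / ‖δ‖ₑ ^ 2) (t - s)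

/-- the far part -/
noncomputable def Qf (g : ℝ → ℝ) (s t : ℝ) : ℝ≥0∞ :=
  (‖g s‖ₑ ^ 2 + ‖g t‖ₑ ^ 2) * ENNReal.ofReal (1 / Real.cosh (s - t))

/-- the pointwise bound -/
lemma energy_le : ∃ K : ℝ, 0 ≤ K ∧ ∀ (g : ℝ → ℝ) (i j : ZMod 2) (s t : ℝ),
    wt s * (wt t * (‖oddExt g (ar i s) - oddExt g (ar j t)‖ₑ ^ 2 / ‖ar i s - ar j t‖ₑ ^ 2)) ≤
      ENNReal.ofReal K * (Pn g s t + Qf g s t) := by
  obtain ⟨M, hM0, hM⟩ := one_add_le
  refine ⟨3 * M ^ 2, by positivity, fun g i j s t => ?_⟩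
  rcases eq_or_ne (ar i s) (ar j t) with heq | hne
  · rw [heq]; simp
  have hpos : 0 < ‖ar i s - ar j t‖ := norm_pos_iff.2 (sub_ne_zero.2 hne)
  have e1 : wt s * (wt t * (‖oddExt g (ar i s) - oddExt g (ar j t)‖ₑ ^ 2 / ‖ar i s - ar j t‖ₑ ^ 2)) =
      ENNReal.ofReal (‖zd psi0 s‖ * ‖zd psi0 t‖ *
        (‖oddExt g (ar i s) - oddExt g (ar j t)‖ ^ 2 / ‖ar i s - ar j t‖ ^ 2)) := by
    rw [enorm_sq, enorm_sq, ← ENNReal.ofReal_div_of_pos (by positivity), wt, wt, ← ofReal_norm,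
      ← ofReal_norm, ← ENNReal.ofReal_mul (norm_nonneg _), ← ENNReal.ofReal_mul (norm_nonneg _)]
    congr 1
    ring
  rw [e1]
  have hn : ‖(1 + ((deriv psi0 s : ℝ) : ℂ) * Complex.I)‖ *
      ‖(1 + ((deriv psi0 t : ℝ) : ℂ) * Complex.I)‖ ≤ M ^ 2 := by
    rw [sq]
    exact mul_le_mul (hM s) (hM t) (norm_nonneg _) hM0
  have hcp := Real.cosh_pos (s - t)
  -- the far part as a real number
  have hQ : ENNReal.ofReal ((g s ^ 2 + g t ^ 2) * (1 / Real.cosh (s - t))) = Qf g s t := by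
    rw [Qf, ENNReal.ofReal_mul (by positivity), ENNReal.ofReal_add (sq_nonneg _) (sq_nonneg _),
      enorm_sq', enorm_sq']
  by_cases hij : i = j
  · subst hij
    have hst : s ≠ t := fun h => hne (by rw [h])
    have hDm := Dm_pos psi0 hst
    have d1 : ‖zd psi0 s‖ * ‖zd psi0 t‖ / ‖ar i s - ar i t‖ ^ 2 ≤ M ^ 2 / (2 * Dm psi0 s t) := by
      have hd := prof0.dist_same s t
      have e2 : ‖ar i s - ar i t‖ = ‖zt psi0 s - zt psi0 t‖ := by
        unfold ar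
        split_ifs
        · rfl
        · rw [← map_sub, Complex.norm_conj]
      rw [← e2] at hd
      rw [div_le_div_iff₀ (by positivity) (by positivity), hd, mul_comm (M ^ 2)]
      gcongr
    have e3 : ‖oddExt g (ar i s) - oddExt g (ar i t)‖ ^ 2 = (g s - g t) ^ 2 := by
      rw [oddExt_ar, oddExt_ar, ← mul_sub, norm_mul, ← Complex.ofReal_sub, norm_neg,
        Complex.norm_real, Complex.norm_real, Real.norm_eq_abs, Real.norm_eq_abs]
      have : |sg i| = 1 := by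
        rcases sg_or i with h | h <;> rw [h] <;> norm_num
      rw [this, one_mul, sq_abs]
    rw [e3]
    have e4 : ‖zd psi0 s‖ * ‖zd psi0 t‖ * ((g s - g t) ^ 2 / ‖ar i s - ar i t‖ ^ 2) =
        (‖zd psi0 s‖ * ‖zd psi0 t‖ / ‖ar i s - ar i t‖ ^ 2) * (g s - g t) ^ 2 := by ring
    rw [e4]
    rcases le_total |t - s| 1 with hu | hu
    · have hmem : t - s ∈ Icc (-1 : ℝ) 1 := abs_le.1 hu
      have hD2 : (t - s) ^ 2 ≤ 2 * Dm psi0 s t := by
        have h1 := (cosh_sub_one_ge (s - t)).trans (Dm_ge psi0 s t)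
        nlinarith
      have hts : 0 < (t - s) ^ 2 := by
        have : t - s ≠ 0 := sub_ne_zero.2 (Ne.symm hst)
        positivity
      have hP : ENNReal.ofReal ((g t - g s) ^ 2 / (t - s) ^ 2) = Pn g s t := by
        rw [Pn, indicator_of_mem hmem, enorm_sq', enorm_sq', ← ENNReal.ofReal_div_of_pos hts]
        congr 3
        congr 2
        ring
      calc ENNReal.ofReal (‖zd psi0 s‖ * ‖zd psi0 t‖ / ‖ar i s - ar i t‖ ^ 2 * (g s - g t) ^ 2)
          ≤ ENNReal.ofReal (3 * M ^ 2 * ((g t - g s) ^ 2 / (t - s) ^ 2)) := by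
            refine ENNReal.ofReal_le_ofReal ?_
            calc _ ≤ M ^ 2 / (2 * Dm psi0 s t) * (g s - g t) ^ 2 := by gcongr
              _ ≤ M ^ 2 / (t - s) ^ 2 * (g s - g t) ^ 2 := by gcongr
              _ = 1 * (M ^ 2 * ((g t - g s) ^ 2 / (t - s) ^ 2)) := by ring
              _ ≤ 3 * (M ^ 2 * ((g t - g s) ^ 2 / (t - s) ^ 2)) := by gcongr; norm_num
              _ = _ := by ring
        _ = ENNReal.ofReal (3 * M ^ 2) * Pn g s t := by
            rw [ENNReal.ofReal_mul (by positivity), hP]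
        _ ≤ _ := by gcongr; exact le_self_add
    · have hD2 : Real.cosh (s - t) / 3 ≤ Dm psi0 s t := by
        refine (cosh_third ?_).trans (Dm_ge psi0 s t)
        rwa [abs_sub_comm]
      calc ENNReal.ofReal (‖zd psi0 s‖ * ‖zd psi0 t‖ / ‖ar i s - ar i t‖ ^ 2 * (g s - g t) ^ 2)
          ≤ ENNReal.ofReal (3 * M ^ 2 * ((g s ^ 2 + g t ^ 2) * (1 / Real.cosh (s - t)))) := by
            refine ENNReal.ofReal_le_ofReal ?_
            calc _ ≤ M ^ 2 / (2 * Dm psi0 s t) * (g s - g t) ^ 2 := by gcongr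
              _ ≤ M ^ 2 / (2 * (Real.cosh (s - t) / 3)) * (2 * (g s ^ 2 + g t ^ 2)) := by
                gcongr
                nlinarith [sq_nonneg (g s + g t)]
              _ = _ := by field_simp
        _ = ENNReal.ofReal (3 * M ^ 2) * Qf g s t := by
            rw [ENNReal.ofReal_mul (by positivity), hQ]
        _ ≤ _ := by gcongr; exact le_add_self
  · have d1 : ‖zd psi0 s‖ * ‖zd psi0 t‖ / ‖ar i s - ar j t‖ ^ 2 ≤ M ^ 2 / (2 * Dp psi0 s t) := by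
      have hd := prof0.dist_conj s t
      have e2 : ‖ar i s - ar j t‖ = ‖conj (zt psi0 s) - zt psi0 t‖ := by
        have h0 : (1 : ZMod 2) ≠ 0 := by decide
        rcases zmod2 i with rfl | rfl <;> rcases zmod2 j with rfl | rfl
        · exact absurd rfl hij
        · simp only [ar, h0, if_true, if_false]
          rw [← Complex.norm_conj, map_sub, Complex.conj_conj]
        · simp only [ar, h0, if_true, if_false]
        · exact absurd rfl hij
      rw [← e2] at hd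
      have hDp := prof0.Dp_pos s t
      rw [div_le_div_iff₀ (by positivity) (by positivity), hd, mul_comm (M ^ 2)]
      gcongr
    have e3 : ‖oddExt g (ar i s) - oddExt g (ar j t)‖ ^ 2 = (g s + g t) ^ 2 := by
      rw [oddExt_ar, oddExt_ar]
      have hsg : sg j = -sg i := by
        have h0 : (1 : ZMod 2) ≠ 0 := by decide
        rcases zmod2 i with rfl | rfl <;> rcases zmod2 j with rfl | rfl
        · exact absurd rfl hij
        · simp [sg, h0]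
        · simp [sg, h0]
        · exact absurd rfl hij
      have e5 : -((sg i : ℝ) : ℂ) * ((g s : ℝ) : ℂ) - -((sg j : ℝ) : ℂ) * ((g t : ℝ) : ℂ) =
          ((-(sg i) * (g s + g t) : ℝ) : ℂ) := by
        rw [hsg]; push_cast; ring
      rw [e5, Complex.norm_real, Real.norm_eq_abs, sq_abs, mul_pow]
      have : (-sg i) ^ 2 = 1 := by
        rcases sg_or i with h | h <;> rw [h] <;> norm_num
      rw [this, one_mul]
    rw [e3]
    have hDp2 := prof0.Dp_ge s t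
    have hDp := prof0.Dp_pos s t
    calc ENNReal.ofReal (‖zd psi0 s‖ * ‖zd psi0 t‖ * ((g s + g t) ^ 2 / ‖ar i s - ar j t‖ ^ 2))
          ≤ ENNReal.ofReal (3 * M ^ 2 * ((g s ^ 2 + g t ^ 2) * (1 / Real.cosh (s - t)))) := by
            refine ENNReal.ofReal_le_ofReal ?_
            calc _ = (‖zd psi0 s‖ * ‖zd psi0 t‖ / ‖ar i s - ar j t‖ ^ 2) * (g s + g t) ^ 2 := by ring
              _ ≤ M ^ 2 / (2 * Dp psi0 s t) * (g s + g t) ^ 2 := by gcongr
              _ ≤ M ^ 2 / (2 * Real.cosh (s - t)) * (2 * (g s ^ 2 + g t ^ 2)) := by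
                gcongr
                nlinarith [sq_nonneg (g s - g t)]
              _ = 1 * (M ^ 2 * ((g s ^ 2 + g t ^ 2) * (1 / Real.cosh (s - t)))) := by field_simp
              _ ≤ 3 * (M ^ 2 * ((g s ^ 2 + g t ^ 2) * (1 / Real.cosh (s - t)))) := by gcongr; norm_num
              _ = _ := by ring
        _ = ENNReal.ofReal (3 * M ^ 2) * Qf g s t := by
            rw [ENNReal.ofReal_mul (by positivity), hQ]
        _ ≤ _ := by gcongr; exact le_add_self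

lemma lint_sq_lt {g : ℝ → ℝ} (hg2 : MemLp g 2 volume) : ∫⁻ s, ‖g s‖ₑ ^ 2 < ⊤ := by
  have h2 := hg2.integrable_sq.2
  rw [HasFiniteIntegral] at h2
  simpa [enorm_pow] using h2

lemma cosh_lint : ∫⁻ u : ℝ, ENNReal.ofReal (1 / Real.cosh u) < ⊤ := by
  rw [← ofReal_integral_eq_lintegral_ofReal integrable_inv_cosh
    (Eventually.of_forall fun u => by have := Real.cosh_pos u; positivity)]
  exact ENNReal.ofReal_lt_top

/-- the far part is finite -/
lemma far_finite {g : ℝ → ℝ} (hg : Measurable g) (hg2 : MemLp g 2 volume) :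
    ∫⁻ s, ∫⁻ t, Qf g s t < ⊤ := by
  have hc : Measurable (fun u : ℝ => ENNReal.ofReal (1 / Real.cosh u)) := by
    have := Real.continuous_cosh.measurable
    fun_prop
  have hgs : Measurable (fun s : ℝ => ‖g s‖ₑ ^ 2) := hg.enorm.pow_const 2
  have m1 : Measurable (fun p : ℝ × ℝ => ‖g p.1‖ₑ ^ 2 * ENNReal.ofReal (1 / Real.cosh (p.1 - p.2))) :=
    (hgs.comp measurable_fst).mul (hc.comp (measurable_fst.sub measurable_snd))
  have m2 : Measurable (fun p : ℝ × ℝ => ‖g p.2‖ₑ ^ 2 * ENNReal.ofReal (1 / Real.cosh (p.1 - p.2))) :=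
    (hgs.comp measurable_snd).mul (hc.comp (measurable_fst.sub measurable_snd))
  have e1 : ∫⁻ s, ∫⁻ t, Qf g s t =
      (∫⁻ s, ∫⁻ t, ‖g s‖ₑ ^ 2 * ENNReal.ofReal (1 / Real.cosh (s - t))) +
      (∫⁻ s, ∫⁻ t, ‖g t‖ₑ ^ 2 * ENNReal.ofReal (1 / Real.cosh (s - t))) := by
    have M1 : Measurable (fun s => ∫⁻ t, ‖g s‖ₑ ^ 2 * ENNReal.ofReal (1 / Real.cosh (s - t))) :=
      Measurable.lintegral_prod_right' m1
    rw [← lintegral_add_left M1]
    refine lintegral_congr fun s => ?_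
    have M2 : Measurable (fun t => ‖g s‖ₑ ^ 2 * ENNReal.ofReal (1 / Real.cosh (s - t))) :=
      (hc.comp (measurable_const.sub measurable_id)).const_mul _
    rw [← lintegral_add_left M2]
    refine lintegral_congr fun t => ?_
    rw [Qf, add_mul]
  rw [e1]
  have f1 : ∫⁻ s, ∫⁻ t, ‖g s‖ₑ ^ 2 * ENNReal.ofReal (1 / Real.cosh (s - t)) < ⊤ := by
    have : ∀ s, ∫⁻ t, ‖g s‖ₑ ^ 2 * ENNReal.ofReal (1 / Real.cosh (s - t)) =
        ‖g s‖ₑ ^ 2 * ∫⁻ u : ℝ, ENNReal.ofReal (1 / Real.cosh u) := by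
      intro s
      have hm : Measurable (fun t => ENNReal.ofReal (1 / Real.cosh (s - t))) :=
        hc.comp (measurable_const.sub measurable_id)
      rw [lintegral_const_mul _ hm,
        lintegral_sub_left_eq_self (fun u => ENNReal.ofReal (1 / Real.cosh u)) s]
    simp only [this]
    rw [lintegral_mul_const _ hgs]
    exact ENNReal.mul_lt_top (lint_sq_lt hg2) cosh_lint
  have f2 : ∫⁻ s, ∫⁻ t, ‖g t‖ₑ ^ 2 * ENNReal.ofReal (1 / Real.cosh (s - t)) < ⊤ := by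
    rw [lintegral_lintegral_swap m2.aemeasurable]
    have : ∀ t, ∫⁻ s, ‖g t‖ₑ ^ 2 * ENNReal.ofReal (1 / Real.cosh (s - t)) =
        ‖g t‖ₑ ^ 2 * ∫⁻ u : ℝ, ENNReal.ofReal (1 / Real.cosh u) := by
      intro t
      have hm : Measurable (fun s => ENNReal.ofReal (1 / Real.cosh (s - t))) :=
        hc.comp (measurable_id.sub measurable_const)
      rw [lintegral_const_mul _ hm,
        lintegral_sub_right_eq_self (fun u => ENNReal.ofReal (1 / Real.cosh u)) t]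
    simp only [this]
    rw [lintegral_mul_const _ hgs]
    exact ENNReal.mul_lt_top (lint_sq_lt hg2) cosh_lint
  exact ENNReal.add_lt_top.2 ⟨f1, f2⟩

lemma Pn_meas {g : ℝ → ℝ} (hg : Measurable g) : Measurable (Function.uncurry (Pn g)) := by
  have h1 : Measurable (fun p : ℝ × ℝ => (Icc (-1 : ℝ) 1).indicator (fun _ => (1 : ℝ≥0∞)) (p.2 - p.1) *
      (‖g (p.1 + (p.2 - p.1)) - g p.1‖ₑ ^ 2 / ‖p.2 - p.1‖ₑ ^ 2)) := by
    have a1 : Measurable (fun p : ℝ × ℝ => (Icc (-1 : ℝ) 1).indicator (fun _ => (1 : ℝ≥0∞)) (p.2 - p.1)) :=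
      (measurable_const.indicator measurableSet_Icc).comp (measurable_snd.sub measurable_fst)
    have a2 : Measurable (fun p : ℝ × ℝ => ‖g (p.1 + (p.2 - p.1)) - g p.1‖ₑ ^ 2) :=
      (((hg.comp (measurable_fst.add (measurable_snd.sub measurable_fst))).sub
        (hg.comp measurable_fst)).enorm).pow_const 2
    have a3 : Measurable (fun p : ℝ × ℝ => ‖p.2 - p.1‖ₑ ^ 2) :=
      ((measurable_snd.sub measurable_fst).enorm).pow_const 2
    exact a1.mul (a2.div a3)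
  have h2 : Function.uncurry (Pn g) = fun p : ℝ × ℝ =>
      (Icc (-1 : ℝ) 1).indicator (fun _ => (1 : ℝ≥0∞)) (p.2 - p.1) *
      (‖g (p.1 + (p.2 - p.1)) - g p.1‖ₑ ^ 2 / ‖p.2 - p.1‖ₑ ^ 2) := by
    ext p
    unfold Function.uncurry Pn
    by_cases hp : p.2 - p.1 ∈ Icc (-1 : ℝ) 1
    · rw [indicator_of_mem hp, indicator_of_mem hp, one_mul]
    · rw [indicator_of_notMem hp, indicator_of_notMem hp, zero_mul]
  rw [h2]
  exact h1

lemma Pn_dummy {g : ℝ → ℝ} (p : ℝ × ℝ) : Function.uncurry (Pn g) p =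
      (Icc (-1 : ℝ) 1).indicator (fun _ => (1 : ℝ≥0∞)) (p.2 - p.1) *
      (‖g (p.1 + (p.2 - p.1)) - g p.1‖ₑ ^ 2 / ‖p.2 - p.1‖ₑ ^ 2) := by
  unfold Function.uncurry Pn
  by_cases hp : p.2 - p.1 ∈ Icc (-1 : ℝ) 1
  · rw [indicator_of_mem hp, indicator_of_mem hp, one_mul]
  · rw [indicator_of_notMem hp, indicator_of_notMem hp, zero_mul]

/-- the near part is finite -/
lemma near_finite {g : ℝ → ℝ} (hg : Measurable g)
    (hh : ∫⁻ δ in Icc (-1 : ℝ) 1, ∫⁻ t, ‖g (t + δ) - g t‖ₑ ^ 2 / ‖δ‖ₑ ^ 2 < ⊤) :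
    ∫⁻ s, ∫⁻ t, Pn g s t < ⊤ := by
  have e1 : ∀ s, ∫⁻ t, Pn g s t = ∫⁻ δ, (Icc (-1 : ℝ) 1).indicator
      (fun δ => ‖g (s + δ) - g s‖ₑ ^ 2 / ‖δ‖ₑ ^ 2) δ := by
    intro s
    exact lintegral_sub_right_eq_self ((Icc (-1 : ℝ) 1).indicator
      (fun δ => ‖g (s + δ) - g s‖ₑ ^ 2 / ‖δ‖ₑ ^ 2)) s
  simp only [e1]
  have hm : Measurable (fun p : ℝ × ℝ => (Icc (-1 : ℝ) 1).indicator
      (fun δ => ‖g (p.1 + δ) - g p.1‖ₑ ^ 2 / ‖δ‖ₑ ^ 2) p.2) := by
    have a1 : Measurable (fun p : ℝ × ℝ => (Icc (-1 : ℝ) 1).indicator (fun _ => (1 : ℝ≥0∞)) p.2) :=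
      (measurable_const.indicator measurableSet_Icc).comp measurable_snd
    have a2 : Measurable (fun p : ℝ × ℝ => ‖g (p.1 + p.2) - g p.1‖ₑ ^ 2) :=
      (((hg.comp (measurable_fst.add measurable_snd)).sub
        (hg.comp measurable_fst)).enorm).pow_const 2
    have a3 : Measurable (fun p : ℝ × ℝ => ‖p.2‖ₑ ^ 2) := (measurable_snd.enorm).pow_const 2
    convert a1.mul (a2.div a3) using 2 with p
    by_cases hp : p.2 ∈ Icc (-1 : ℝ) 1
    · simp only [Pi.mul_apply, Pi.div_apply]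
      rw [indicator_of_mem hp, indicator_of_mem hp, one_mul]
    · simp only [Pi.mul_apply, Pi.div_apply]
      rw [indicator_of_notMem hp, indicator_of_notMem hp, zero_mul]
  rw [lintegral_lintegral_swap hm.aemeasurable]
  refine lt_of_le_of_lt (le_of_eq ?_) hh
  rw [← lintegral_indicator measurableSet_Icc]
  refine lintegral_congr fun δ => ?_
  by_cases hδ : δ ∈ Icc (-1 : ℝ) 1
  · simp only [indicator_of_mem hδ]
  · simp only [indicator_of_notMem hδ, lintegral_zero]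

lemma mu_mu_le (E : ℝ → ℝ → ℝ≥0∞) : ∫⁻ s, ∫⁻ t, E s t ∂mu ∂mu ≤
    ∫⁻ s, ∫⁻ t, wt s * (wt t * E s t) := by
  refine (lint_mu_le _).trans ?_
  refine lintegral_mono fun s => ?_
  exact (mul_le_mul' le_rfl (lint_mu_le _)).trans (lintegral_const_mul_le _ _)

lemma sum_finite {g : ℝ → ℝ} (hg : Measurable g) (hg2 : MemLp g 2 volume)
    (hh : ∫⁻ δ in Icc (-1 : ℝ) 1, ∫⁻ t, ‖g (t + δ) - g t‖ₑ ^ 2 / ‖δ‖ₑ ^ 2 < ⊤) (K : ℝ) :
    ∫⁻ s, ∫⁻ t, ENNReal.ofReal K * (Pn g s t + Qf g s t) < ⊤ := by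
  have hPm := Pn_meas hg
  have hgen : ∀ P Q : ℝ → ℝ → ℝ≥0∞, Measurable (Function.uncurry P) →
      ∫⁻ s, ∫⁻ t, ENNReal.ofReal K * (P s t + Q s t) =
      ENNReal.ofReal K * ((∫⁻ s, ∫⁻ t, P s t) + (∫⁻ s, ∫⁻ t, Q s t)) := by
    intro P Q hP
    have M1 : Measurable (fun s => ∫⁻ t, P s t) := Measurable.lintegral_prod_right hP
    rw [← lintegral_add_left M1, ← lintegral_const_mul' _ _ ENNReal.ofReal_ne_top]
    refine lintegral_congr fun s => ?_
    have M2 : Measurable (fun t => P s t) := hP.of_uncurry_left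
    rw [lintegral_const_mul' _ _ ENNReal.ofReal_ne_top, ← lintegral_add_left M2]
  have e := hgen (Pn g) (Qf g) hPm
  rw [e]
  exact ENNReal.mul_lt_top ENNReal.ofReal_lt_top
        (ENNReal.add_lt_top.2 ⟨near_finite hg hh, far_finite hg hg2⟩)

/-- finiteness of the energy in the strip variables -/
lemma strip_energy {g : ℝ → ℝ} (hg : Measurable g) (hg2 : MemLp g 2 volume)
    (hh : ∫⁻ δ in Icc (-1 : ℝ) 1, ∫⁻ t, ‖g (t + δ) - g t‖ₑ ^ 2 / ‖δ‖ₑ ^ 2 < ⊤) (i j : ZMod 2) :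
    ∫⁻ s, ∫⁻ t, ‖oddExt g (ar i s) - oddExt g (ar j t)‖ₑ ^ 2 / ‖ar i s - ar j t‖ₑ ^ 2 ∂mu ∂mu < ⊤ := by
  obtain ⟨K, hK0, hK⟩ := energy_le
  refine lt_of_le_of_lt ?_ (sum_finite hg hg2 hh K)
  refine (mu_mu_le _).trans ?_
  refine lintegral_mono fun s => lintegral_mono fun t => ?_
  exact hK g i j s t

/-- splitting a double integral over the curve -/
lemma energy_split (E : ℂ → ℂ → ℝ≥0∞) (hE : Measurable (Function.uncurry E))
    (h : ∀ i j : ZMod 2, ∫⁻ s, ∫⁻ t, E (ar i s) (ar j t) ∂mu ∂mu < ⊤) :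
    ∫⁻ x, ∫⁻ y, E x y ∂Gam.arcLength ∂Gam.arcLength < ⊤ := by
  rw [lint_sigma]
  have hrow : ∀ i : ZMod 2, ∫⁻ s, ∫⁻ y, E (ar i s) y ∂Gam.arcLength ∂mu < ⊤ := by
    intro i
    have hsplit : ∀ s, ∫⁻ y, E (ar i s) y ∂Gam.arcLength =
        ∫⁻ t, E (ar i s) (ar 0 t) ∂mu + ∫⁻ t, E (ar i s) (ar 1 t) ∂mu := fun s => lint_sigma _
    simp only [hsplit]
    have h3 : Measurable (fun p : ℝ × ℝ => (ar i p.1, ar 0 p.2)) :=
      ((ar_cont i).measurable.comp measurable_fst).prodMk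
        ((ar_cont 0).measurable.comp measurable_snd)
    have h4 : Measurable (fun p : ℝ × ℝ => E (ar i p.1) (ar 0 p.2)) := hE.comp h3
    have hm : Measurable (fun s => ∫⁻ t, E (ar i s) (ar 0 t) ∂mu) := Measurable.lintegral_prod_right' h4
    rw [lintegral_add_left hm]
    exact ENNReal.add_lt_top.2 ⟨h i 0, h i 1⟩
  exact ENNReal.add_lt_top.2 ⟨hrow 0, hrow 1⟩

/-- the `L²` part -/
lemma memLp_odd {g : ℝ → ℝ} (hg : Measurable g) (hg2 : MemLp g 2 volume) :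
    MemLp (oddExt g) 2 Gam.arcLength := by
  refine ⟨(oddExt_meas hg).aestronglyMeasurable, ?_⟩
  obtain ⟨M, hM0, hM⟩ := prof0.zd_le
  have hw : ∀ s, wt s ≤ ENNReal.ofReal M := by
    intro s
    rw [wt, ← ofReal_norm]
    refine ENNReal.ofReal_le_ofReal ((hM s).trans ?_)
    exact div_le_self hM0 (Real.one_le_cosh s)
  have hfin : ∀ i : ZMod 2, ∫⁻ s, ‖oddExt g (ar i s)‖ₑ ^ (2:ℝ) ∂mu < ⊤ := by
    intro i
    calc ∫⁻ s, ‖oddExt g (ar i s)‖ₑ ^ (2:ℝ) ∂mu ≤ ∫⁻ s, wt s * ‖oddExt g (ar i s)‖ₑ ^ (2:ℝ) :=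
          lint_mu_le _
      _ ≤ ∫⁻ s, ENNReal.ofReal M * ‖g s‖ₑ ^ 2 := by
          refine lintegral_mono fun s => ?_
          refine mul_le_mul' (hw s) (le_of_eq ?_)
          rw [oddExt_ar, show (2:ℝ) = ((2:ℕ):ℝ) by norm_num, ENNReal.rpow_natCast]
          congr 1
          rw [← ofReal_norm, ← ofReal_norm, norm_mul, norm_neg, Complex.norm_real, Complex.norm_real,
            Real.norm_eq_abs, Real.norm_eq_abs]
          have : |sg i| = 1 := by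
            rcases sg_or i with h | h <;> rw [h] <;> norm_num
          rw [this, one_mul]
      _ = ENNReal.ofReal M * ∫⁻ s, ‖g s‖ₑ ^ 2 := lintegral_const_mul' _ _ ENNReal.ofReal_ne_top
      _ < ⊤ := ENNReal.mul_lt_top ENNReal.ofReal_lt_top (lint_sq_lt hg2)
  rw [eLpNorm_eq_lintegral_rpow_enorm_toReal (by norm_num) (by norm_num)]
  refine ENNReal.rpow_lt_top_of_nonneg (by norm_num) ?_
  rw [ENNReal.toReal_ofNat, lint_sigma]
  exact (ENNReal.add_lt_top.2 ⟨hfin 0, hfin 1⟩).ne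

/-- membership in `H^{1/2}` -/
theorem memHHalf {g : ℝ → ℝ} (hg : Measurable g) (hg2 : MemLp g 2 volume)
    (hh : ∫⁻ δ in Icc (-1 : ℝ) 1, ∫⁻ t, ‖g (t + δ) - g t‖ₑ ^ 2 / ‖δ‖ₑ ^ 2 < ⊤) :
    Gam.MemHHalf (oddExt g) := by
  have hF := oddExt_meas hg
  refine ⟨memLp_odd hg hg2, ?_⟩
  refine energy_split (fun x y => ‖oddExt g x - oddExt g y‖ₑ ^ 2 / ‖x - y‖ₑ ^ 2) ?_
    (fun i j => strip_energy hg hg2 hh i j)
  have a1 : Measurable (fun p : ℂ × ℂ => ‖oddExt g p.1 - oddExt g p.2‖ₑ ^ 2) :=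
    (((hF.comp measurable_fst).sub (hF.comp measurable_snd)).enorm).pow_const 2
  have a2 : Measurable (fun p : ℂ × ℂ => ‖p.1 - p.2‖ₑ ^ 2) :=
    ((measurable_fst.sub measurable_snd).enorm).pow_const 2
  exact a1.div a2

end Pool.Agent.TH268.NP
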