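import Pool.Agent.TH268.NP.Geo7

set_option autoImplicit false

/-!
# Eigenvalues of the curve from eigenvalues in the strip
-/

open MeasureTheory Set Filter Topology
open scoped ENNReal NNReal ComplexConjugate ContDiff

namespace Pool.Agent.TH268.NP

lemma zd_ne (s : ℝ) : zd psi0 s ≠ 0 := by
  unfold zd
  refine div_ne_zero ?_ (mul_ne_zero two_ne_zero (pow_ne_zero 2 (prof0.cosh_om_ne s)))
  intro hcon
  have := congrArg Complex.re hcon
  simp only [Complex.add_re, Complex.mul_re, Complex.ofReal_re, Complex.ofReal_im, Complex.I_re,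
    Complex.I_im, Complex.zero_re, Complex.one_re] at this
  norm_num at this

lemma vol_ac : (volume : Measure ℝ) ≪ mu :=
  withDensity_absolutelyContinuous' wt_meas.aemeasurable
    (Eventually.of_forall fun s => by
      rw [wt]
      exact enorm_ne_zero.2 (zd_ne s))

lemma mu_ac : mu ≪ (volume : Measure ℝ) := withDensity_absolutelyContinuous _ _

lemma ae_sigma {p : ℂ → Prop} : (∀ᵐ x ∂Gam.arcLength, p x) ↔
    (∀ᵐ s ∂mu, p (ar 0 s)) ∧ ∀ᵐ s ∂mu, p (ar 1 s) := by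
  rw [arcLength_eq, ae_add_measure_iff, (ar_emb 0).ae_map_iff, (ar_emb 1).ae_map_iff]

theorem eig_of_strip {lam : ℝ} (hlam : lam ∈ StripEig psi0)
    (h12 : ∀ f : ℝ → ℝ, MemLp f 2 volume →
      ∫⁻ δ in Icc (-1 : ℝ) 1, ∫⁻ t, ‖(∫ s, GS psi0 (t + δ) s * f s) - ∫ s, GS psi0 t s * f s‖ₑ ^ 2 /
      ‖δ‖ₑ ^ 2 < ⊤) : (lam : ℂ) ∈ Gam.eigenvalues := by
  obtain ⟨-, f, g, hf, hgf, hg, hg2, hg0, hK⟩ := hlam
  have hh : ∫⁻ δ in Icc (-1 : ℝ) 1, ∫⁻ t, ‖g (t + δ) - g t‖ₑ ^ 2 / ‖δ‖ₑ ^ 2 < ⊤ := by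
    simp only [hgf]
    exact h12 f hf
  refine ⟨oddExt g, memHHalf hg hg2 hh, ?_, ?_⟩
  · intro hcon
    apply hg0
    have h1 := (ae_sigma.1 hcon).1
    have h2 := vol_ac.ae_le h1
    filter_upwards [h2] with s hs
    rw [oddExt_ar] at hs
    simp only [sg, if_true, Pi.zero_apply] at hs ⊢
    have h3 : ((g s : ℝ) : ℂ) = 0 := by
      push_cast at hs
      linear_combination hs
    exact_mod_cast h3
  · have key : ∀ i : ZMod 2, ∀ᵐ t ∂mu, Tendsto (fun ε => Gam.trunc ε (oddExt g) (ar i t)) (𝓝[>] 0)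
        (𝓝 ((lam : ℂ) * oddExt g (ar i t))) := by
      intro i
      refine mu_ac.ae_le ?_
      filter_upwards [hK] with t ht
      have h1 := trunc_tendsto hg hg2 i t
      rw [ht] at h1
      convert h1 using 2
      rw [oddExt_ar]
      push_cast
      ring
    exact ae_sigma.2 ⟨key 0, key 1⟩

end Pool.Agent.TH268.NP
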