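import Mathlib

set_option autoImplicit false

/-!
# Integral operators on `L²(μ)`: Schur test, adjoints, compactness

The first parts are adapted from the files H934R3/NP/TaskC1_helper683 and H77R3/NP/TaskC2 of an
earlier project (there for finite measures on `ℝ³`).
-/

open MeasureTheory Set Filter Topology
open scoped ENNReal NNReal

namespace Pool.Agent.TH268.NP.Ker

set_option linter.unusedSectionVars false

variable {α : Type*} [MeasurableSpace α] {μ : Measure α} [SFinite μ] {k : α → α → ℝ} {C : ℝ}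

/-- `T` is the integral operator on `L²(μ)` with kernel `k` -/
def Rep (μ : Measure α) (k : α → α → ℝ) (T : Lp ℝ 2 μ →L[ℝ] Lp ℝ 2 μ) : Prop :=
  ∀ φ : Lp ℝ 2 μ, ∀ᵐ x ∂μ, T φ x = ∫ y, k x y * φ y ∂μ

theorem meas_left (hk : Measurable (Function.uncurry k)) (x : α) : Measurable (fun y => k x y) :=
  hk.comp (measurable_const.prodMk measurable_id)

theorem meas_right (hk : Measurable (Function.uncurry k)) (y : α) : Measurable (fun x => k x y) :=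
  hk.comp (measurable_id.prodMk measurable_const)

/-- pointwise Cauchy-Schwarz -/
theorem cs (hk : Measurable (Function.uncurry k)) (φ : α → ℝ) (hφ : Measurable φ) (x : α) :
    (∫⁻ y, ‖k x y * φ y‖ₑ ∂μ) ^ (2 : ℝ) ≤
      (∫⁻ y, ‖k x y‖ₑ ∂μ) * ∫⁻ y, ‖k x y‖ₑ * ‖φ y‖ₑ ^ (2 : ℝ) ∂μ := by
  have hm : Measurable (fun y => ‖k x y‖ₑ) := (meas_left hk x).enorm
  have h1 := ENNReal.lintegral_mul_le_Lp_mul_Lq μ (Real.HolderConjugate.two_two)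
    (f := fun y => ‖k x y‖ₑ ^ (1 / 2 : ℝ)) (g := fun y => ‖k x y‖ₑ ^ (1 / 2 : ℝ) * ‖φ y‖ₑ)
    (hm.pow_const _).aemeasurable ((hm.pow_const _).mul hφ.enorm).aemeasurable
  have e1 : ∀ y, ((fun y => ‖k x y‖ₑ ^ (1 / 2 : ℝ)) * fun y => ‖k x y‖ₑ ^ (1 / 2 : ℝ) * ‖φ y‖ₑ) y =
      ‖k x y * φ y‖ₑ := by
    intro y
    simp only [Pi.mul_apply]
    rw [← mul_assoc, ← ENNReal.rpow_add_of_nonneg _ _ (by norm_num) (by norm_num), enorm_mul]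
    norm_num
  have e2 : ∀ y, (‖k x y‖ₑ ^ (1 / 2 : ℝ)) ^ (2 : ℝ) = ‖k x y‖ₑ := by
    intro y
    rw [← ENNReal.rpow_mul]
    norm_num
  have e3 : ∀ y, (‖k x y‖ₑ ^ (1 / 2 : ℝ) * ‖φ y‖ₑ) ^ (2 : ℝ) = ‖k x y‖ₑ * ‖φ y‖ₑ ^ (2 : ℝ) := by
    intro y
    rw [ENNReal.mul_rpow_of_nonneg _ _ (by norm_num), e2]
  simp only [e1, e2, e3] at h1
  have h2 := ENNReal.rpow_le_rpow h1 (z := 2) (by norm_num)
  refine le_trans h2 (le_of_eq ?_)
  rw [ENNReal.mul_rpow_of_nonneg _ _ (by norm_num), ← ENNReal.rpow_mul, ← ENNReal.rpow_mul]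
  norm_num

theorem enorm_eq (r : ℝ) : ‖r‖ₑ = ENNReal.ofReal |r| := by
  rw [← ofReal_norm, Real.norm_eq_abs]

theorem key (hk : Measurable (Function.uncurry k))
    (h1 : ∀ᵐ x ∂μ, ∫⁻ y, ENNReal.ofReal |k x y| ∂μ ≤ ENNReal.ofReal C)
    (h2 : ∀ᵐ y ∂μ, ∫⁻ x, ENNReal.ofReal |k x y| ∂μ ≤ ENNReal.ofReal C)
    (φ : α → ℝ) (hφ : Measurable φ) :
    ∫⁻ x, (∫⁻ y, ‖k x y * φ y‖ₑ ∂μ) ^ (2 : ℝ) ∂μ ≤
      ENNReal.ofReal C ^ (2 : ℝ) * ∫⁻ y, ‖φ y‖ₑ ^ (2 : ℝ) ∂μ := by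
  have hm : Measurable (fun p : α × α => ‖k p.1 p.2‖ₑ * ‖φ p.2‖ₑ ^ (2 : ℝ)) :=
    (Measurable.enorm hk).mul ((hφ.comp measurable_snd).enorm.pow_const _)
  have hφ2 : Measurable (fun y => ‖φ y‖ₑ ^ (2 : ℝ)) := hφ.enorm.pow_const _
  calc ∫⁻ x, (∫⁻ y, ‖k x y * φ y‖ₑ ∂μ) ^ (2 : ℝ) ∂μ
      ≤ ∫⁻ x, ENNReal.ofReal C * ∫⁻ y, ‖k x y‖ₑ * ‖φ y‖ₑ ^ (2 : ℝ) ∂μ ∂μ := by
        refine lintegral_mono_ae ?_
        filter_upwards [h1] with x hx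
        refine le_trans (cs hk φ hφ x) ?_
        refine mul_le_mul_left ?_ _
        simpa only [enorm_eq] using hx
    _ = ENNReal.ofReal C * ∫⁻ x, ∫⁻ y, ‖k x y‖ₑ * ‖φ y‖ₑ ^ (2 : ℝ) ∂μ ∂μ := by
        rw [lintegral_const_mul]
        exact Measurable.lintegral_prod_right hm
    _ = ENNReal.ofReal C * ∫⁻ y, ∫⁻ x, ‖k x y‖ₑ * ‖φ y‖ₑ ^ (2 : ℝ) ∂μ ∂μ := by
        rw [lintegral_lintegral_swap]
        exact hm.aemeasurable
    _ ≤ ENNReal.ofReal C * ∫⁻ y, ENNReal.ofReal C * ‖φ y‖ₑ ^ (2 : ℝ) ∂μ := by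
        refine mul_le_mul_right ?_ _
        refine lintegral_mono_ae ?_
        filter_upwards [h2] with y hy
        rw [lintegral_mul_const _ (meas_right hk y).enorm]
        refine mul_le_mul_left ?_ _
        simpa only [enorm_eq] using hy
    _ = ENNReal.ofReal C ^ (2 : ℝ) * ∫⁻ y, ‖φ y‖ₑ ^ (2 : ℝ) ∂μ := by
        rw [lintegral_const_mul _ hφ2, ← mul_assoc]
        congr 1
        rw [← sq, ← ENNReal.rpow_natCast]
        norm_num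

theorem eLp2 (f : α → ℝ) : eLpNorm f 2 μ = (∫⁻ y, ‖f y‖ₑ ^ (2 : ℝ) ∂μ) ^ (1 / 2 : ℝ) := by
  rw [eLpNorm_eq_lintegral_rpow_enorm_toReal (by norm_num) (by norm_num)]
  norm_num

theorem bound (hk : Measurable (Function.uncurry k))
    (h1 : ∀ᵐ x ∂μ, ∫⁻ y, ENNReal.ofReal |k x y| ∂μ ≤ ENNReal.ofReal C)
    (h2 : ∀ᵐ y ∂μ, ∫⁻ x, ENNReal.ofReal |k x y| ∂μ ≤ ENNReal.ofReal C)
    (φ : Lp ℝ 2 μ) :
    eLpNorm (fun x => ∫ y, k x y * φ y ∂μ) 2 μ ≤ ENNReal.ofReal C * eLpNorm φ 2 μ := by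
  have hφ : Measurable (φ : α → ℝ) := (Lp.stronglyMeasurable φ).measurable
  have h3 := key hk h1 h2 φ hφ
  rw [eLp2, eLp2]
  have h4 : ∫⁻ x, ‖∫ y, k x y * φ y ∂μ‖ₑ ^ (2 : ℝ) ∂μ ≤
      ENNReal.ofReal C ^ (2 : ℝ) * ∫⁻ y, ‖φ y‖ₑ ^ (2 : ℝ) ∂μ := by
    refine le_trans (lintegral_mono fun x => ?_) h3
    exact ENNReal.rpow_le_rpow (enorm_integral_le_lintegral_enorm _) (by norm_num)
  have h5 := ENNReal.rpow_le_rpow h4 (z := 1 / 2) (by norm_num)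
  refine le_trans h5 (le_of_eq ?_)
  rw [ENNReal.mul_rpow_of_nonneg _ _ (by norm_num), ← ENNReal.rpow_mul]
  norm_num

theorem integ (hk : Measurable (Function.uncurry k))
    (h1 : ∀ᵐ x ∂μ, ∫⁻ y, ENNReal.ofReal |k x y| ∂μ ≤ ENNReal.ofReal C)
    (h2 : ∀ᵐ y ∂μ, ∫⁻ x, ENNReal.ofReal |k x y| ∂μ ≤ ENNReal.ofReal C)
    (φ : Lp ℝ 2 μ) : ∀ᵐ x ∂μ, Integrable (fun y => k x y * φ y) μ := by
  have hφ : Measurable (φ : α → ℝ) := (Lp.stronglyMeasurable φ).measurable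
  have h3 := key hk h1 h2 φ hφ
  have hfin : ∫⁻ y, ‖φ y‖ₑ ^ (2 : ℝ) ∂μ < ⊤ := by
    have := (Lp.memLp φ).eLpNorm_lt_top
    rw [eLp2] at this
    by_contra hcon
    rw [not_lt, top_le_iff] at hcon
    rw [hcon] at this
    norm_num at this
  have h4 : ∫⁻ x, (∫⁻ y, ‖k x y * φ y‖ₑ ∂μ) ^ (2 : ℝ) ∂μ ≠ ⊤ := by
    refine ne_of_lt (lt_of_le_of_lt h3 ?_)
    exact ENNReal.mul_lt_top (ENNReal.rpow_lt_top_of_nonneg (by norm_num) ENNReal.ofReal_ne_top) hfin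
  have hmm : Measurable (fun p : α × α => ‖k p.1 p.2 * φ p.2‖ₑ) :=
    (Measurable.mul hk (hφ.comp measurable_snd)).enorm
  have hm : Measurable (fun x => (∫⁻ y, ‖k x y * φ y‖ₑ ∂μ) ^ (2 : ℝ)) :=
    (Measurable.lintegral_prod_right hmm).pow_const _
  filter_upwards [ae_lt_top hm h4] with x hx
  refine ⟨((meas_left hk x).mul hφ).aestronglyMeasurable, ?_⟩
  rw [hasFiniteIntegral_iff_enorm]
  by_contra hcon
  rw [not_lt, top_le_iff] at hcon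
  rw [hcon] at hx
  norm_num at hx

theorem smeas (hk : Measurable (Function.uncurry k)) (φ : Lp ℝ 2 μ) :
    AEStronglyMeasurable (fun x => ∫ y, k x y * φ y ∂μ) μ := by
  have hφ : Measurable (φ : α → ℝ) := (Lp.stronglyMeasurable φ).measurable
  have hm : Measurable (fun p : α × α => k p.1 p.2 * φ p.2) :=
    Measurable.mul hk (hφ.comp measurable_snd)
  exact (hm.stronglyMeasurable.integral_prod_right).aestronglyMeasurable

theorem memLp' (hk : Measurable (Function.uncurry k))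
    (h1 : ∀ᵐ x ∂μ, ∫⁻ y, ENNReal.ofReal |k x y| ∂μ ≤ ENNReal.ofReal C)
    (h2 : ∀ᵐ y ∂μ, ∫⁻ x, ENNReal.ofReal |k x y| ∂μ ≤ ENNReal.ofReal C)
    (φ : Lp ℝ 2 μ) : MemLp (fun x => ∫ y, k x y * φ y ∂μ) 2 μ := by
  refine ⟨smeas hk φ, lt_of_le_of_lt (bound hk h1 h2 φ) ?_⟩
  exact ENNReal.mul_lt_top ENNReal.ofReal_lt_top (Lp.memLp φ).eLpNorm_lt_top

theorem exists_op (k : α → α → ℝ) (C : ℝ) (hC : 0 ≤ C) (hk : Measurable (Function.uncurry k))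
    (h1 : ∀ᵐ x ∂μ, ∫⁻ y, ENNReal.ofReal |k x y| ∂μ ≤ ENNReal.ofReal C)
    (h2 : ∀ᵐ y ∂μ, ∫⁻ x, ENNReal.ofReal |k x y| ∂μ ≤ ENNReal.ofReal C) :
    ∃ T : Lp ℝ 2 μ →L[ℝ] Lp ℝ 2 μ, Rep μ k T ∧ ‖T‖ ≤ C ∧
    ∀ φ : Lp ℝ 2 μ, ∀ᵐ x ∂μ, Integrable (fun y => k x y * φ y) μ := by
  let L : Lp ℝ 2 μ →ₗ[ℝ] Lp ℝ 2 μ :=
    { toFun := fun φ => (memLp' hk h1 h2 φ).toLp _
      map_add' := by
        intro φ ψ
        apply Lp.ext
        have a1 := integ hk h1 h2 φ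
        have a2 := integ hk h1 h2 ψ
        filter_upwards [a1, a2, (memLp' hk h1 h2 (φ + ψ)).coeFn_toLp,
          (memLp' hk h1 h2 φ).coeFn_toLp, (memLp' hk h1 h2 ψ).coeFn_toLp,
          Lp.coeFn_add ((memLp' hk h1 h2 φ).toLp _) ((memLp' hk h1 h2 ψ).toLp _)]
          with x b1 b2 c1 c2 c3 c4
        rw [c1, c4, Pi.add_apply, c2, c3, ← integral_add b1 b2]
        apply integral_congr_ae
        filter_upwards [Lp.coeFn_add φ ψ] with y hy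
        rw [hy, Pi.add_apply, mul_add]
      map_smul' := by
        intro c φ
        apply Lp.ext
        filter_upwards [(memLp' hk h1 h2 (c • φ)).coeFn_toLp,
          (memLp' hk h1 h2 φ).coeFn_toLp,
          Lp.coeFn_smul c ((memLp' hk h1 h2 φ).toLp _)] with x c1 c2 c3
        rw [c1, RingHom.id_apply, c3, Pi.smul_apply, c2, smul_eq_mul, ← integral_const_mul]
        apply integral_congr_ae
        filter_upwards [Lp.coeFn_smul c φ] with y hy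
        rw [hy, Pi.smul_apply, smul_eq_mul]
        ring }
  have hL : ∀ φ, ‖L φ‖ ≤ C * ‖φ‖ := by
    intro φ
    have hb := bound hk h1 h2 φ
    have e1 : ‖L φ‖ = (eLpNorm (fun x => ∫ y, k x y * φ y ∂μ) 2 μ).toReal := Lp.norm_toLp _ (memLp' hk h1 h2 φ)
    rw [e1, Lp.norm_def]
    have := ENNReal.toReal_mono (ENNReal.mul_ne_top ENNReal.ofReal_ne_top
      (Lp.memLp φ).eLpNorm_lt_top.ne) hb
    rwa [ENNReal.toReal_mul, ENNReal.toReal_ofReal hC] at this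
  refine ⟨L.mkContinuous C hL, ?_, LinearMap.mkContinuous_norm_le L hC hL, integ hk h1 h2⟩
  intro φ
  exact (memLp' hk h1 h2 φ).coeFn_toLp

lemma lint_sq {μ : Measure α} (φ : Lp ℝ 2 μ) : ∫⁻ x, ‖φ x‖ₑ ^ 2 ∂μ < ∞ := by
  have h := (Lp.memLp φ).integrable_sq
  have h2 := h.2
  rw [HasFiniteIntegral] at h2
  simpa [enorm_pow] using h2

lemma mul_le_sq (a b : ℝ≥0∞) : a * b ≤ a ^ 2 + b ^ 2 := by
  rcases le_total a b with h | h
  · calc a * b ≤ b * b := mul_le_mul_left h b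
      _ ≤ a ^ 2 + b ^ 2 := by rw [← sq]; exact le_add_self
  · calc a * b ≤ a * a := mul_le_mul_right h a
      _ ≤ a ^ 2 + b ^ 2 := by rw [← sq]; exact le_self_add

lemma integrable_ker {μ : Measure α} [SFinite μ] (k : α → α → ℝ) (C : ℝ)
    (hk : Measurable (Function.uncurry k))
    (h1 : ∀ᵐ x ∂μ, ∫⁻ y, ENNReal.ofReal |k x y| ∂μ ≤ ENNReal.ofReal C)
    (h2 : ∀ᵐ y ∂μ, ∫⁻ x, ENNReal.ofReal |k x y| ∂μ ≤ ENNReal.ofReal C)
    (φ ψ : Lp ℝ 2 μ) :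
    Integrable (Function.uncurry (fun x y => ψ x * (k x y * φ y))) (μ.prod μ) := by
  have hψ : AEStronglyMeasurable (fun p : α × α => ψ p.1) (μ.prod μ) :=
    (Lp.aestronglyMeasurable ψ).comp_fst
  have hφ : AEStronglyMeasurable (fun p : α × α => φ p.2) (μ.prod μ) :=
    (Lp.aestronglyMeasurable φ).comp_snd
  have hkm : Measurable (fun p : α × α => k p.1 p.2) := hk
  have hks : AEStronglyMeasurable (fun p : α × α => k p.1 p.2) (μ.prod μ) :=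
    hkm.aestronglyMeasurable
  refine ⟨hψ.mul (hks.mul hφ), ?_⟩
  rw [HasFiniteIntegral]
  have hb : ∀ p : α × α, ‖Function.uncurry (fun x y => ψ x * (k x y * φ y)) p‖ₑ ≤
      ‖k p.1 p.2‖ₑ * ‖ψ p.1‖ₑ ^ 2 + ‖k p.1 p.2‖ₑ * ‖φ p.2‖ₑ ^ 2 := by
    intro p
    simp only [Function.uncurry, enorm_mul]
    calc ‖ψ p.1‖ₑ * (‖k p.1 p.2‖ₑ * ‖φ p.2‖ₑ) = ‖k p.1 p.2‖ₑ * (‖ψ p.1‖ₑ * ‖φ p.2‖ₑ) := by ring
      _ ≤ ‖k p.1 p.2‖ₑ * (‖ψ p.1‖ₑ ^ 2 + ‖φ p.2‖ₑ ^ 2) := by gcongr; exact mul_le_sq _ _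
      _ = _ := by ring
  refine lt_of_le_of_lt (lintegral_mono hb) ?_
  have m1 : AEMeasurable (fun p : α × α => ‖k p.1 p.2‖ₑ * ‖ψ p.1‖ₑ ^ 2) (μ.prod μ) :=
    hks.enorm.mul (hψ.enorm.pow_const 2)
  have m2 : AEMeasurable (fun p : α × α => ‖k p.1 p.2‖ₑ * ‖φ p.2‖ₑ ^ 2) (μ.prod μ) :=
    hks.enorm.mul (hφ.enorm.pow_const 2)
  rw [lintegral_add_left' m1]
  refine ENNReal.add_lt_top.mpr ⟨?_, ?_⟩
  · rw [lintegral_prod _ m1]
    have : ∫⁻ x, ∫⁻ y, ‖k x y‖ₑ * ‖ψ x‖ₑ ^ 2 ∂μ ∂μ ≤ ∫⁻ x, ENNReal.ofReal C * ‖ψ x‖ₑ ^ 2 ∂μ := by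
      refine lintegral_mono_ae ?_
      filter_upwards [h1] with x hx
      have hkx : Measurable (fun y => k x y) := hk.comp measurable_prodMk_left
      rw [lintegral_mul_const _ hkx.enorm]
      gcongr
      simpa [Real.enorm_eq_ofReal_abs] using hx
    refine lt_of_le_of_lt this ?_
    rw [lintegral_const_mul' _ _ ENNReal.ofReal_ne_top]
    exact ENNReal.mul_lt_top ENNReal.ofReal_lt_top (lint_sq ψ)
  · rw [lintegral_prod_symm _ m2]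
    have : ∫⁻ y, ∫⁻ x, ‖k x y‖ₑ * ‖φ y‖ₑ ^ 2 ∂μ ∂μ ≤ ∫⁻ y, ENNReal.ofReal C * ‖φ y‖ₑ ^ 2 ∂μ := by
      refine lintegral_mono_ae ?_
      filter_upwards [h2] with y hy
      have hky : Measurable (fun x => k x y) := hk.comp measurable_prodMk_right
      rw [lintegral_mul_const _ hky.enorm]
      gcongr
      simpa [Real.enorm_eq_ofReal_abs] using hy
    refine lt_of_le_of_lt this ?_
    rw [lintegral_const_mul' _ _ ENNReal.ofReal_ne_top]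
    exact ENNReal.mul_lt_top ENNReal.ofReal_lt_top (lint_sq φ)

theorem adj (k : α → α → ℝ) (C : ℝ) (hk : Measurable (Function.uncurry k))
    (h1 : ∀ᵐ x ∂μ, ∫⁻ y, ENNReal.ofReal |k x y| ∂μ ≤ ENNReal.ofReal C)
    (h2 : ∀ᵐ y ∂μ, ∫⁻ x, ENNReal.ofReal |k x y| ∂μ ≤ ENNReal.ofReal C)
    (T T' : Lp ℝ 2 μ →L[ℝ] Lp ℝ 2 μ) (hT : Rep μ k T) (hT' : Rep μ (fun x y => k y x) T')
    (φ ψ : Lp ℝ 2 μ) : inner ℝ ψ (T φ) = inner ℝ (T' ψ) φ := by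
  rw [L2.inner_def, L2.inner_def]
  have hI := integrable_ker k C hk h1 h2 φ ψ
  have e1 : ∫ x, inner ℝ (ψ x) (T φ x) ∂μ = ∫ x, ∫ y, ψ x * (k x y * φ y) ∂μ ∂μ := by
    refine integral_congr_ae ?_
    filter_upwards [hT φ] with x hx
    rw [integral_const_mul, ← hx]
    simp [mul_comm]
  have e2 : ∫ y, inner ℝ (T' ψ y) (φ y) ∂μ = ∫ y, ∫ x, ψ x * (k x y * φ y) ∂μ ∂μ := by
    refine integral_congr_ae ?_
    filter_upwards [hT' ψ] with y hy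
    have : ∫ x, ψ x * (k x y * φ y) ∂μ = (∫ x, k x y * ψ x ∂μ) * φ y := by
      rw [← integral_mul_const]
      congr 1
      ext x
      ring
    rw [this, ← hy]
    simp [mul_comm]
  rw [e1, e2]
  exact integral_integral_swap hI


end Pool.Agent.TH268.NP.Ker
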