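import Pool.Agent.TH268.NP.Ker

set_option autoImplicit false
set_option linter.unusedSectionVars false

/-!
# Composition of integral operators on `L²(μ)`; convolution type majorants
-/

open MeasureTheory Set Filter Topology
open scoped ENNReal NNReal

namespace Pool.Agent.TH268.NP.Ker

variable {α : Type*} [MeasurableSpace α] {μ : Measure α} [SFinite μ]

/-- Schur bound for the kernel `k` -/
structure Schur (μ : Measure α) (k : α → α → ℝ) (C : ℝ) : Prop where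
  nonneg : 0 ≤ C
  meas : Measurable (Function.uncurry k)
  rows : ∀ᵐ x ∂μ, ∫⁻ y, ENNReal.ofReal |k x y| ∂μ ≤ ENNReal.ofReal C
  cols : ∀ᵐ y ∂μ, ∫⁻ x, ENNReal.ofReal |k x y| ∂μ ≤ ENNReal.ofReal C

lemma Schur.flip {k : α → α → ℝ} {C : ℝ} (h : Schur μ k C) : Schur μ (fun x y => k y x) C :=
  ⟨h.nonneg, h.meas.comp measurable_swap, h.cols, h.rows⟩

lemma Schur.abs {k : α → α → ℝ} {C : ℝ} (h : Schur μ k C) : Schur μ (fun x y => |k x y|) C :=
  ⟨h.nonneg, Measurable.abs (f := Function.uncurry k) h.meas, by simpa using h.rows,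
    by simpa using h.cols⟩

lemma Schur.op {k : α → α → ℝ} {C : ℝ} (h : Schur μ k C) :
    ∃ T : Lp ℝ 2 μ →L[ℝ] Lp ℝ 2 μ, Rep μ k T := by
  obtain ⟨T, hT, -, -⟩ := exists_op k C h.nonneg h.meas h.rows h.cols
  exact ⟨T, hT⟩

lemma Schur.integ {k : α → α → ℝ} {C : ℝ} (h : Schur μ k C) (φ : Lp ℝ 2 μ) :
    ∀ᵐ x ∂μ, Integrable (fun y => k x y * φ y) μ :=
  Ker.integ h.meas h.rows h.cols φ

lemma Schur.adj {k : α → α → ℝ} {C : ℝ} (h : Schur μ k C)
    (T T' : Lp ℝ 2 μ →L[ℝ] Lp ℝ 2 μ) (hT : Rep μ k T) (hT' : Rep μ (fun x y => k y x) T')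
    (φ ψ : Lp ℝ 2 μ) : inner ℝ ψ (T φ) = inner ℝ (T' ψ) φ :=
  Ker.adj k C h.meas h.rows h.cols T T' hT hT' φ ψ

/-- the kernel of the composition -/
noncomputable def kcomp (μ : Measure α) (k₁ k₂ : α → α → ℝ) (x z : α) : ℝ :=
  ∫ y, k₁ x y * k₂ y z ∂μ

lemma kcomp_meas {k₁ k₂ : α → α → ℝ} (h1 : Measurable (Function.uncurry k₁))
    (h2 : Measurable (Function.uncurry k₂)) : Measurable (Function.uncurry (kcomp μ k₁ k₂)) := by
  have hm : Measurable (fun p : (α × α) × α => k₁ p.1.1 p.2 * k₂ p.2 p.1.2) := by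
    have a1 : Measurable (fun p : (α × α) × α => k₁ p.1.1 p.2) :=
      h1.comp ((measurable_fst.comp measurable_fst).prodMk measurable_snd)
    have a2 : Measurable (fun p : (α × α) × α => k₂ p.2 p.1.2) :=
      h2.comp (measurable_snd.prodMk (measurable_snd.comp measurable_fst))
    exact a1.mul a2
  exact (hm.stronglyMeasurable.integral_prod_right).measurable

lemma kcomp_rows {k₁ k₂ : α → α → ℝ} {C₁ C₂ : ℝ} (h1 : Schur μ k₁ C₁) (h2 : Schur μ k₂ C₂) :
    ∀ᵐ x ∂μ, ∫⁻ z, ENNReal.ofReal |kcomp μ k₁ k₂ x z| ∂μ ≤ ENNReal.ofReal (C₁ * C₂) := by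
  filter_upwards [h1.rows] with x hx
  have m1 : Measurable (fun y => k₁ x y) := meas_left h1.meas x
  have m2 : Measurable (fun p : α × α => ‖k₁ x p.2‖ₑ * ‖k₂ p.2 p.1‖ₑ) :=
    ((m1.comp measurable_snd).enorm).mul
      ((h2.meas.comp measurable_swap : Measurable (fun p : α × α => k₂ p.2 p.1)).enorm)
  calc ∫⁻ z, ENNReal.ofReal |kcomp μ k₁ k₂ x z| ∂μ
      ≤ ∫⁻ z, ∫⁻ y, ‖k₁ x y‖ₑ * ‖k₂ y z‖ₑ ∂μ ∂μ := by
        refine lintegral_mono fun z => ?_
        rw [← enorm_eq]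
        refine (enorm_integral_le_lintegral_enorm _).trans (le_of_eq ?_)
        simp only [enorm_mul]
    _ = ∫⁻ y, ∫⁻ z, ‖k₁ x y‖ₑ * ‖k₂ y z‖ₑ ∂μ ∂μ := by
        rw [lintegral_lintegral_swap]
        exact m2.aemeasurable
    _ ≤ ∫⁻ y, ‖k₁ x y‖ₑ * ENNReal.ofReal C₂ ∂μ := by
        refine lintegral_mono_ae ?_
        filter_upwards [h2.rows] with y hy
        rw [lintegral_const_mul _ (meas_left h2.meas y).enorm]
        refine mul_le_mul_right ?_ _
        simpa only [enorm_eq] using hy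
    _ ≤ ENNReal.ofReal C₁ * ENNReal.ofReal C₂ := by
        rw [lintegral_mul_const _ m1.enorm]
        refine mul_le_mul_left ?_ _
        simpa only [enorm_eq] using hx
    _ = ENNReal.ofReal (C₁ * C₂) := (ENNReal.ofReal_mul h1.nonneg).symm

lemma kcomp_flip (k₁ k₂ : α → α → ℝ) (x z : α) :
    kcomp μ (fun x y => k₂ y x) (fun x y => k₁ y x) z x = kcomp μ k₁ k₂ x z := by
  unfold kcomp
  congr 1
  ext y
  ring

lemma Schur.comp {k₁ k₂ : α → α → ℝ} {C₁ C₂ : ℝ} (h1 : Schur μ k₁ C₁) (h2 : Schur μ k₂ C₂) :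
    Schur μ (kcomp μ k₁ k₂) (C₁ * C₂) := by
  refine ⟨mul_nonneg h1.nonneg h2.nonneg, kcomp_meas h1.meas h2.meas, kcomp_rows h1 h2, ?_⟩
  have := kcomp_rows h2.flip h1.flip
  simp only [kcomp_flip] at this
  rwa [mul_comm] at this

/-- the composition is represented by the composed kernel -/
theorem comp_rep {k₁ k₂ : α → α → ℝ} {C₁ C₂ : ℝ} (h1 : Schur μ k₁ C₁) (h2 : Schur μ k₂ C₂)
    (T₁ T₂ : Lp ℝ 2 μ →L[ℝ] Lp ℝ 2 μ) (hT1 : Rep μ k₁ T₁) (hT2 : Rep μ k₂ T₂) :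
    Rep μ (kcomp μ k₁ k₂) (T₁ ∘L T₂) := by
  intro φ
  obtain ⟨T2', hT2'⟩ := h2.abs.op
  have hφm : Measurable (φ : α → ℝ) := (Lp.stronglyMeasurable φ).measurable
  have a1 := h1.abs.integ (T2' |φ|)
  have a2 := h2.integ φ
  have a3 := hT2' |φ|
  have a3' : ∀ᵐ y ∂μ, T2' |φ| y = ∫ z, |k₂ y z * φ z| ∂μ := by
    filter_upwards [a3] with y hy
    rw [hy]
    refine integral_congr_ae ?_
    filter_upwards [Lp.coeFn_abs φ] with z hz
    rw [hz, abs_mul]
  filter_upwards [hT1 (T₂ φ), a1] with x hx hx1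
  have hx1' : Integrable (fun y => |k₁ x y| * ∫ z, |k₂ y z * φ z| ∂μ) μ := by
    refine hx1.congr ?_
    filter_upwards [a3'] with y hy
    rw [hy]
  have hF : Integrable (Function.uncurry fun y z => k₁ x y * (k₂ y z * φ z)) (μ.prod μ) := by
    have hm : Measurable (Function.uncurry fun y z => k₁ x y * (k₂ y z * φ z)) := by
      have b1 : Measurable (fun p : α × α => k₁ x p.1) := (meas_left h1.meas x).comp measurable_fst
      have b2 : Measurable (fun p : α × α => k₂ p.1 p.2) := h2.meas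
      exact b1.mul (b2.mul (hφm.comp measurable_snd))
    rw [integrable_prod_iff hm.aestronglyMeasurable]
    refine ⟨?_, ?_⟩
    · filter_upwards [a2] with y hy
      exact hy.const_mul (k₁ x y)
    · refine hx1'.congr (Eventually.of_forall fun y => ?_)
      simp only [Function.uncurry, norm_mul, Real.norm_eq_abs, abs_mul]
      rw [integral_const_mul]
  show (T₁ (T₂ φ)) x = _
  rw [hx]
  calc ∫ y, k₁ x y * (T₂ φ) y ∂μ = ∫ y, ∫ z, k₁ x y * (k₂ y z * φ z) ∂μ ∂μ := by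
        refine integral_congr_ae ?_
        filter_upwards [hT2 φ] with y hy
        rw [hy, integral_const_mul]
    _ = ∫ z, ∫ y, k₁ x y * (k₂ y z * φ z) ∂μ ∂μ := integral_integral_swap hF
    _ = ∫ z, kcomp μ k₁ k₂ x z * φ z ∂μ := by
        congr 1
        ext z
        unfold kcomp
        rw [← integral_mul_const]
        congr 1
        ext y
        ring

/-- if the composed kernel is symmetric up to null sets then so is the composition -/
theorem comp_symm {k₁ k₂ : α → α → ℝ} {C₁ C₂ : ℝ} (h1 : Schur μ k₁ C₁) (h2 : Schur μ k₂ C₂)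
    (T₁ T₂ : Lp ℝ 2 μ →L[ℝ] Lp ℝ 2 μ) (hT1 : Rep μ k₁ T₁) (hT2 : Rep μ k₂ T₂)
    (hsymm : ∀ x, ∀ᵐ z ∂μ, kcomp μ k₁ k₂ x z = kcomp μ k₁ k₂ z x) (φ ψ : Lp ℝ 2 μ) :
    inner ℝ ψ (T₁ (T₂ φ)) = inner ℝ (T₁ (T₂ ψ)) φ := by
  have hR := comp_rep h1 h2 T₁ T₂ hT1 hT2
  refine (h1.comp h2).adj (T₁ ∘L T₂) (T₁ ∘L T₂) hR ?_ φ ψ
  intro χ
  filter_upwards [hR χ] with x hx
  rw [hx]
  refine integral_congr_ae ?_
  filter_upwards [hsymm x] with z hz
  rw [hz]

section real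

/-- Schur bounds from convolution majorants -/
theorem schur_conv {k : ℝ → ℝ → ℝ} (hk : Measurable (Function.uncurry k)) (g : ℝ → ℝ)
    (hg : Integrable g) (hg0 : ∀ u, 0 ≤ g u) (hb : ∀ x y, |k x y| ≤ g (x - y)) :
    Schur volume k (∫ u, g u) := by
  refine ⟨integral_nonneg hg0, hk, Eventually.of_forall fun x => ?_,
    Eventually.of_forall fun y => ?_⟩
  · calc ∫⁻ y, ENNReal.ofReal |k x y| ≤ ∫⁻ y, ENNReal.ofReal (g (x - y)) :=
          lintegral_mono fun y => ENNReal.ofReal_le_ofReal (hb x y)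
      _ = ∫⁻ u, ENNReal.ofReal (g u) :=
          lintegral_sub_left_eq_self (fun u => ENNReal.ofReal (g u)) x
      _ = ENNReal.ofReal (∫ u, g u) :=
          (ofReal_integral_eq_lintegral_ofReal hg (Eventually.of_forall hg0)).symm
  · calc ∫⁻ x, ENNReal.ofReal |k x y| ≤ ∫⁻ x, ENNReal.ofReal (g (x - y)) :=
          lintegral_mono fun x => ENNReal.ofReal_le_ofReal (hb x y)
      _ = ∫⁻ u, ENNReal.ofReal (g u) :=
          lintegral_sub_right_eq_self (fun u => ENNReal.ofReal (g u)) y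
      _ = ENNReal.ofReal (∫ u, g u) :=
          (ofReal_integral_eq_lintegral_ofReal hg (Eventually.of_forall hg0)).symm

end real

end Pool.Agent.TH268.NP.Ker
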