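import Pool.Agent.TH268.NP.Ops

set_option autoImplicit false

/-! # The model kernel is negative semidefinite -/

open MeasureTheory Set Filter Topology
open scoped ENNReal NNReal

namespace Pool.Agent.TH268.NP

/-- `1 / cosh` is a Gram kernel -/
lemma inv_cosh_gram (s t : ℝ) : ∫ r in Ioi (0 : ℝ), (Real.exp s * Real.exp (-(r * Real.exp (2 * s)))) *
    (Real.exp t * Real.exp (-(r * Real.exp (2 * t)))) = 1 / (2 * Real.cosh (s - t)) := by
  have ha : -(Real.exp (2 * s) + Real.exp (2 * t)) < 0 := by
    have := Real.exp_pos (2 * s)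
    have := Real.exp_pos (2 * t)
    linarith
  have h1 : ∀ r : ℝ, (Real.exp s * Real.exp (-(r * Real.exp (2 * s)))) *
      (Real.exp t * Real.exp (-(r * Real.exp (2 * t)))) =
      (Real.exp s * Real.exp t) * Real.exp (-(Real.exp (2 * s) + Real.exp (2 * t)) * r) := by
    intro r
    have : Real.exp (-(Real.exp (2 * s) + Real.exp (2 * t)) * r) =
        Real.exp (-(r * Real.exp (2 * s))) * Real.exp (-(r * Real.exp (2 * t))) := by
      rw [← Real.exp_add]; congr 1; ring
    rw [this]; ring
  simp only [h1]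
  rw [integral_const_mul, integral_exp_mul_Ioi ha]
  have e1 : Real.exp (2 * s) = Real.exp s * Real.exp s := by rw [← Real.exp_add]; congr 1; ring
  have e2 : Real.exp (2 * t) = Real.exp t * Real.exp t := by rw [← Real.exp_add]; congr 1; ring
  have e3 : Real.exp (s - t) = Real.exp s / Real.exp t := Real.exp_sub s t
  have e4 : Real.exp (-(s - t)) = Real.exp t / Real.exp s := by
    rw [neg_sub]; exact Real.exp_sub t s
  have hs := Real.exp_pos s
  have ht := Real.exp_pos t
  rw [Real.cosh_eq, e1, e2, e3, e4, mul_zero, Real.exp_zero]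
  field_simp

/-- the model operator is negative semidefinite -/
theorem nn_neg (T : Lp ℝ 2 (volume : Measure ℝ) →L[ℝ] Lp ℝ 2 (volume : Measure ℝ))
    (hT : Ker.Rep volume nn T) (φ : Lp ℝ 2 (volume : Measure ℝ)) : inner ℝ φ (T φ) ≤ 0 := by
  have hφ : Measurable (φ : ℝ → ℝ) := (Lp.stronglyMeasurable φ).measurable
  have hS := schur_nn
  have hI := Ker.integrable_ker nn _ hS.meas hS.rows hS.cols φ φ
  have e1 : inner ℝ φ (T φ) = ∫ p : ℝ × ℝ, φ p.1 * (nn p.1 p.2 * φ p.2) := by
    rw [L2.inner_def]
    have := integral_prod _ hI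
    rw [Measure.volume_eq_prod, show (∫ p : ℝ × ℝ, φ p.1 * (nn p.1 p.2 * φ p.2) ∂(volume.prod volume)) =
      ∫ p : ℝ × ℝ, Function.uncurry (fun x y => φ x * (nn x y * φ y)) p ∂(volume.prod volume) from rfl,
      this]
    refine integral_congr_ae ?_
    filter_upwards [hT φ] with x hx
    simp only [Function.uncurry]
    rw [integral_const_mul, ← hx]
    simp [mul_comm]
  -- the Gram function
  set q : ℝ → ℝ → ℝ := fun r s => Real.exp s * Real.exp (-(r * Real.exp (2 * s))) with hq
  have hq0 : ∀ r s, 0 < q r s := fun r s => by positivity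
  set F : (ℝ × ℝ) → ℝ → ℝ := fun p r => (φ p.1 * q r p.1) * (φ p.2 * q r p.2) with hF
  have hqm : Measurable (Function.uncurry q) := by
    rw [hq]; unfold Function.uncurry; fun_prop
  have hFm : Measurable (Function.uncurry F) := by
    have a1 : Measurable (fun z : (ℝ × ℝ) × ℝ => φ z.1.1) := hφ.comp (measurable_fst.comp measurable_fst)
    have a2 : Measurable (fun z : (ℝ × ℝ) × ℝ => φ z.1.2) := hφ.comp (measurable_snd.comp measurable_fst)
    have a3 : Measurable (fun z : (ℝ × ℝ) × ℝ => q z.2 z.1.1) :=
      hqm.comp (measurable_snd.prodMk (measurable_fst.comp measurable_fst))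
    have a4 : Measurable (fun z : (ℝ × ℝ) × ℝ => q z.2 z.1.2) :=
      hqm.comp (measurable_snd.prodMk (measurable_snd.comp measurable_fst))
    exact (a1.mul a3).mul (a2.mul a4)
  have hgram : ∀ s t, ∫ r in Ioi (0:ℝ), q r s * q r t = 1 / (2 * Real.cosh (s - t)) := inv_cosh_gram
  have hFr : ∀ p : ℝ × ℝ, ∫ r in Ioi (0:ℝ), F p r = φ p.1 * φ p.2 * (1 / (2 * Real.cosh (p.1 - p.2))) := by
    intro p
    rw [← hgram, ← integral_const_mul]
    refine integral_congr_ae (Eventually.of_forall fun r => ?_)
    simp only [hF]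
    ring
  have hqi : ∀ s t, IntegrableOn (fun r => q r s * q r t) (Ioi 0) := by
    intro s t
    by_contra hcon
    have := integral_undef hcon
    rw [hgram] at this
    have hp := Real.cosh_pos (s - t)
    have : 0 < 1 / (2 * Real.cosh (s - t)) := by positivity
    linarith
  have hFI : Integrable (Function.uncurry F) ((volume : Measure (ℝ × ℝ)).prod (volume.restrict (Ioi (0:ℝ)))) := by
    rw [integrable_prod_iff hFm.aestronglyMeasurable]
    refine ⟨Eventually.of_forall fun p => ?_, ?_⟩
    · have := (hqi p.1 p.2).const_mul (φ p.1 * φ p.2)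
      refine this.congr (Eventually.of_forall fun r => ?_)
      simp only [hF, Function.uncurry]
      ring
    · have h1 : ∀ p : ℝ × ℝ, ∫ r in Ioi (0:ℝ), ‖Function.uncurry F (p, r)‖ =
          |φ p.1| * |φ p.2| * (1 / (2 * Real.cosh (p.1 - p.2))) := by
        intro p
        rw [← hgram, ← integral_const_mul]
        refine integral_congr_ae (Eventually.of_forall fun r => ?_)
        simp only [hF, Function.uncurry, Real.norm_eq_abs, abs_mul, abs_of_pos (hq0 _ _)]
        ring
      simp only [h1]
      have hpi := Real.pi_pos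
      have h2 := hI.abs.const_mul (2 * Real.pi)
      rw [Measure.volume_eq_prod]
      refine h2.congr (Eventually.of_forall fun p => ?_)
      simp only [Function.uncurry, nn]
      have hp := Real.cosh_pos (p.1 - p.2)
      rw [abs_mul, abs_mul, abs_mul, abs_neg, abs_of_pos (by positivity : 0 < 1 / (4 * Real.pi)),
        abs_of_pos (by positivity : 0 < 1 / Real.cosh (p.1 - p.2))]
      field_simp
      ring
  have hswap := integral_integral_swap hFI
  simp only [hFr] at hswap
  have e2 : ∫ p : ℝ × ℝ, φ p.1 * (nn p.1 p.2 * φ p.2) =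
      -(1 / (2 * Real.pi)) * ∫ p : ℝ × ℝ, φ p.1 * φ p.2 * (1 / (2 * Real.cosh (p.1 - p.2))) := by
    rw [← integral_const_mul]
    refine integral_congr_ae (Eventually.of_forall fun p => ?_)
    simp only [nn]
    have hp := Real.cosh_pos (p.1 - p.2)
    have hpi := Real.pi_pos
    field_simp
    ring
  rw [e1, e2, hswap]
  have hpos : 0 ≤ ∫ r in Ioi (0:ℝ), ∫ p : ℝ × ℝ, F p r := by
    refine integral_nonneg fun r => ?_
    have : ∫ p : ℝ × ℝ, F p r = (∫ s, φ s * q r s) * (∫ s, φ s * q r s) := by
      rw [Measure.volume_eq_prod]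
      exact integral_prod_mul (fun s => φ s * q r s) (fun s => φ s * q r s)
    rw [Pi.zero_apply, this]
    exact mul_self_nonneg _
  have hpi := Real.pi_pos
  have : 0 ≤ 1 / (2 * Real.pi) := by positivity
  nlinarith

end Pool.Agent.TH268.NP
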