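import Pool.Agent.TH268.NP.Bd2
import Pool.Agent.TH268.NP.Ker2
import Pool.Agent.TH268.NP.Cpt

set_option autoImplicit false

/-! # The operators on `L²(ℝ)` -/

open MeasureTheory Set Filter Topology
open scoped ENNReal NNReal

namespace Pool.Agent.TH268.NP

section ops
variable {ψ : ℝ → ℝ}

/-- the model kernel of the corners -/
noncomputable def nn (s t : ℝ) : ℝ := -(1 / (4 * Real.pi)) * (1 / Real.cosh (s - t))

/-- the remainder -/
noncomputable def cc (ψ : ℝ → ℝ) (s t : ℝ) : ℝ := kk ψ t s + 1 / (4 * Real.pi) * (1 / Real.cosh (s - t))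

lemma nn_meas : Measurable (Function.uncurry nn) := by
  unfold Function.uncurry nn
  have := Real.continuous_cosh.measurable
  fun_prop

lemma Prof.cc_meas (h : Prof ψ) : Measurable (Function.uncurry (cc ψ)) := by
  have h1 : Measurable (fun p : ℝ × ℝ => kk ψ p.2 p.1) := by
    have h2 := h.kk_meas.comp (measurable_swap (α := ℝ) (β := ℝ))
    exact h2
  have := Real.continuous_cosh.measurable
  unfold Function.uncurry cc
  fun_prop

lemma schur_nn : Ker.Schur volume nn (∫ u : ℝ, 1 / Real.cosh u) := by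
  refine Ker.schur_conv nn_meas _ integrable_inv_cosh (fun u => by have := Real.cosh_pos u; positivity) ?_
  intro x y
  have hp := Real.cosh_pos (x - y)
  have hpi := Real.pi_gt_three
  rw [nn, abs_mul, abs_neg, abs_of_pos (by positivity : 0 < 1 / (4 * Real.pi)),
    abs_of_pos (by positivity : 0 < 1 / Real.cosh (x - y))]
  have h8 : 1 / (4 * Real.pi) ≤ 1 := by
    rw [div_le_one (by positivity)]
    linarith
  calc 1 / (4 * Real.pi) * (1 / Real.cosh (x - y)) ≤ 1 * (1 / Real.cosh (x - y)) := by gcongr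
    _ = _ := one_mul _

lemma Prof.schur_S (h : Prof ψ) : Ker.Schur volume (GS ψ) (∫ u : ℝ, 2 * rho u) := by
  refine Ker.schur_conv h.GS_meas _ (integrable_rho.const_mul 2)
    (fun u => by have := rho_nonneg u; positivity) ?_
  intro x y
  rw [abs_of_nonneg (h.GS_nonneg x y)]
  exact h.GS_le x y

lemma Prof.schur_K (h : Prof ψ) : ∃ C : ℝ, Ker.Schur volume (kk ψ) C := by
  obtain ⟨C, hC0, hC⟩ := h.kk_le
  refine ⟨_, Ker.schur_conv h.kk_meas (fun u => C * (1 / Real.cosh u))
    (integrable_inv_cosh.const_mul C) (fun u => by have := Real.cosh_pos u; positivity) ?_⟩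
  intro x y
  exact (hC x y).trans (le_of_eq (by ring))

/-- bound of the remainder -/
lemma Prof.cc_le (h : Prof ψ) : ∃ C : ℝ, 0 ≤ C ∧ ∀ s t : ℝ, |cc ψ s t| ≤ C / Real.cosh (s - t) := by
  obtain ⟨C, hC0, hC⟩ := h.kk_le
  have hpi := Real.pi_gt_three
  refine ⟨C + 1, by positivity, fun s t => ?_⟩
  have hp := Real.cosh_pos (s - t)
  have h8 : 1 / (4 * Real.pi) ≤ 1 := by
    rw [div_le_one (by positivity)]
    linarith
  have e : Real.cosh (t - s) = Real.cosh (s - t) := by
    rw [← Real.cosh_neg]; congr 1; ring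
  have := hC t s
  rw [e] at this
  calc |cc ψ s t| ≤ |kk ψ t s| + |1 / (4 * Real.pi) * (1 / Real.cosh (s - t))| := abs_add_le _ _
    _ ≤ C / Real.cosh (s - t) + 1 * (1 / Real.cosh (s - t)) := by
        rw [abs_mul, abs_of_pos (by positivity : 0 < 1 / (4 * Real.pi)),
          abs_of_pos (by positivity : 0 < 1 / Real.cosh (s - t))]
        gcongr
    _ = (C + 1) / Real.cosh (s - t) := by ring

/-- the remainder lives near the middle -/
lemma Prof.cc_zero (h : Prof ψ) {s t : ℝ} (hs : 2 ≤ |s|) (ht : 2 ≤ |t|) : cc ψ s t = 0 := by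
  rw [cc, kk, h.far t ht, h.far s hs, h.deriv_far' hs]
  have e1 : Real.pi / 4 + Real.pi / 4 = Real.pi / 2 := by ring
  have e2 : Real.cosh (t - s) = Real.cosh (s - t) := by
    rw [← Real.cosh_neg]; congr 1; ring
  rw [e1, e2]
  simp

lemma Prof.kk_contAt (h : Prof ψ) {t s : ℝ} (hts : t ≠ s) :
    ContinuousAt (fun s => kk ψ t s) s := by
  have hc := h.cont
  have hd := h.dcont
  have hm := (Dm_pos ψ hts).ne'
  have hp := (h.Dp_pos t s).ne'
  unfold Dm at hm
  unfold Dp at hp
  unfold kk
  have c1 : Continuous (fun s => Real.sin (ψ t + ψ s) + deriv ψ s * Real.sinh (t - s)) := by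
    have := Real.continuous_sinh; fun_prop
  have c2 : Continuous (fun s => Real.cosh (t - s) - Real.cos (ψ t + ψ s)) := by
    have := Real.continuous_cosh; fun_prop
  have c3 : Continuous (fun s => Real.sin (ψ t - ψ s) - deriv ψ s * Real.sinh (t - s)) := by
    have := Real.continuous_sinh; fun_prop
  have c4 : Continuous (fun s => Real.cosh (t - s) - Real.cos (ψ t - ψ s)) := by
    have := Real.continuous_cosh; fun_prop
  exact continuousAt_const.mul ((c1.continuousAt.div c2.continuousAt hp).add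
    (c3.continuousAt.div c4.continuousAt hm))

lemma Prof.cc_contAt (h : Prof ψ) {s t : ℝ} (hts : t ≠ s) :
    ContinuousAt (fun s => cc ψ s t) s := by
  unfold cc
  refine (h.kk_contAt hts).add ?_
  have c2 : Continuous (fun s => 1 / (4 * Real.pi) * (1 / Real.cosh (s - t))) := by
    have := Real.continuous_cosh
    have h0 : ∀ s, Real.cosh (s - t) ≠ 0 := fun s => (Real.cosh_pos _).ne'
    fun_prop (disch := exact h0 _)
  exact c2.continuousAt

lemma inv_cosh_le (u : ℝ) : 1 / Real.cosh u ≤ 2 * Real.exp (-|u|) := by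
  have hp := Real.cosh_pos u
  rw [div_le_iff₀ hp]
  have := cosh_ge_exp u
  calc (1 : ℝ) = 2 * Real.exp (-|u|) * (Real.exp |u| / 2) := by
        rw [Real.exp_neg]; field_simp
    _ ≤ 2 * Real.exp (-|u|) * Real.cosh u := by gcongr

lemma memLp_exp_abs (C x : ℝ) : MemLp (fun y : ℝ => C * Real.exp (-|x - y|)) 2 volume := by
  have hc : Continuous (fun y : ℝ => C * Real.exp (-|x - y|)) := by fun_prop
  rw [memLp_two_iff_integrable_sq hc.aestronglyMeasurable]
  have h1 : Integrable (fun u : ℝ => Real.exp (-(2 * |u|))) := integrable_exp_abs (by norm_num)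
  have h2 := (h1.comp_sub_left x).const_mul (C ^ 2)
  refine h2.congr (Eventually.of_forall fun y => ?_)
  simp only
  rw [mul_pow, ← Real.exp_nat_mul]
  congr 2
  push_cast
  ring

lemma Prof.cc_memLp (h : Prof ψ) (x : ℝ) : MemLp (cc ψ x) 2 volume := by
  obtain ⟨C, hC0, hC⟩ := h.cc_le
  refine MemLp.mono (memLp_exp_abs (2 * C) x) (Ker.meas_left h.cc_meas x).aestronglyMeasurable ?_
  refine Eventually.of_forall fun y => ?_
  rw [Real.norm_eq_abs, Real.norm_eq_abs, abs_of_nonneg (by positivity : 0 ≤ 2 * C * Real.exp (-|x - y|))]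
  calc |cc ψ x y| ≤ C * (1 / Real.cosh (x - y)) := (hC x y).trans (le_of_eq (by ring))
    _ ≤ C * (2 * Real.exp (-|x - y|)) := by gcongr; exact inv_cosh_le _
    _ = _ := by ring

lemma Prof.cc_rows (h : Prof ψ) : Continuous (fun x => (h.cc_memLp x).toLp (cc ψ x)) := by
  obtain ⟨C, hC0, hC⟩ := h.cc_le
  refine Ker.rows_continuous (cc ψ) (fun x => (Ker.meas_left h.cc_meas x).aestronglyMeasurable)
    h.cc_memLp (fun x y => (2 * C * Real.exp 1) * Real.exp (-|x - y|))
    (fun x => memLp_exp_abs _ x) ?_ ?_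
  · intro x
    have : ∀ᶠ z in 𝓝 x, |z - x| < 1 := by
      have := Metric.ball_mem_nhds x (one_pos)
      filter_upwards [this] with z hz
      rwa [Metric.mem_ball, Real.dist_eq] at hz
    filter_upwards [this] with z hz
    refine Eventually.of_forall fun y => ?_
    have h1 : |x - y| ≤ 1 + |z - y| := by
      calc |x - y| = |(x - z) + (z - y)| := by congr 1; ring
        _ ≤ |x - z| + |z - y| := abs_add_le _ _
        _ ≤ 1 + |z - y| := by rw [abs_sub_comm x z]; gcongr
    calc |cc ψ z y| ≤ C * (1 / Real.cosh (z - y)) := (hC z y).trans (le_of_eq (by ring))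
      _ ≤ C * (2 * Real.exp (-|z - y|)) := by gcongr; exact inv_cosh_le _
      _ ≤ C * (2 * Real.exp (1 + -|x - y|)) := by gcongr; linarith
      _ = _ := by rw [Real.exp_add]; ring
  · intro x
    have : ∀ᵐ y : ℝ, y ≠ x := by
      have := measure_singleton (μ := (volume : Measure ℝ)) x
      rw [ae_iff]
      simp
    filter_upwards [this] with y hy
    exact h.cc_contAt hy

/-- the remainder is a Hilbert-Schmidt operator -/
theorem Prof.cc_compact (h : Prof ψ) (T : Lp ℝ 2 (volume : Measure ℝ) →L[ℝ] Lp ℝ 2 (volume : Measure ℝ))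
    (hT : Ker.Rep volume (cc ψ) T) : IsCompactOperator T := by
  refine Ker.compact_of_rows volume (cc ψ) (fun x => (h.cc_memLp x).toLp (cc ψ x))
    (fun x => (h.cc_memLp x).coeFn_toLp) ?_ T hT
  obtain ⟨C, hC0, hC⟩ := h.cc_le
  rw [memLp_two_iff_integrable_sq_norm h.cc_rows.aestronglyMeasurable]
  have hsq : ∀ x, ‖(h.cc_memLp x).toLp (cc ψ x)‖ ^ 2 = ∫ y, cc ψ x y ^ 2 := by
    intro x
    rw [← real_inner_self_eq_norm_sq, L2.inner_def]
    refine integral_congr_ae ?_
    filter_upwards [(h.cc_memLp x).coeFn_toLp] with y hy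
    rw [hy]
    simp [sq]
  simp only [hsq]
  -- majorant
  set g : ℝ → ℝ → ℝ := fun x y => (4 * C ^ 2) * ((Icc (-2) 2).indicator (fun _ => (1:ℝ)) x * Real.exp (-(2 * |x - y|)) +
      (Icc (-2) 2).indicator (fun _ => (1:ℝ)) y * Real.exp (-(2 * |x - y|))) with hg
  have hbound : ∀ x y, cc ψ x y ^ 2 ≤ g x y := by
    intro x y
    have hsq1 : cc ψ x y ^ 2 ≤ (4 * C ^ 2) * Real.exp (-(2 * |x - y|)) := by
      have h1 : |cc ψ x y| ≤ C * (2 * Real.exp (-|x - y|)) := by
        calc |cc ψ x y| ≤ C * (1 / Real.cosh (x - y)) := (hC x y).trans (le_of_eq (by ring))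
          _ ≤ _ := by gcongr; exact inv_cosh_le _
      calc cc ψ x y ^ 2 = |cc ψ x y| ^ 2 := (sq_abs _).symm
        _ ≤ (C * (2 * Real.exp (-|x - y|))) ^ 2 := by gcongr
        _ = (4 * C ^ 2) * Real.exp (-(2 * |x - y|)) := by
            have : Real.exp (-(2 * |x - y|)) = Real.exp (-|x - y|) ^ 2 := by
              rw [← Real.exp_nat_mul]; congr 1; push_cast; ring
            rw [this]; ring
    by_cases hx : x ∈ Icc (-2 : ℝ) 2
    · rw [hg]
      simp only [indicator_of_mem hx, one_mul]
      have h0 : 0 ≤ (Icc (-2:ℝ) 2).indicator (fun _ => (1:ℝ)) y := indicator_nonneg (by simp) _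
      calc cc ψ x y ^ 2 ≤ (4 * C ^ 2) * Real.exp (-(2 * |x - y|)) := hsq1
        _ ≤ _ := by
            gcongr
            have := Real.exp_pos (-(2 * |x - y|))
            nlinarith
    · by_cases hy : y ∈ Icc (-2 : ℝ) 2
      · rw [hg]
        simp only [indicator_of_mem hy, indicator_of_notMem hx, one_mul, zero_mul, zero_add]
        exact hsq1
      · have hx2 : 2 ≤ |x| := by
          by_contra hcon
          push Not at hcon
          exact hx ⟨(abs_lt.1 hcon).1.le, (abs_lt.1 hcon).2.le⟩
        have hy2 : 2 ≤ |y| := by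
          by_contra hcon
          push Not at hcon
          exact hy ⟨(abs_lt.1 hcon).1.le, (abs_lt.1 hcon).2.le⟩
        rw [h.cc_zero hx2 hy2, hg]
        simp only [indicator_of_notMem hx, indicator_of_notMem hy, zero_mul, add_zero, mul_zero]
        norm_num
  have hE : Integrable (fun u : ℝ => Real.exp (-(2 * |u|))) := integrable_exp_abs (by norm_num)
  have hI1 : Integrable (fun x : ℝ => (Icc (-2:ℝ) 2).indicator (fun _ => (1:ℝ)) x) := by
    rw [integrable_indicator_iff measurableSet_Icc]
    exact integrableOn_const (by simp) (by simp)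
  have hgI : Integrable (Function.uncurry g) ((volume : Measure ℝ).prod volume) := by
    rw [hg]
    refine Integrable.const_mul (Integrable.add ?_ ?_) _
    · have h2 := (Integrable.convolution_integrand (μ := volume) (ν := volume)
        (ContinuousLinearMap.mul ℝ ℝ) hI1 hE).swap
      refine h2.congr (Eventually.of_forall fun p => ?_)
      simp only [Function.comp, Prod.snd_swap, Prod.fst_swap, ContinuousLinearMap.mul_apply',
        abs_sub_comm p.2 p.1]
    · have h2 := (Integrable.convolution_integrand (μ := volume) (ν := volume)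
        (ContinuousLinearMap.mul ℝ ℝ) hI1 hE)
      refine h2.congr (Eventually.of_forall fun p => ?_)
      simp only [ContinuousLinearMap.mul_apply']
  have hccm : AEStronglyMeasurable (Function.uncurry fun x y => cc ψ x y ^ 2) ((volume : Measure ℝ).prod volume) :=
    (Measurable.pow_const (f := Function.uncurry (cc ψ)) h.cc_meas 2).aestronglyMeasurable
  have hccI : Integrable (Function.uncurry fun x y => cc ψ x y ^ 2) ((volume : Measure ℝ).prod volume) := by
    refine hgI.mono' hccm (Eventually.of_forall fun p => ?_)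
    rw [Real.norm_eq_abs, abs_of_nonneg (sq_nonneg _)]
    exact hbound p.1 p.2
  exact hccI.integral_prod_left

end ops

end Pool.Agent.TH268.NP
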